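import Mathlib
import Pool.Agent.H458.Sp.Expand

/-!
# Project EA (row MP_7475bd_nt): the abcd inequality with explicit constants for numbers with few digits in any base

Statements of the packages. `K` is a number field, `hs` (starting library, `H458.Sp.Cluster`) is the house of an
algebraic integer, `n = [K : ℚ]`. All packages need Mathlib only, except TRANS.
-/

set_option autoImplicit false

namespace Pool.Agent.P8H51.EA

open NumberField Pool.Agent.H458.Sp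

/-- the embedding of the ring of integers given by an embedding of the field -/
noncomputable def em {K : Type} [Field K] (φ : K →+* ℂ) : 𝓞 K →+* ℂ := φ.comp (algebraMap (𝓞 K) K)

/-- the polynomial of the number `∑ c j b ^ (m j + l j)` -/
noncomputable def dig {K : Type} [Field K] {r : ℕ} (b : ℕ) (m l : Fin r → ℕ) (c : Fin r → 𝓞 K) :
    Polynomial (𝓞 K) :=
  ∑ j, Polynomial.C (c j * (b : 𝓞 K) ^ (m j)) * Polynomial.X ^ (l j)

/-- the substitution `u_j = b ^ (m j) X ^ (l j)` -/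
noncomputable def subK {K : Type} [Field K] {r : ℕ} (b : ℕ) (m l : Fin r → ℕ) :
    MvPolynomial (Fin r) (𝓞 K) →ₐ[𝓞 K] Polynomial (𝓞 K) :=
  MvPolynomial.aeval (fun j => Polynomial.C ((b : 𝓞 K) ^ (m j)) * Polynomial.X ^ (l j))

/-- **Package UPP** (40 lines). Upper bound for the value. The coefficient of `X ^ w` in `dig` is
`∑_{l j = w} c j b ^ m j`, of absolute value at most `∑_{l j = w} B b ^ f` at each embedding; the polynomial has degree
`W`, so the value at `b` is at most `∑_w |coeff w| b ^ W`. (Model: the part `hsumc` of `Pool/Agent/P8H51/UB/Root.lean`.) -/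
def S_UPP : Prop :=
  ∀ (K : Type) [Field K] [NumberField K] (r b f : ℕ) (m l : Fin r → ℕ) (c : Fin r → 𝓞 K) (B : ℝ), 2 ≤ b →
    (∀ j, m j ≤ f) → (∀ j, hs (c j) ≤ B) → ∀ φ : K →+* ℂ,
    ‖em φ ((dig b m l c).eval (b : 𝓞 K))‖ ≤ r * B * (b : ℝ) ^ f * (b : ℝ) ^ (dig b m l c).natDegree

/-- **Package LOW** (80 lines). Lower bound for the norm of the value. Let `a` be the leading coefficient, `W` the degree.
At each embedding `‖φ (value)‖ ≥ ‖φ a‖ b ^ W - r B b ^ f b ^ (W - g)` (the other exponents are at most `W - g`; if `W = 0` the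
value is `a`). All `‖φ a‖ ≤ r B b ^ f` and `∏ ‖φ a‖ = |N a| ≥ 1`, so `‖φ a‖ ≥ (r B b ^ f) ^ (1 - n)` and the second term is at
most `‖φ a‖ b ^ W / 2`. So `‖φ (value)‖ ≥ ‖φ a‖ b ^ W / 2`; multiply over all `φ` (`Algebra.norm_eq_prod_embeddings`). -/
def S_LOW : Prop :=
  ∀ (K : Type) [Field K] [NumberField K] (r b f g : ℕ) (m l : Fin r → ℕ) (c : Fin r → 𝓞 K) (B : ℝ), 2 ≤ b →
    (∀ j, m j ≤ f) → (∀ j, hs (c j) ≤ B) → dig b m l c ≠ 0 → (∀ i j, l i < l j → l i + g ≤ l j) →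
    2 * (r * B * (b : ℝ) ^ f) ^ (Module.finrank ℚ K) ≤ (b : ℝ) ^ g →
    (b : ℝ) ^ (Module.finrank ℚ K * (dig b m l c).natDegree) ≤
      2 ^ (Module.finrank ℚ K) * |(Algebra.norm ℤ ((dig b m l c).eval (b : 𝓞 K)) : ℝ)|

/-- **Package ROOT** (80 lines). The roots are small. Model with proof for `K = ℚ`: `root_bound_t` in
`Pool/Agent/P8H51/UB/Root.lean`: if `‖ρ‖ ≥ τ ≥ 1` is a root, `‖φ a‖ ‖ρ‖ ^ W ≤ ∑_{w < W} ‖coeff w‖ ‖ρ‖ ^ w` and all `w` with nonzero
coefficient are at most `W - g`, so `‖φ a‖ ‖ρ‖ ^ g ≤ r B b ^ f`; and `‖φ a‖ ≥ (r B b ^ f) ^ (1 - n)` as in LOW. -/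
def S_ROOT : Prop :=
  ∀ (K : Type) [Field K] [NumberField K] (r b f g : ℕ) (m l : Fin r → ℕ) (c : Fin r → 𝓞 K) (B τ : ℝ), 2 ≤ b →
    (∀ j, m j ≤ f) → (∀ j, hs (c j) ≤ B) → dig b m l c ≠ 0 → (∀ i j, l i < l j → l i + g ≤ l j) →
    1 ≤ τ → (r * B * (b : ℝ) ^ f) ^ (Module.finrank ℚ K) < τ ^ g →
    ∀ (φ : K →+* ℂ) (ρ : ℂ), (dig b m l c).eval₂ (em φ) ρ = 0 → ‖ρ‖ < τ

/-- **Package GCDK** (100 lines). No common zero. Let `F (X) = ∑ c σ A σ (β - X)` with coefficients in `𝓞 K`; `F (0) = 1` and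
`s = β - ρ` is a zero of its image under `φ`; so `y = 1 / s` is a zero of the reversed polynomial, which is monic: `y` is
an algebraic integer, `y ≠ 0`. Every conjugate `y'` of `y` over `ℚ` (root of the minimal polynomial over `ℚ`) is `ψ y`
for a ring homomorphism `ψ` of the field generated by `φ (K)` and `ρ` (or of the algebraic numbers in `ℂ`) to `ℂ`; so
`y' = 1 / (β - ψ ρ)` and `ψ ρ` is a zero of the image of `A σ₀` under the embedding `ψ ∘ φ` of `K`, so `‖y'‖ < 1`. The product of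
the conjugates is the constant coefficient of the minimal polynomial over `ℤ`, a nonzero integer: contradiction. -/
def S_GCDK : Prop :=
  ∀ (K : Type) [Field K] [NumberField K] (N : ℕ) (A : Fin N → Polynomial (𝓞 K)) (c : Fin N → 𝓞 K) (β : ℕ)
    (σ₀ : Fin N), ∑ σ, c σ * (A σ).eval (β : 𝓞 K) = 1 →
    (∀ (φ : K →+* ℂ) (ρ : ℂ), (A σ₀).eval₂ (em φ) ρ = 0 → ‖ρ‖ < (β : ℝ) - 1) →
    ∀ (φ : K →+* ℂ) (ρ : ℂ), ¬ ∀ σ, (A σ).eval₂ (em φ) ρ = 0

/-- **Package MASN** (60 lines). Mason's inequality for `N` terms from the library theorem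
`Pool.Agent.Y954.U557.bmg_holds ℂ : Pool.Agent.Y557.U.S_BMG ℂ` (`S_BMG` in `Y557/U/Stm6.lean`, `nz`, `rts` in `Y557/NF/Curve.lean`):
apply it with `D` the maximum of the degrees. The number `nz A` is at most (zeros of the product) + 1, and the zeros are
`0` and those of the `P i`, so `nz A ≤ 2 + ∑ deg P i`, and `2 D ≤ c ∑ deg P i` with `c = (N - 1) (N - 2) max 1 (N - 3)`; `(N - 1) (N - 2)` is
even. -/
def S_MASN : Prop :=
  ∀ (N p : ℕ) (A : Fin N → Polynomial ℂ) (P : Fin p → Polynomial ℂ), 3 ≤ N → (∀ σ, A σ ≠ 0) → (∀ i, P i ≠ 0) →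
    ∑ σ, A σ = 0 → (∀ s : Finset (Fin N), s.Nonempty → s ≠ Finset.univ → ∑ σ ∈ s, A σ ≠ 0) →
    (∀ σ (ρ : ℂ), (A σ).eval ρ = 0 → ρ = 0 ∨ ∃ i, (P i).eval ρ = 0) → (∀ ρ : ℂ, ∃ σ, (A σ).eval ρ ≠ 0) →
    ∀ σ, (A σ).natDegree ≤ (N - 1) * (N - 2) / 2 * max 1 (N - 3) * ∑ i, (P i).natDegree

end Pool.Agent.P8H51.EA
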