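import Mathlib
import Pool.Agent.P8H51.EA.Stm

/-!
# Project EA: the condition on the greatest common divisor in general form
-/

set_option autoImplicit false

namespace Pool.Agent.P8H51.EA

open NumberField Pool.Agent.H458.Sp

/-- **Package GCDQ**: `S_GCDK` (which is the case `q = 1`) for terms whose greatest common divisor divides the integer `q`.
Same proof: `F (X) = ∑ c σ A σ (β - X) = q + a_1 X + ... + a_d X ^ d`, `s = β - ρ` a zero of its image under `φ`, `z = q / s`: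
`z ^ d + a_1 z ^ (d-1) + a_2 q z ^ (d-2) + ... + a_d q ^ (d-1) = 0`, so `z` is an algebraic integer, `z ≠ 0`, and its conjugates
`q / (β - ψ ρ)` have absolute value less than `1`. -/
def S_GCDQ : Prop :=
  ∀ (K : Type) [Field K] [NumberField K] (N : ℕ) (A : Fin N → Polynomial (𝓞 K)) (c : Fin N → 𝓞 K) (β q : ℕ)
    (σ₀ : Fin N), 0 < q → ∑ σ, c σ * (A σ).eval (β : 𝓞 K) = (q : 𝓞 K) →
    (∀ (φ : K →+* ℂ) (ρ : ℂ), (A σ₀).eval₂ (em φ) ρ = 0 → ‖ρ‖ < (β : ℝ) - q) →
    ∀ (φ : K →+* ℂ) (ρ : ℂ), ¬ ∀ σ, (A σ).eval₂ (em φ) ρ = 0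

end Pool.Agent.P8H51.EA
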