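import Mathlib
import Pool.Agent.P8H51.EA.Stm
import Pool.Agent.P8H51.EA.Stm2
import Pool.Agent.P8H51.EA.Trans

/-!
# The core: from an identity of polynomials to the inequality
-/

set_option autoImplicit false

namespace Pool.Agent.P8H51.EA

open Finset NumberField Pool.Agent.H458.Sp

variable {K : Type} [Field K]

/-- the linear form with the given digits -/
noncomputable def linK {r : ℕ} (c : Fin r → 𝓞 K) : MvPolynomial (Fin r) (𝓞 K) :=
  ∑ j, MvPolynomial.C (c j) * MvPolynomial.X j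

theorem subK_C {r : ℕ} (b : ℕ) (m l : Fin r → ℕ) (c : 𝓞 K) :
    subK b m l (MvPolynomial.C c) = Polynomial.C c := by
  unfold subK
  rw [MvPolynomial.aeval_C]
  rfl

theorem subK_X {r : ℕ} (b : ℕ) (m l : Fin r → ℕ) (j : Fin r) :
    subK b m l (MvPolynomial.X j : MvPolynomial (Fin r) (𝓞 K)) =
      Polynomial.C ((b : 𝓞 K) ^ (m j)) * Polynomial.X ^ (l j) := by
  unfold subK
  rw [MvPolynomial.aeval_X]

theorem subK_linK {r : ℕ} (b : ℕ) (m l : Fin r → ℕ) (c : Fin r → 𝓞 K) :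
    subK b m l (linK c) = dig b m l c := by
  unfold linK dig
  rw [map_sum]
  refine Finset.sum_congr rfl fun j _ => ?_
  rw [map_mul, subK_C, subK_X, Polynomial.C_mul, mul_assoc]

theorem eval_dig {r : ℕ} (b : ℕ) (m l : Fin r → ℕ) (c : Fin r → 𝓞 K) :
    (dig b m l c).eval (b : 𝓞 K) = ∑ j, c j * (b : 𝓞 K) ^ (m j + l j) := by
  unfold dig
  rw [Polynomial.eval_finsetSum]
  refine Finset.sum_congr rfl fun j _ => ?_
  rw [Polynomial.eval_mul, Polynomial.eval_C, Polynomial.eval_pow, Polynomial.eval_X, pow_add,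
    mul_assoc]

/-- the form of a term -/
noncomputable def GA {N p r : ℕ} (τ : Fin p → Fin N) (e : Fin p → ℕ) (cx : Fin p → Fin r → 𝓞 K)
    (v : Fin N → 𝓞 K) (jw : Fin N → Fin r) (σ : Fin N) : MvPolynomial (Fin r) (𝓞 K) :=
  MvPolynomial.C (v σ) * MvPolynomial.X (jw σ) *
    ∏ i ∈ univ.filter (fun i => τ i = σ), linK (cx i) ^ e i

/-- the polynomial of a term -/
noncomputable def PA {N p r : ℕ} (τ : Fin p → Fin N) (e : Fin p → ℕ) (b : ℕ) (m l : Fin r → ℕ)
    (cx : Fin p → Fin r → 𝓞 K) (v : Fin N → 𝓞 K) (jw : Fin N → Fin r) (σ : Fin N) :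
    Polynomial (𝓞 K) :=
  Polynomial.C (v σ * (b : 𝓞 K) ^ (m (jw σ))) * Polynomial.X ^ (l (jw σ)) *
    ∏ i ∈ univ.filter (fun i => τ i = σ), dig b m l (cx i) ^ e i

/-- a term -/
noncomputable def VA {N p : ℕ} (τ : Fin p → Fin N) (e : Fin p → ℕ) (x : Fin p → 𝓞 K)
    (w : Fin N → 𝓞 K) (σ : Fin N) : 𝓞 K :=
  w σ * ∏ i ∈ univ.filter (fun i => τ i = σ), x i ^ e i

theorem subK_GA {N p r : ℕ} (τ : Fin p → Fin N) (e : Fin p → ℕ) (b : ℕ) (m l : Fin r → ℕ)
    (cx : Fin p → Fin r → 𝓞 K) (v : Fin N → 𝓞 K) (jw : Fin N → Fin r) (σ : Fin N) :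
    subK b m l (GA τ e cx v jw σ) = PA τ e b m l cx v jw σ := by
  unfold GA PA
  rw [map_mul, map_mul, map_prod, subK_C, subK_X, Polynomial.C_mul,
    mul_assoc (Polynomial.C (v σ)) (Polynomial.C _) (Polynomial.X ^ _)]
  congr 1
  refine Finset.prod_congr rfl fun i _ => ?_
  rw [map_pow, subK_linK]

theorem eval_PA {N p r : ℕ} (τ : Fin p → Fin N) (e : Fin p → ℕ) (b : ℕ) (E m l : Fin r → ℕ)
    (cx : Fin p → Fin r → 𝓞 K) (v : Fin N → 𝓞 K) (jw : Fin N → Fin r)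
    (hml : ∀ j, m j + l j = E j) (x : Fin p → 𝓞 K)
    (hx : ∀ i, x i = ∑ j, cx i j * (b : 𝓞 K) ^ (E j)) (w : Fin N → 𝓞 K)
    (hw : ∀ σ, w σ = v σ * (b : 𝓞 K) ^ (E (jw σ))) (σ : Fin N) :
    (PA τ e b m l cx v jw σ).eval (b : 𝓞 K) = VA τ e x w σ := by
  unfold PA VA
  rw [Polynomial.eval_mul, Polynomial.eval_mul, Polynomial.eval_C, Polynomial.eval_pow,
    Polynomial.eval_X, Polynomial.eval_prod, hw, ← hml, pow_add, ← mul_assoc]
  congr 1
  refine Finset.prod_congr rfl fun i _ => ?_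
  rw [Polynomial.eval_pow, eval_dig, hx]
  simp only [hml]

variable [NumberField K]

theorem core (hUPP : S_UPP) (hLOW : S_LOW) (hROOT : S_ROOT) (hGCDQ : S_GCDQ) (hMASN : S_MASN)
    {N p r q : ℕ} (hq : 0 < q) (hN : 3 ≤ N) (τ : Fin p → Fin N) (e : Fin p → ℕ) (b : ℕ) (hb : q + 1 ≤ b)
    (E m l : Fin r → ℕ) (cx : Fin p → Fin r → 𝓞 K) (v : Fin N → 𝓞 K) (jw : Fin N → Fin r)
    (B : ℝ) (hB1 : 1 ≤ B) (f g D : ℕ) (hml : ∀ j, m j + l j = E j) (hm : ∀ j, m j ≤ f)
    (hcx : ∀ i j, hs (cx i j) ≤ B) (hv : ∀ σ, hs (v σ) ≤ B)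
    (x : Fin p → 𝓞 K) (hx : ∀ i, x i = ∑ j, cx i j * (b : 𝓞 K) ^ (E j)) (hx0 : ∀ i, x i ≠ 0)
    (w : Fin N → 𝓞 K) (hw : ∀ σ, w σ = v σ * (b : 𝓞 K) ^ (E (jw σ)))
    (hD : ∀ σ, ∑ i ∈ univ.filter (fun i => τ i = σ), e i < D)
    (hsub : ∀ s : Finset (Fin N), s.Nonempty → s ≠ univ → ∑ σ ∈ s, VA τ e x w σ ≠ 0)
    (hspan : (q : 𝓞 K) ∈ Ideal.span (Set.range (VA τ e x w)))
    (hvan : ∑ σ, PA τ e b m l cx v jw σ = 0)
    (hgap : ∀ i j, l i < l j → l i + g ≤ l j)
    (h1 : 2 * (r * B * (b : ℝ) ^ f) ^ (Module.finrank ℚ K) ≤ (b : ℝ) ^ g)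
    (h2 : (r * B * (b : ℝ) ^ f) ^ (Module.finrank ℚ K) < ((b : ℝ) - q) ^ g) :
    ∏ φ : K →+* ℂ, (⨆ σ, ‖em φ (VA τ e x w σ)‖) ≤
      (r * B * (b : ℝ) ^ f) ^ (D * Module.finrank ℚ K) *
        (2 ^ (p * Module.finrank ℚ K) * |(Algebra.norm ℤ (∏ i, x i) : ℝ)|) ^
          ((N - 1) * (N - 2) / 2 * max 1 (N - 3)) := by
  classical
  obtain ⟨κ, hκ⟩ : ∃ κ : ℕ, κ = (N - 1) * (N - 2) / 2 * max 1 (N - 3) := ⟨_, rfl⟩
  obtain ⟨n, hn⟩ : ∃ n : ℕ, n = Module.finrank ℚ K := ⟨_, rfl⟩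
  have hb2 : 2 ≤ b := by omega
  have hbR : (2 : ℝ) ≤ b := by exact_mod_cast hb2
  have hbq : (q : ℝ) + 1 ≤ b := by exact_mod_cast hb
  have hbf : (1 : ℝ) ≤ (b : ℝ) ^ f := one_le_pow₀ (by linarith)
  obtain ⟨σ₀⟩ : Nonempty (Fin N) := ⟨⟨0, by omega⟩⟩
  have hr1 : 1 ≤ r := lt_of_le_of_lt (Nat.zero_le _) (jw σ₀).2
  have hrR : (1 : ℝ) ≤ r := by exact_mod_cast hr1
  have hrB : (1 : ℝ) ≤ r * B := by nlinarith
  have hRB : (1 : ℝ) ≤ r * B * (b : ℝ) ^ f := by nlinarith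
  -- the terms
  have hev := eval_PA τ e b E m l cx v jw hml x hx w hw
  have hA0 : ∀ σ, VA τ e x w σ ≠ 0 := by
    intro σ
    have h3 := hsub {σ} (Finset.singleton_nonempty σ) (by
      intro h4
      have h5 := congrArg Finset.card h4
      rw [Finset.card_singleton, Finset.card_univ, Fintype.card_fin] at h5
      omega)
    rwa [Finset.sum_singleton] at h3
  have hPA0 : ∀ σ, PA τ e b m l cx v jw σ ≠ 0 := by
    intro σ h3
    apply hA0 σ
    rw [← hev, h3, Polynomial.eval_zero]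
  have hP0 : ∀ i, dig b m l (cx i) ≠ 0 := by
    intro i h3
    apply hx0 i
    have h4 := eval_dig b m l (cx i)
    simp only [hml] at h4
    rw [hx, ← h4, h3, Polynomial.eval_zero]
  have hxe : ∀ i, (dig b m l (cx i)).eval (b : 𝓞 K) = x i := by
    intro i
    rw [eval_dig, hx]
    simp only [hml]
  -- roots
  have hem0 : ∀ (φ : K →+* ℂ) (y : 𝓞 K), em φ y = 0 → y = 0 := by
    intro φ y hy
    unfold em at hy
    rw [RingHom.comp_apply] at hy
    have h3 := (map_eq_zero φ).1 hy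
    exact (FaithfulSMul.algebraMap_injective (𝓞 K) K) (by rw [map_zero]; exact h3)
  have hemI : ∀ φ : K →+* ℂ, Function.Injective (em φ) := fun φ =>
    (injective_iff_map_eq_zero _).2 (hem0 φ)
  have hroots : ∀ (φ : K →+* ℂ) σ (ρ : ℂ), (PA τ e b m l cx v jw σ).eval₂ (em φ) ρ = 0 →
      ρ = 0 ∨ ∃ i, (dig b m l (cx i)).eval₂ (em φ) ρ = 0 := by
    intro φ σ ρ h3
    unfold PA at h3
    rw [Polynomial.eval₂_mul, Polynomial.eval₂_mul, Polynomial.eval₂_C, Polynomial.eval₂_X_pow,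
      Polynomial.eval₂_finsetProd, mul_eq_zero, mul_eq_zero] at h3
    rcases h3 with (h3 | h3) | h3
    · exfalso
      have h4 := hem0 φ _ h3
      apply hPA0 σ
      unfold PA
      rw [h4, map_zero, zero_mul, zero_mul]
    · refine Or.inl ((pow_eq_zero_iff ?_).1 h3)
      intro h6
      rw [h6, pow_zero] at h3
      exact one_ne_zero h3
    · right
      rw [Finset.prod_eq_zero_iff] at h3
      obtain ⟨i, _, h4⟩ := h3
      rw [Polynomial.eval₂_pow] at h4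
      refine ⟨i, (pow_eq_zero_iff ?_).1 h4⟩
      intro h6
      rw [h6, pow_zero] at h4
      exact one_ne_zero h4
  have hsmall : ∀ (φ : K →+* ℂ) (ρ : ℂ), (PA τ e b m l cx v jw σ₀).eval₂ (em φ) ρ = 0 →
      ‖ρ‖ < (b : ℝ) - q := by
    intro φ ρ h3
    rcases hroots φ σ₀ ρ h3 with h4 | ⟨i, h4⟩
    · rw [h4, norm_zero]
      linarith
    · exact hROOT K r b f g m l (cx i) B ((b : ℝ) - q) hb2 hm (hcx i) (hP0 i) hgap (by linarith) h2
        φ ρ h4
  obtain ⟨cc, hcc⟩ : ∃ cc : Fin N → 𝓞 K, ∑ σ, cc σ * VA τ e x w σ = (q : 𝓞 K) := by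
    rw [Ideal.mem_span_range_iff_exists_fun] at hspan
    exact hspan
  have hnc := hGCDQ K N (PA τ e b m l cx v jw) cc b q σ₀ hq (by
    rw [← hcc]
    exact Finset.sum_congr rfl fun σ _ => by rw [hev]) hsmall
  -- Mason
  obtain ⟨φ₀⟩ : Nonempty (K →+* ℂ) := inferInstance
  have hdeg : ∀ σ, (PA τ e b m l cx v jw σ).natDegree ≤ κ * ∑ i, (dig b m l (cx i)).natDegree := by
    have h3 := hMASN N p (fun σ => (PA τ e b m l cx v jw σ).map (em φ₀))
      (fun i => (dig b m l (cx i)).map (em φ₀)) hN (fun σ => by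
        rw [Ne, Polynomial.map_eq_zero_iff (hemI φ₀)]
        exact hPA0 σ) (fun i => by
        rw [Ne, Polynomial.map_eq_zero_iff (hemI φ₀)]
        exact hP0 i) (by rw [← Polynomial.map_sum, hvan, Polynomial.map_zero]) (by
        intro s hs1 hs2 h4
        apply hsub s hs1 hs2
        rw [← Polynomial.map_sum, Polynomial.map_eq_zero_iff (hemI φ₀)] at h4
        have h5 := congrArg (Polynomial.eval (b : 𝓞 K)) h4
        rw [Polynomial.eval_finsetSum, Polynomial.eval_zero] at h5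
        rw [← h5]
        exact Finset.sum_congr rfl fun σ _ => (hev σ).symm) (by
        intro σ ρ h4
        rw [Polynomial.eval_map] at h4
        rcases hroots φ₀ σ ρ h4 with h5 | ⟨i, h5⟩
        · exact Or.inl h5
        · exact Or.inr ⟨i, by rw [Polynomial.eval_map]; exact h5⟩) (by
        intro ρ
        by_contra h4
        push Not at h4
        exact hnc φ₀ ρ fun σ => by
          have h5 := h4 σ
          rwa [Polynomial.eval_map] at h5)
    intro σ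
    have h4 := h3 σ
    simp only [Polynomial.natDegree_map_eq_of_injective (hemI φ₀)] at h4
    rw [hκ]
    exact h4
  -- the bound at one embedding
  obtain ⟨R, hR⟩ : ∃ R : ℝ, R = r * B * (b : ℝ) ^ f := ⟨_, rfl⟩
  rw [← hR] at hRB
  have hone : ∀ (φ : K →+* ℂ) σ, ‖em φ (VA τ e x w σ)‖ ≤
      R ^ D * (b : ℝ) ^ (κ * ∑ i, (dig b m l (cx i)).natDegree) := by
    intro φ σ
    have hvσ : v σ ≠ 0 := by
      intro h3
      apply hPA0 σ
      unfold PA
      rw [h3, zero_mul, map_zero, zero_mul, zero_mul]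
    have hbK : (b : 𝓞 K) ≠ 0 := by
      have : b ≠ 0 := by omega
      exact_mod_cast this
    have hdA : (PA τ e b m l cx v jw σ).natDegree =
        l (jw σ) + ∑ i ∈ univ.filter (fun i => τ i = σ), e i * (dig b m l (cx i)).natDegree := by
      unfold PA
      rw [Polynomial.natDegree_mul, Polynomial.natDegree_C_mul_X_pow, Polynomial.natDegree_prod]
      · congr 1
        exact Finset.sum_congr rfl fun i _ => by rw [Polynomial.natDegree_pow]
      · exact fun i _ => pow_ne_zero _ (hP0 i)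
      · exact mul_ne_zero hvσ (pow_ne_zero _ hbK)
      · exact mul_ne_zero (Polynomial.C_ne_zero.2 (mul_ne_zero hvσ (pow_ne_zero _ hbK)))
          (pow_ne_zero _ Polynomial.X_ne_zero)
      · exact Finset.prod_ne_zero_iff.2 fun i _ => pow_ne_zero _ (hP0 i)
    have hw1 : ‖em φ (w σ)‖ ≤ R * (b : ℝ) ^ (l (jw σ)) := by
      rw [hw, map_mul, map_pow, map_natCast, norm_mul, norm_pow, Complex.norm_natCast, ← hml,
        pow_add, ← mul_assoc]
      refine mul_le_mul_of_nonneg_right ?_ (by positivity)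
      rw [hR]
      have h3 : ‖em φ (v σ)‖ ≤ B := by
        refine le_trans ?_ (hv σ)
        unfold hs em
        rw [RingHom.comp_apply]
        exact norm_embedding_le_house _ _
      have h4 : (b : ℝ) ^ (m (jw σ)) ≤ (b : ℝ) ^ f := pow_le_pow_right₀ (by linarith) (hm _)
      have h5 : ‖em φ (v σ)‖ * (b : ℝ) ^ (m (jw σ)) ≤ B * (b : ℝ) ^ f :=
        mul_le_mul h3 h4 (by positivity) (by linarith)
      have h6 : B * (b : ℝ) ^ f ≤ r * B * (b : ℝ) ^ f := by
        refine mul_le_mul_of_nonneg_right ?_ (by positivity)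
        nlinarith
      exact h5.trans h6
    have hx1 : ∀ i, ‖em φ (x i)‖ ≤ R * (b : ℝ) ^ (dig b m l (cx i)).natDegree := by
      intro i
      have h3 := hUPP K r b f m l (cx i) B hb2 hm (hcx i) φ
      rwa [hxe, ← hR] at h3
    unfold VA
    rw [map_mul, map_prod, norm_mul, norm_prod]
    have h3 : ∏ i ∈ univ.filter (fun i => τ i = σ), ‖em φ (x i ^ e i)‖ ≤
        ∏ i ∈ univ.filter (fun i => τ i = σ),
          (R ^ (e i) * (b : ℝ) ^ (e i * (dig b m l (cx i)).natDegree)) := by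
      refine Finset.prod_le_prod (fun i _ => norm_nonneg _) fun i _ => ?_
      rw [map_pow, norm_pow, mul_comm (e i), pow_mul, ← mul_pow]
      exact pow_le_pow_left₀ (norm_nonneg _) (hx1 i) _
    rw [Finset.prod_mul_distrib, Finset.prod_pow_eq_pow_sum, Finset.prod_pow_eq_pow_sum] at h3
    calc ‖em φ (w σ)‖ * ∏ i ∈ univ.filter (fun i => τ i = σ), ‖em φ (x i ^ e i)‖ ≤
        (R * (b : ℝ) ^ (l (jw σ))) * (R ^ (∑ i ∈ univ.filter (fun i => τ i = σ), e i) *
          (b : ℝ) ^ (∑ i ∈ univ.filter (fun i => τ i = σ),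
            e i * (dig b m l (cx i)).natDegree)) :=
          mul_le_mul hw1 h3 (Finset.prod_nonneg fun i _ => norm_nonneg _) (by positivity)
      _ = R ^ (∑ i ∈ univ.filter (fun i => τ i = σ), e i + 1) *
          (b : ℝ) ^ (PA τ e b m l cx v jw σ).natDegree := by
          rw [hdA, pow_succ, pow_add]
          ring
      _ ≤ _ := mul_le_mul (pow_le_pow_right₀ hRB (hD σ))
          (pow_le_pow_right₀ (by linarith) (hdeg σ)) (by positivity) (by positivity)
  -- the product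
  have : Nonempty (Fin N) := ⟨σ₀⟩
  have hprod : ∏ φ : K →+* ℂ, (⨆ σ, ‖em φ (VA τ e x w σ)‖) ≤
      (R ^ D * (b : ℝ) ^ (κ * ∑ i, (dig b m l (cx i)).natDegree)) ^ n := by
    have h3 : Fintype.card (K →+* ℂ) = n := by
      rw [hn]
      exact NumberField.Embeddings.card K ℂ
    rw [← h3, ← Finset.card_univ, ← Finset.prod_const]
    exact Finset.prod_le_prod (fun φ _ => Real.iSup_nonneg fun σ => norm_nonneg _)
      fun φ _ => ciSup_le fun σ => hone φ σ
  refine hprod.trans ?_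
  rw [← hR, ← hn, ← hκ, mul_pow, ← pow_mul, ← pow_mul]
  refine mul_le_mul_of_nonneg_left ?_ (by positivity)
  have h3 : (b : ℝ) ^ (κ * (∑ i, (dig b m l (cx i)).natDegree) * n) =
      (∏ i, (b : ℝ) ^ (n * (dig b m l (cx i)).natDegree)) ^ κ := by
    rw [Finset.prod_pow_eq_pow_sum, ← pow_mul, ← Finset.mul_sum]
    congr 1
    ring
  rw [h3]
  refine pow_le_pow_left₀ (by positivity) ?_ _
  have h4 : ∀ i, (b : ℝ) ^ (n * (dig b m l (cx i)).natDegree) ≤
      2 ^ n * |(Algebra.norm ℤ (x i) : ℝ)| := by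
    intro i
    have h5 := hLOW K r b f g m l (cx i) B hb2 hm (hcx i) (hP0 i) hgap h1
    rwa [hxe, ← hn] at h5
  refine (Finset.prod_le_prod (fun i _ => by positivity) fun i _ => h4 i).trans_eq ?_
  rw [Finset.prod_mul_distrib, Finset.prod_const, Finset.card_univ, Fintype.card_fin, ← pow_mul,
    mul_comm n p, map_prod]
  push_cast
  rw [Finset.abs_prod]

end Pool.Agent.P8H51.EA
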