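import Mathlib
import Pool.Agent.P8H51.EA.Core
import Pool.Agent.H458.Sp.FC

/-!
# Large and small bases
-/

set_option autoImplicit false

namespace Pool.Agent.P8H51.EA

open Finset NumberField Pool.Agent.H458.Sp

variable {K : Type} [Field K] [NumberField K]

theorem linK_homog {r : ℕ} (c : Fin r → 𝓞 K) : (linK c).IsHomogeneous 1 := by
  unfold linK
  refine MvPolynomial.IsHomogeneous.sum _ _ _ fun j _ => ?_
  simpa using (MvPolynomial.isHomogeneous_C (Fin r) (c j)).mul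
    (MvPolynomial.isHomogeneous_X (𝓞 K) j)

theorem linK_nrm {r : ℕ} (c : Fin r → 𝓞 K) (B : ℝ) (hc : ∀ j, hs (c j) ≤ B) :
    nrm (linK c) ≤ r * B := by
  unfold linK
  refine (nrm_sum _ _).trans ?_
  calc ∑ j : Fin r, nrm (MvPolynomial.C (c j) * MvPolynomial.X j) ≤ ∑ _j : Fin r, B := by
        refine Finset.sum_le_sum fun j _ => ?_
        have h0 : 0 ≤ hs (c j) := hs_nonneg _
        calc nrm (MvPolynomial.C (c j) * MvPolynomial.X j) ≤
              nrm (MvPolynomial.C (c j) : MvPolynomial (Fin r) (𝓞 K)) *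
                nrm (MvPolynomial.X j : MvPolynomial (Fin r) (𝓞 K)) := nrm_mul _ _
          _ ≤ hs (c j) * 1 := mul_le_mul (nrm_C _) (nrm_X _) (nrm_nonneg _) h0
          _ ≤ B := by rw [mul_one]; exact hc j
    _ = r * B := by simp

section

variable {N p r : ℕ} (τ : Fin p → Fin N) (e : Fin p → ℕ) (cx : Fin p → Fin r → 𝓞 K)
  (v : Fin N → 𝓞 K) (jw : Fin N → Fin r)

theorem GA_homog (σ : Fin N) : (GA τ e cx v jw σ).IsHomogeneous
    (0 + 1 + ∑ i ∈ univ.filter (fun i => τ i = σ), 1 * e i) := by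
  unfold GA
  exact ((MvPolynomial.isHomogeneous_C _ _).mul (MvPolynomial.isHomogeneous_X _ _)).mul
    (MvPolynomial.IsHomogeneous.prod _ _ _ fun i _ => (linK_homog _).pow _)

theorem GA_deg (D : ℕ) (hD : ∀ σ, ∑ i ∈ univ.filter (fun i => τ i = σ), e i < D) :
    ∀ α ∈ (∑ σ, GA τ e cx v jw σ).support, ∑ j, α j ≤ D := by
  classical
  intro α hα
  have h1 := MvPolynomial.support_sum hα
  rw [Finset.mem_biUnion] at h1
  obtain ⟨σ, _, h2⟩ := h1
  have h4 := GA_homog τ e cx v jw σ (MvPolynomial.mem_support_iff.1 h2)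
  rw [Finsupp.weight_apply, Finsupp.sum_fintype _ _ (by simp)] at h4
  have h5 : ∑ j, α j = 1 + ∑ i ∈ univ.filter (fun i => τ i = σ), e i := by simpa using h4
  rw [h5]
  have := hD σ
  omega

theorem GA_nrm (B : ℝ) (hB1 : 1 ≤ B) (hcx : ∀ i j, hs (cx i j) ≤ B) (hv : ∀ σ, hs (v σ) ≤ B)
    (D : ℕ) (hD : ∀ σ, ∑ i ∈ univ.filter (fun i => τ i = σ), e i < D) :
    nrm (∑ σ, GA τ e cx v jw σ) ≤ N * (r * B) ^ D := by
  classical
  refine (nrm_sum _ _).trans ?_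
  calc ∑ σ : Fin N, nrm (GA τ e cx v jw σ) ≤ ∑ _σ : Fin N, (r * B) ^ D := by
        refine Finset.sum_le_sum fun σ _ => ?_
        have hr1 : 1 ≤ r := lt_of_le_of_lt (Nat.zero_le _) (jw σ).2
        have hrR : (1 : ℝ) ≤ r := by exact_mod_cast hr1
        have hrB : B ≤ r * B := by nlinarith
        have hrB1 : 1 ≤ r * B := hB1.trans hrB
        have h1 : nrm (∏ i ∈ univ.filter (fun i => τ i = σ), linK (cx i) ^ e i) ≤
            ∏ i ∈ univ.filter (fun i => τ i = σ), ((r : ℝ) * B) ^ e i :=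
          nrm_prod _ _ _ fun i _ => nrm_pow _ _ (linK_nrm _ B (hcx i)) _
        rw [Finset.prod_pow_eq_pow_sum] at h1
        have h2 : nrm (MvPolynomial.C (v σ) * MvPolynomial.X (jw σ) :
            MvPolynomial (Fin r) (𝓞 K)) ≤ r * B := by
          calc nrm (MvPolynomial.C (v σ) * MvPolynomial.X (jw σ) :
                MvPolynomial (Fin r) (𝓞 K)) ≤
                nrm (MvPolynomial.C (v σ) : MvPolynomial (Fin r) (𝓞 K)) *
                  nrm (MvPolynomial.X (jw σ) : MvPolynomial (Fin r) (𝓞 K)) := nrm_mul _ _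
            _ ≤ hs (v σ) * 1 := mul_le_mul (nrm_C _) (nrm_X _) (nrm_nonneg _) (hs_nonneg _)
            _ ≤ r * B := by rw [mul_one]; exact (hv σ).trans hrB
        unfold GA
        calc nrm (MvPolynomial.C (v σ) * MvPolynomial.X (jw σ) *
              ∏ i ∈ univ.filter (fun i => τ i = σ), linK (cx i) ^ e i) ≤
              (r * B) * (r * B) ^ (∑ i ∈ univ.filter (fun i => τ i = σ), e i) :=
              (nrm_mul _ _).trans (mul_le_mul h2 h1 (nrm_nonneg _) (by positivity))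
          _ = (r * B) ^ (∑ i ∈ univ.filter (fun i => τ i = σ), e i + 1) := by
              rw [pow_succ, mul_comm]
          _ ≤ (r * B) ^ D := pow_le_pow_right₀ hrB1 (hD σ)
    _ = N * (r * B) ^ D := by simp

theorem GA_eval (b : ℕ) (E : Fin r → ℕ) (x : Fin p → 𝓞 K)
    (hx : ∀ i, x i = ∑ j, cx i j * (b : 𝓞 K) ^ (E j)) (w : Fin N → 𝓞 K)
    (hw : ∀ σ, w σ = v σ * (b : 𝓞 K) ^ (E (jw σ))) (σ : Fin N) :
    MvPolynomial.eval (fun j => (b : 𝓞 K) ^ (E j)) (GA τ e cx v jw σ) = VA τ e x w σ := by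
  unfold GA VA
  rw [map_mul, map_mul, map_prod, MvPolynomial.eval_C, MvPolynomial.eval_X, hw]
  congr 1
  refine Finset.prod_congr rfl fun i _ => ?_
  rw [map_pow, hx]
  congr 1
  unfold linK
  rw [map_sum]
  exact Finset.sum_congr rfl fun j _ => by
    rw [map_mul, MvPolynomial.eval_C, MvPolynomial.eval_X]

variable (hUPP : S_UPP) (hLOW : S_LOW) (hROOT : S_ROOT) (hGCDQ : S_GCDQ) (hMASN : S_MASN)

include hUPP hLOW hROOT hGCDQ hMASN

/-- **large base** -/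
theorem large {q : ℕ} (hq : 0 < q) (hN : 3 ≤ N) (b : ℕ) (E : Fin r → ℕ)
    (B : ℝ) (hB1 : 1 ≤ B) (D : ℕ) (hcx : ∀ i j, hs (cx i j) ≤ B) (hv : ∀ σ, hs (v σ) ≤ B)
    (x : Fin p → 𝓞 K) (hx : ∀ i, x i = ∑ j, cx i j * (b : 𝓞 K) ^ (E j)) (hx0 : ∀ i, x i ≠ 0)
    (w : Fin N → 𝓞 K) (hw : ∀ σ, w σ = v σ * (b : 𝓞 K) ^ (E (jw σ)))
    (hD : ∀ σ, ∑ i ∈ univ.filter (fun i => τ i = σ), e i < D)
    (hsum : ∑ σ, VA τ e x w σ = 0)
    (hsub : ∀ s : Finset (Fin N), s.Nonempty → s ≠ univ → ∑ σ ∈ s, VA τ e x w σ ≠ 0)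
    (hspan : (q : 𝓞 K) ∈ Ideal.span (Set.range (VA τ e x w)))
    (hb : N * (r * B) ^ D + 2 * (r * B) ^ (Module.finrank ℚ K) + q + 1 ≤ b) :
    ∏ φ : K →+* ℂ, (⨆ σ, ‖em φ (VA τ e x w σ)‖) ≤
      (r * B) ^ (D * Module.finrank ℚ K) *
        (2 ^ (p * Module.finrank ℚ K) * |(Algebra.norm ℤ (∏ i, x i) : ℝ)|) ^
          ((N - 1) * (N - 2) / 2 * max 1 (N - 3)) := by
  have hrB0 : (0 : ℝ) ≤ r * B := by positivity
  have hP1 : (0 : ℝ) ≤ N * (r * B) ^ D := by positivity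
  have hP2 : (0 : ℝ) ≤ (r * B) ^ (Module.finrank ℚ K) := by positivity
  have hbq : q + 1 ≤ b := by
    have : (q : ℝ) + 1 ≤ b := by linarith
    exact_mod_cast this
  have hb2 : 2 ≤ b := by omega
  have hqR : (1 : ℝ) ≤ q := by exact_mod_cast hq
  have h1 := core hUPP hLOW hROOT hGCDQ hMASN hq hN τ e b hbq E (fun _ => 0) E cx v jw B hB1 0 1 D
    (fun j => by simp) (fun _ => le_rfl) hcx hv x hx hx0 w hw hD hsub hspan
    (by
      have h2 := subK_large b hb2 E (∑ σ, GA τ e cx v jw σ)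
        (lt_of_le_of_lt (GA_nrm τ e cx v jw B hB1 hcx hv D hD) (by linarith)) (by
          rw [map_sum, ← hsum]
          exact Finset.sum_congr rfl fun σ _ => GA_eval τ e cx v jw b E x hx w hw σ)
      rw [map_sum] at h2
      rw [← h2]
      exact Finset.sum_congr rfl fun σ _ => (subK_GA _ _ _ _ _ _ _ _ _).symm)
    (fun i j hij => hij)
    (by rw [pow_zero, mul_one, pow_one]; linarith)
    (by rw [pow_zero, mul_one, pow_one]; linarith)
  rwa [pow_zero, mul_one] at h1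

/-- **small base** -/
theorem small {q : ℕ} (hq : 0 < q) (hN : 3 ≤ N) (b : ℕ) (hb : 4 * (q + 1) ≤ b) (E : Fin r → ℕ)
    (B : ℝ) (hB1 : 1 ≤ B) (D : ℕ) (hcx : ∀ i j, hs (cx i j) ≤ B) (hv : ∀ σ, hs (v σ) ≤ B)
    (x : Fin p → 𝓞 K) (hx : ∀ i, x i = ∑ j, cx i j * (b : 𝓞 K) ^ (E j)) (hx0 : ∀ i, x i ≠ 0)
    (w : Fin N → 𝓞 K) (hw : ∀ σ, w σ = v σ * (b : 𝓞 K) ^ (E (jw σ)))
    (hD : ∀ σ, ∑ i ∈ univ.filter (fun i => τ i = σ), e i < D)
    (hsum : ∑ σ, VA τ e x w σ = 0)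
    (hsub : ∀ s : Finset (Fin N), s.Nonempty → s ≠ univ → ∑ σ ∈ s, VA τ e x w σ ≠ 0)
    (hspan : (q : 𝓞 K) ∈ Ideal.span (Set.range (VA τ e x w))) :
    ∃ F : ℕ, 1 ≤ F ∧ (F : ℝ) ≤ ((b : ℝ) * (N * (r * B) ^ D + 2)) ^
        ((6 * Module.finrank ℚ K + 2) * (4 * D) ^ r) ^ (r * r + 1) ∧
    ∏ φ : K →+* ℂ, (⨆ σ, ‖em φ (VA τ e x w σ)‖) ≤
      (r * B * F) ^ (D * Module.finrank ℚ K) *
        (2 ^ (p * Module.finrank ℚ K) * |(Algebra.norm ℤ (∏ i, x i) : ℝ)|) ^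
          ((N - 1) * (N - 2) / 2 * max 1 (N - 3)) := by
  obtain ⟨n, hn⟩ : ∃ n : ℕ, n = Module.finrank ℚ K := ⟨_, rfl⟩
  have hn1 : 1 ≤ n := by
    rw [hn]
    exact Module.finrank_pos
  obtain ⟨σ₀⟩ : Nonempty (Fin N) := ⟨⟨0, by omega⟩⟩
  have hr1 : 1 ≤ r := lt_of_le_of_lt (Nat.zero_le _) (jw σ₀).2
  have hrR : (1 : ℝ) ≤ r := by exact_mod_cast hr1
  have hNR : (3 : ℝ) ≤ N := by exact_mod_cast hN
  have hrB1 : (1 : ℝ) ≤ r * B := by nlinarith
  have hD1 : 1 ≤ D := by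
    have := hD σ₀
    omega
  have hb4 : 4 ≤ b := by omega
  have hbR : (4 : ℝ) ≤ b := by exact_mod_cast hb4
  have hbqR : 4 * ((q : ℝ) + 1) ≤ b := by exact_mod_cast hb
  have hqR : (1 : ℝ) ≤ q := by exact_mod_cast hq
  obtain ⟨S, hS⟩ : ∃ S : ℕ, S = ⌊(N : ℝ) * (r * B) ^ D⌋₊ + 1 := ⟨_, rfl⟩
  have hSlt : (N : ℝ) * (r * B) ^ D < S := by
    rw [hS]
    push_cast
    exact Nat.lt_floor_add_one _
  have hSle : (S : ℝ) ≤ N * (r * B) ^ D + 2 := by
    rw [hS]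
    push_cast
    have := Nat.floor_le (by positivity : (0 : ℝ) ≤ (N : ℝ) * (r * B) ^ D)
    linarith
  have hpD : (r : ℝ) * B ≤ (r * B) ^ D := by
    calc (r : ℝ) * B = (r * B) ^ 1 := (pow_one _).symm
      _ ≤ _ := pow_le_pow_right₀ hrB1 hD1
  have hrBS : (r : ℝ) * B ≤ S := by nlinarith
  have hS2 : 2 ≤ S := by
    have : (2 : ℝ) ≤ S := by nlinarith
    exact_mod_cast this
  obtain ⟨L0, hL0def⟩ : ∃ L0 : ℕ, L0 = Nat.clog b S := ⟨_, rfl⟩
  have hL01 : 1 ≤ L0 := by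
    rw [hL0def]
    exact Nat.clog_pos (by omega) hS2
  have hSL0 : S ≤ b ^ L0 := by
    rw [hL0def]
    exact Nat.le_pow_clog (by omega) _
  have hLS : b ^ L0 ≤ b * S := by
    obtain ⟨L', hL'⟩ : ∃ L', L0 = L' + 1 := ⟨L0 - 1, by omega⟩
    have h1 : b ^ L' < S := by
      rw [← Nat.lt_clog_iff_pow_lt (by omega)]
      omega
    rw [hL', pow_succ, mul_comm]
    exact Nat.mul_le_mul_left _ h1.le
  obtain ⟨M, hM⟩ : ∃ M : ℕ, M = (6 * n + 2) * (4 * D) ^ r := ⟨_, rfl⟩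
  have hK1 : 1 ≤ (4 * D) ^ r := Nat.one_le_pow _ _ (by omega)
  have hM1 : 1 ≤ M := by
    rw [hM]
    exact Nat.mul_pos (by omega) hK1
  obtain ⟨L, hL0L, hLM, hscale⟩ := exists_scale M L0 hM1 E
  have hL1 : 1 ≤ L := hL01.trans hL0L
  have hSL : S ≤ b ^ L := hSL0.trans (Nat.pow_le_pow_right (by omega) hL0L)
  obtain ⟨m, l, hml, hm, hclus, htr⟩ := transK (K := K) b (by omega) D hD1 L hL1 E
  obtain ⟨f, hf⟩ : ∃ f : ℕ, f = 2 * (4 * D) ^ r * L := ⟨_, rfl⟩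
  have hML : M * L = 3 * n * f + f := by rw [hM, hf]; ring
  have hfL : L ≤ f := by
    rw [hf]
    nlinarith
  have hm' : ∀ j, m j ≤ f := fun j => by rw [hf]; exact hm j
  have hgap : ∀ i j, l i < l j → l i + 3 * n * f ≤ l j := by
    intro i j hij
    have h1 := hml i
    have h2 := hml j
    have h3 := hm' i
    have h4 := hm' j
    have hnc : ¬ (E i < E j + L ∧ E j < E i + L) := fun h => by
      have := hclus i j h.1 h.2
      omega
    rcases hscale i j with h5 | h5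
    · rcases hscale j i with h6 | h6
      · omega
      · rw [hML] at h6
        omega
    · rw [hML] at h5
      omega
  have hfb : (b : ℝ) ^ f ≤ (b : ℝ) ^ (M ^ (r * r + 1) * L0) := by
    refine pow_le_pow_right₀ (by linarith) ?_
    calc f ≤ M * L := by rw [hML]; omega
      _ ≤ M * (M ^ (r * r) * L0) := Nat.mul_le_mul_left _ hLM
      _ = M ^ (r * r + 1) * L0 := by ring
  have hrBf : r * B * (b : ℝ) ^ f ≤ (b : ℝ) ^ (2 * f) := by
    rw [two_mul, pow_add]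
    refine mul_le_mul_of_nonneg_right ?_ (by positivity)
    refine hrBS.trans ?_
    have h1 : (S : ℝ) ≤ (b : ℝ) ^ L := by exact_mod_cast hSL
    exact h1.trans (pow_le_pow_right₀ (by linarith) hfL)
  have hrBf0 : 0 ≤ r * B * (b : ℝ) ^ f := by positivity
  have hfn : 1 ≤ f * n := Nat.mul_pos (hL1.trans hfL) hn1
  have h1 := core hUPP hLOW hROOT hGCDQ hMASN hq hN τ e b (by omega) E m l cx v jw B hB1 f
    (3 * n * f) D hml hm' hcx hv x hx hx0 w hw hD hsub hspan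
    (by
      have h2 := htr (∑ σ, GA τ e cx v jw σ) (GA_deg τ e cx v jw D hD)
        (lt_of_le_of_lt (GA_nrm τ e cx v jw B hB1 hcx hv D hD) (hSlt.trans_le (by
          exact_mod_cast hSL))) (by
          rw [map_sum, ← hsum]
          exact Finset.sum_congr rfl fun σ _ => GA_eval τ e cx v jw b E x hx w hw σ)
      rw [map_sum] at h2
      rw [← h2]
      exact Finset.sum_congr rfl fun σ _ => (subK_GA _ _ _ _ _ _ _ _ _).symm)
    hgap
    (by
      rw [← hn]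
      calc 2 * (r * B * (b : ℝ) ^ f) ^ n ≤ (b : ℝ) ^ (f * n) * ((b : ℝ) ^ (2 * f)) ^ n := by
            refine mul_le_mul ?_ (pow_le_pow_left₀ hrBf0 hrBf _) (by positivity) (by positivity)
            calc (2 : ℝ) ≤ b := by linarith
              _ = (b : ℝ) ^ 1 := (pow_one _).symm
              _ ≤ _ := pow_le_pow_right₀ (by linarith) hfn
        _ = (b : ℝ) ^ (3 * n * f) := by
            rw [← pow_mul, ← pow_add]
            congr 1
            ring)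
    (by
      rw [← hn]
      have h3 : (b : ℝ) ^ 2 < ((b : ℝ) - q) ^ 3 := by
        have h4 : 3 / 4 * (b : ℝ) ≤ (b : ℝ) - q := by linarith
        have h5 : (3 / 4 * (b : ℝ)) ^ 3 ≤ ((b : ℝ) - q) ^ 3 :=
          pow_le_pow_left₀ (by positivity) h4 _
        have h6 : (b : ℝ) ^ 2 < (3 / 4 * (b : ℝ)) ^ 3 := by
          have h7 : (3 / 4 * (b : ℝ)) ^ 3 = 27 / 64 * b * (b : ℝ) ^ 2 := by ring
          rw [h7]
          have h8 : (0 : ℝ) < (b : ℝ) ^ 2 := by positivity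
          nlinarith
        linarith
      calc (r * B * (b : ℝ) ^ f) ^ n ≤ ((b : ℝ) ^ (2 * f)) ^ n :=
            pow_le_pow_left₀ hrBf0 hrBf _
        _ = ((b : ℝ) ^ 2) ^ (f * n) := by
            rw [← pow_mul, ← pow_mul]
            congr 1
            ring
        _ < (((b : ℝ) - q) ^ 3) ^ (f * n) := pow_lt_pow_left₀ h3 (by positivity) (by omega)
        _ = ((b : ℝ) - q) ^ (3 * n * f) := by
            rw [← pow_mul]
            congr 1
            ring)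
  refine ⟨b ^ f, Nat.one_le_pow _ _ (by omega), ?_, ?_⟩
  · push_cast
    refine hfb.trans ?_
    rw [mul_comm (M ^ (r * r + 1)) L0, pow_mul, ← hn, ← hM]
    refine pow_le_pow_left₀ (by positivity) ?_ _
    have h2 : ((b : ℝ)) ^ L0 ≤ b * S := by exact_mod_cast hLS
    exact h2.trans (mul_le_mul_of_nonneg_left hSle (by positivity))
  · push_cast
    exact h1

end

end Pool.Agent.P8H51.EA
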