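import Mathlib
import Pool.Agent.P8H51.EA.Stage

/-!
# The explicit bound
-/

set_option autoImplicit false

namespace Pool.Agent.P8H51.EA

open Finset NumberField Pool.Agent.H458.Sp

variable {K : Type} [Field K] [NumberField K]

theorem log_nat_le (m : ℕ) (hm : 1 ≤ m) : Real.log m ≤ (m : ℝ) - 1 :=
  Real.log_le_sub_one_of_pos (by exact_mod_cast hm)

theorem kappa_le (N : ℕ) : (N - 1) * (N - 2) / 2 * max 1 (N - 3) ≤ N * N * N := by
  rcases Nat.eq_zero_or_pos N with h | h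
  · subst h
    simp
  · refine Nat.mul_le_mul ?_ ?_
    · refine (Nat.div_le_self _ _).trans (Nat.mul_le_mul ?_ ?_) <;> omega
    · exact max_le h (by omega)

section

variable {N p r : ℕ} (τ : Fin p → Fin N) (e : Fin p → ℕ) (cx : Fin p → Fin r → 𝓞 K)
  (v : Fin N → 𝓞 K) (jw : Fin N → Fin r)
  (hUPP : S_UPP) (hLOW : S_LOW) (hROOT : S_ROOT) (hGCDQ : S_GCDQ) (hMASN : S_MASN)

include hUPP hLOW hROOT hGCDQ hMASN

theorem bound {q : ℕ} (hq : 0 < q) (hN : 3 ≤ N) (hNr : N ≤ r) (hpr : p ≤ r) (g : ℕ) (hg : 2 ≤ g)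
    (E : Fin r → ℕ) (M : ℝ) (hM : 1 ≤ M) (D : ℕ) (hcx : ∀ i j, hs (cx i j) ≤ M)
    (hv : ∀ σ, hs (v σ) ≤ M)
    (x : Fin p → 𝓞 K) (hx : ∀ i, x i = ∑ j, cx i j * (g : 𝓞 K) ^ (E j)) (hx0 : ∀ i, x i ≠ 0)
    (w : Fin N → 𝓞 K) (hw : ∀ σ, w σ = v σ * (g : 𝓞 K) ^ (E (jw σ)))
    (hD : ∀ σ, ∑ i ∈ univ.filter (fun i => τ i = σ), e i < D)
    (hsum : ∑ σ, VA τ e x w σ = 0)
    (hsub : ∀ s : Finset (Fin N), s.Nonempty → s ≠ univ → ∑ σ ∈ s, VA τ e x w σ ≠ 0)
    (hspan : (q : 𝓞 K) ∈ Ideal.span (Set.range (VA τ e x w))) :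
    Real.log (∏ φ : K →+* ℂ, (⨆ σ, ‖em φ (VA τ e x w σ)‖)) ≤
      ((N - 1) * (N - 2) / 2 * max 1 (N - 3) : ℕ) *
        Real.log |(Algebra.norm ℤ (∏ i, x i) : ℝ)| +
      (32 * (D * Module.finrank ℚ K * r * (1 + Real.log (q * M)))) ^ (2 * r ^ 3) := by
  obtain ⟨κ, hκ⟩ : ∃ κ : ℕ, κ = (N - 1) * (N - 2) / 2 * max 1 (N - 3) := ⟨_, rfl⟩
  obtain ⟨n, hn⟩ : ∃ n : ℕ, n = Module.finrank ℚ K := ⟨_, rfl⟩
  obtain ⟨U, hU⟩ : ∃ U : ℝ, U = 1 + Real.log (q * M) := ⟨_, rfl⟩
  obtain ⟨Y, hY⟩ : ∃ Y : ℝ, Y = D * n * r * U := ⟨_, rfl⟩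
  obtain ⟨Nx, hNx⟩ : ∃ Nx : ℝ, Nx = |(Algebra.norm ℤ (∏ i, x i) : ℝ)| := ⟨_, rfl⟩
  have hn1 : 1 ≤ n := by
    rw [hn]
    exact Module.finrank_pos
  have hD1 : 1 ≤ D := by
    have := hD ⟨0, by omega⟩
    omega
  have hr3 : 3 ≤ r := hN.trans hNr
  have hnR : (1 : ℝ) ≤ n := by exact_mod_cast hn1
  have hDR : (1 : ℝ) ≤ D := by exact_mod_cast hD1
  have hrR : (3 : ℝ) ≤ r := by exact_mod_cast hr3
  have hqR : (1 : ℝ) ≤ q := by exact_mod_cast hq
  have hNR : (3 : ℝ) ≤ N := by exact_mod_cast hN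
  have hNrR : (N : ℝ) ≤ r := by exact_mod_cast hNr
  have hqM : (1 : ℝ) ≤ q * M := one_le_mul_of_one_le_of_one_le hqR hM
  have hlog0 : 0 ≤ Real.log (q * M) := Real.log_nonneg hqM
  have hU1 : 1 ≤ U := by rw [hU]; linarith
  have hrU : (r : ℝ) ≤ r * U := le_mul_of_one_le_right (by positivity) hU1
  have hDn1 : (1 : ℝ) ≤ D * n := one_le_mul_of_one_le_of_one_le hDR hnR
  have hYeq : Y = (D * n) * (r * U) := by rw [hY]; ring
  have hrUY : r * U ≤ Y := by
    rw [hYeq]
    exact le_mul_of_one_le_left (by positivity) hDn1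
  have hrY : (r : ℝ) ≤ Y := hrU.trans hrUY
  have hY3 : 3 ≤ Y := hrR.trans hrY
  have hY1 : 1 ≤ Y := by linarith
  have hUrU : U ≤ r * U := le_mul_of_one_le_left (by linarith) (by linarith)
  have hUY : U ≤ Y := hUrU.trans hrUY
  have hDnY : (D : ℝ) * n ≤ Y := by
    rw [hYeq]
    exact le_mul_of_one_le_right (by positivity) (by linarith)
  have hDY : (D : ℝ) ≤ Y := le_trans (le_mul_of_one_le_right (by positivity) hnR) hDnY
  have hMR : (0 : ℝ) < M := by linarith
  have hqR0 : (0 : ℝ) < q := by linarith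
  have hrR0 : (0 : ℝ) < r := by linarith
  have hUsplit : U = 1 + (Real.log q + Real.log M) := by
    rw [hU, Real.log_mul (by positivity) (by positivity)]
  have hlq0 : 0 ≤ Real.log q := Real.log_nonneg hqR
  have hlM0 : 0 ≤ Real.log M := Real.log_nonneg hM
  have hrM1 : (1 : ℝ) ≤ r * M := one_le_mul_of_one_le_of_one_le (by linarith) hM
  have lrM : Real.log (r * M) ≤ r * U := by
    rw [Real.log_mul (by positivity) (by positivity)]
    have h1 := log_nat_le r (by omega)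
    have h2 : 0 ≤ ((r : ℝ) - 1) * (U - 1) := mul_nonneg (by linarith) (by linarith)
    have h3 : ((r : ℝ) - 1) * (U - 1) = r * U - r - U + 1 := by ring
    linarith
  have hlrM0 : 0 ≤ Real.log (r * M) := Real.log_nonneg hrM1
  have hYpow : ∀ a : ℕ, 0 ≤ Y ^ a := fun a => by positivity
  have hY12 : Y ≤ Y ^ 2 := le_self_pow₀ hY1 (by norm_num)
  have hY23 : Y ^ 2 ≤ Y ^ 3 := pow_le_pow_right₀ hY1 (by norm_num)
  have hY34 : Y ^ 3 ≤ Y ^ 4 := pow_le_pow_right₀ hY1 (by norm_num)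
  -- the terms do not vanish
  have hA0 : ∀ σ, VA τ e x w σ ≠ 0 := by
    intro σ
    have h3 := hsub {σ} (Finset.singleton_nonempty σ) (by
      intro h4
      have h5 := congrArg Finset.card h4
      rw [Finset.card_singleton, Finset.card_univ, Fintype.card_fin] at h5
      omega)
    rwa [Finset.sum_singleton] at h3
  have hem0 : ∀ (φ : K →+* ℂ) (y : 𝓞 K), y ≠ 0 → 0 < ‖em φ y‖ := by
    intro φ y hy
    rw [norm_pos_iff]
    intro h1
    apply hy
    unfold em at h1
    rw [RingHom.comp_apply] at h1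
    have h3 := (map_eq_zero φ).1 h1
    exact (FaithfulSMul.algebraMap_injective (𝓞 K) K) (by rw [map_zero]; exact h3)
  obtain ⟨P, hP⟩ : ∃ P : ℝ, P = ∏ φ : K →+* ℂ, (⨆ σ, ‖em φ (VA τ e x w σ)‖) := ⟨_, rfl⟩
  have hP0 : 0 < P := by
    rw [hP]
    refine Finset.prod_pos fun φ _ => ?_
    exact lt_of_lt_of_le (hem0 φ _ (hA0 ⟨0, by omega⟩))
      (le_ciSup (f := fun σ => ‖em φ (VA τ e x w σ)‖) (Set.finite_range _).bddAbove
        (⟨0, by omega⟩ : Fin N))
  have hNx1 : 1 ≤ Nx := by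
    rw [hNx]
    have h1 : Algebra.norm ℤ (∏ i, x i) ≠ 0 := by
      rw [Algebra.norm_ne_zero_iff]
      exact Finset.prod_ne_zero_iff.2 fun i _ => hx0 i
    have h2 := Int.one_le_abs h1
    exact_mod_cast h2
  have hlNx : 0 ≤ Real.log Nx := Real.log_nonneg hNx1
  have hκr : (κ : ℝ) * (p * n) ≤ Y ^ 4 := by
    have h1 : (κ : ℝ) ≤ Y ^ 3 := by
      have h2 : (κ : ℝ) ≤ N * N * N := by
        rw [hκ]
        exact_mod_cast kappa_le N
      have h3 : (N : ℝ) ≤ Y := hNrR.trans hrY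
      calc (κ : ℝ) ≤ N * N * N := h2
        _ = (N : ℝ) ^ 3 := by ring
        _ ≤ Y ^ 3 := pow_le_pow_left₀ (by positivity) h3 _
    have h2 : (p : ℝ) * n ≤ Y := by
      have h3 : (p : ℝ) ≤ r := by exact_mod_cast hpr
      calc (p : ℝ) * n ≤ r * n := mul_le_mul_of_nonneg_right h3 (by positivity)
        _ = (1 * n) * (r * 1) := by ring
        _ ≤ (D * n) * (r * U) := by
            refine mul_le_mul ?_ ?_ (by positivity) (by positivity)
            · exact mul_le_mul_of_nonneg_right hDR (by positivity)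
            · exact mul_le_mul_of_nonneg_left hU1 (by positivity)
        _ = Y := hYeq.symm
    calc (κ : ℝ) * (p * n) ≤ Y ^ 3 * Y := mul_le_mul h1 h2 (by positivity) (by positivity)
      _ = Y ^ 4 := by ring
  -- the last step
  have hlast : ∀ R : ℝ, 0 < R → (D : ℝ) * n * Real.log R ≤ 64 * Y ^ 4 * (32 * Y) ^ (r ^ 3 + r) →
      P ≤ R ^ (D * n) * (2 ^ (p * n) * Nx) ^ κ →
      Real.log P ≤ κ * Real.log Nx + (32 * Y) ^ (2 * r ^ 3) := by
    intro R hR h1 h2
    have hNx0 : 0 < Nx := by linarith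
    have h3 : Real.log P ≤ (D : ℝ) * n * Real.log R + κ * (p * n * Real.log 2 + Real.log Nx) := by
      refine (Real.log_le_log hP0 h2).trans_eq ?_
      rw [Real.log_mul (by positivity) (by positivity), Real.log_pow, Real.log_pow,
        Real.log_mul (by positivity) (by positivity), Real.log_pow]
      push_cast
      ring
    have h4 : (κ : ℝ) * (p * n * Real.log 2) ≤ Y ^ 4 := by
      have h5 : Real.log 2 ≤ 1 := by
        have := Real.log_two_lt_d9
        linarith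
      have h6 : (0 : ℝ) ≤ κ * (p * n) := by positivity
      calc (κ : ℝ) * (p * n * Real.log 2) = κ * (p * n) * Real.log 2 := by ring
        _ ≤ κ * (p * n) * 1 := mul_le_mul_of_nonneg_left h5 h6
        _ ≤ Y ^ 4 := by rw [mul_one]; exact hκr
    have hone : (1 : ℝ) ≤ (32 * Y) ^ (r ^ 3 + r) := one_le_pow₀ (by linarith)
    have h7 : 65 * Y ^ 4 * (32 * Y) ^ (r ^ 3 + r) ≤ (32 * Y) ^ (2 * r ^ 3) := by
      calc 65 * Y ^ 4 * (32 * Y) ^ (r ^ 3 + r) ≤ (32 * Y) ^ 4 * (32 * Y) ^ (r ^ 3 + r) := by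
            refine mul_le_mul_of_nonneg_right ?_ (by positivity)
            have h8 : (0 : ℝ) ≤ Y ^ 4 := by positivity
            have h9 : (32 * Y) ^ 4 = 1048576 * Y ^ 4 := by ring
            rw [h9]
            linarith
        _ = (32 * Y) ^ (4 + (r ^ 3 + r)) := (pow_add _ _ _).symm
        _ ≤ _ := by
            refine pow_le_pow_right₀ (by linarith) ?_
            have h8 : 4 + r ≤ r ^ 3 := by
              obtain ⟨s, rfl⟩ : ∃ s, r = s + 3 := ⟨r - 3, by omega⟩
              ring_nf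
              nlinarith
            omega
    have h9 : Y ^ 4 ≤ Y ^ 4 * (32 * Y) ^ (r ^ 3 + r) := le_mul_of_one_le_right (by positivity) hone
    have h10 : (κ : ℝ) * (p * n * Real.log 2 + Real.log Nx) =
      κ * (p * n * Real.log 2) + κ * Real.log Nx := mul_add _ _ _
    linarith
  have hone : (1 : ℝ) ≤ (32 * Y) ^ (r ^ 3 + r) := one_le_pow₀ (by linarith)
  rw [← hP, ← hκ, ← hNx, ← hn, ← hU, ← hY]
  rcases le_or_gt (N * (r * M) ^ D + 2 * (r * M) ^ (Module.finrank ℚ K) + q + 1) (g : ℝ)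
    with hcase | hcase
  · -- large base
    have h1 := large τ e cx v jw hUPP hLOW hROOT hGCDQ hMASN hq hN g E M hM D hcx hv x hx hx0 w hw
      hD hsum hsub hspan hcase
    rw [← hP, ← hκ, ← hNx, ← hn] at h1
    refine hlast (r * M) (by positivity) ?_ h1
    have h2 : (D : ℝ) * n * Real.log (r * M) ≤ Y := by
      rw [hYeq]
      exact mul_le_mul_of_nonneg_left lrM (by positivity)
    have h3 : (64 : ℝ) * Y ^ 4 ≤ 64 * Y ^ 4 * (32 * Y) ^ (r ^ 3 + r) :=
      le_mul_of_one_le_right (by positivity) hone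
    have h4 : (0 : ℝ) ≤ Y ^ 4 := by positivity
    linarith
  · -- small base
    rw [← hn] at hcase
    obtain ⟨SL, hSL⟩ : ∃ SL : ℝ, SL = N * (r * M) ^ D + 2 * (r * M) ^ n + q + 1 := ⟨_, rfl⟩
    rw [← hSL] at hcase
    have hSL1 : 1 ≤ SL := by
      rw [hSL]
      have : (0 : ℝ) ≤ N * (r * M) ^ D + 2 * (r * M) ^ n := by positivity
      linarith
    have hlSL : Real.log SL ≤ 5 * Y := by
      have h1 : SL ≤ (N + 4) * (q * (r * M) ^ (D + n)) := by
        rw [hSL]
        have hA : (r * M) ^ D ≤ (r * M) ^ (D + n) := pow_le_pow_right₀ hrM1 (by omega)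
        have hB : (r * M) ^ n ≤ (r * M) ^ (D + n) := pow_le_pow_right₀ hrM1 (by omega)
        have hC : (1 : ℝ) ≤ (r * M) ^ (D + n) := one_le_pow₀ hrM1
        have hE : (r * M) ^ (D + n) ≤ q * (r * M) ^ (D + n) :=
          le_mul_of_one_le_left (by positivity) hqR
        have hF : (q : ℝ) ≤ q * (r * M) ^ (D + n) := le_mul_of_one_le_right (by positivity) hC
        have hG : (N : ℝ) * (r * M) ^ D ≤ N * (q * (r * M) ^ (D + n)) :=
          mul_le_mul_of_nonneg_left (hA.trans hE) (by positivity)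
        have hH : ((N : ℝ) + 4) * (q * (r * M) ^ (D + n)) =
          N * (q * (r * M) ^ (D + n)) + 4 * (q * (r * M) ^ (D + n)) := by ring
        rw [hH]
        linarith
      refine (Real.log_le_log (by linarith) h1).trans ?_
      rw [Real.log_mul (by positivity) (by positivity),
        Real.log_mul (by positivity) (by positivity), Real.log_pow]
      have h2 : Real.log ((N : ℝ) + 4) ≤ N + 3 := by
        have := Real.log_le_sub_one_of_pos (by positivity : (0 : ℝ) < (N : ℝ) + 4)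
        linarith
      have h3 : ((D + n : ℕ) : ℝ) * Real.log (r * M) ≤ 2 * Y := by
        calc ((D + n : ℕ) : ℝ) * Real.log (r * M) ≤ (2 * (D * n)) * (r * U) := by
              refine mul_le_mul ?_ lrM hlrM0 (by positivity)
              push_cast
              have h4 : 0 ≤ ((D : ℝ) - 1) * (n - 1) := mul_nonneg (by linarith) (by linarith)
              have h5 : ((D : ℝ) - 1) * (n - 1) = D * n - D - n + 1 := by ring
              linarith
          _ = 2 * Y := by rw [hYeq]; ring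
      have h4 : Real.log q ≤ Y := by linarith
      linarith
    obtain ⟨h, hh⟩ : ∃ h : ℕ, h = Nat.clog 2 (4 * (q + 1)) := ⟨_, rfl⟩
    have hh0 : 0 < h := by
      rw [hh]
      exact Nat.clog_pos (by norm_num) (by omega)
    have hhU : (h : ℝ) ≤ 4 * U := by
      have h3 : 2 ^ (Nat.clog 2 (4 * (q + 1))).pred < 4 * (q + 1) :=
        Nat.pow_pred_clog_lt_self (by norm_num) (by omega)
      rw [← hh] at h3
      have h4 : ((2 : ℝ)) ^ h.pred ≤ 2 ^ 3 * q := by
        have h5 : 2 ^ h.pred ≤ 8 * q := by omega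
        have h6 : ((2 ^ h.pred : ℕ) : ℝ) ≤ ((8 * q : ℕ) : ℝ) := Nat.cast_le.2 h5
        push_cast at h6
        linarith
      have h5 := Real.log_le_log (by positivity) h4
      rw [Real.log_pow, Real.log_mul (by positivity) (by positivity), Real.log_pow] at h5
      have h6 : (h : ℝ) ≤ (h.pred : ℝ) + 1 := by
        have : h ≤ h.pred + 1 := by
          rw [Nat.pred_eq_sub_one]
          omega
        exact_mod_cast this
      have h7 := Real.log_two_gt_d9
      push_cast at h5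
      rcases le_or_gt (h.pred : ℝ) 3 with h8 | h8
      · linarith
      · have h9 : ((h.pred : ℝ) - 3) * (1 / 2) ≤ ((h.pred : ℝ) - 3) * Real.log 2 :=
          mul_le_mul_of_nonneg_left (by linarith) (by linarith)
        have h10 : ((h.pred : ℝ) - 3) * Real.log 2 = h.pred * Real.log 2 - 3 * Real.log 2 := by ring
        linarith
    have hgh : 4 * (q + 1) ≤ g ^ h :=
      (by rw [hh]; exact Nat.le_pow_clog (by norm_num) _ : 4 * (q + 1) ≤ 2 ^ h).trans
        (Nat.pow_le_pow_left hg h)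
    obtain ⟨B2, hB2⟩ : ∃ B2 : ℝ, B2 = M * (g : ℝ) ^ h := ⟨_, rfl⟩
    have hgR : (1 : ℝ) ≤ g := by
      have : 1 ≤ g := by omega
      exact_mod_cast this
    have hghR : (1 : ℝ) ≤ (g : ℝ) ^ h := one_le_pow₀ hgR
    have hB21 : 1 ≤ B2 := by
      rw [hB2]
      exact one_le_mul_of_one_le_of_one_le hM hghR
    have hdigit : ∀ (c : 𝓞 K) (a : ℕ), hs c ≤ M → hs (c * (g : 𝓞 K) ^ (a % h)) ≤ B2 := by
      intro c a hc
      rw [mul_comm, hs_powmul, hB2, mul_comm M]
      refine mul_le_mul ?_ hc (hs_nonneg _) (by positivity)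
      exact pow_le_pow_right₀ hgR (Nat.mod_lt _ hh0).le
    have hexp : ∀ (c : 𝓞 K) (a : ℕ), c * (g : 𝓞 K) ^ (a % h) * ((g ^ h : ℕ) : 𝓞 K) ^ (a / h) =
        c * (g : 𝓞 K) ^ a := by
      intro c a
      push_cast
      rw [← pow_mul, mul_assoc, ← pow_add, Nat.mod_add_div]
    obtain ⟨F, hF1, hF, h1⟩ := small τ e (fun i j => cx i j * (g : 𝓞 K) ^ (E j % h))
      (fun σ => v σ * (g : 𝓞 K) ^ (E (jw σ) % h)) jw hUPP hLOW hROOT hGCDQ hMASN hq hN (g ^ h) hgh
      (fun j => E j / h) B2 hB21 D (fun i j => hdigit _ _ (hcx i j)) (fun σ => hdigit _ _ (hv σ))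
      x (by
        intro i
        rw [hx]
        exact Finset.sum_congr rfl fun j _ => (hexp _ _).symm) hx0 w (by
        intro σ
        rw [hw]
        exact (hexp _ _).symm) hD hsum hsub hspan
    rw [← hP, ← hκ, ← hNx, ← hn] at h1
    rw [← hn] at hF
    have hF1R : (1 : ℝ) ≤ F := by exact_mod_cast hF1
    have hF0 : (0 : ℝ) < F := by linarith
    have hB20 : (0 : ℝ) < B2 := by linarith
    have hrB2 : (1 : ℝ) ≤ r * B2 := one_le_mul_of_one_le_of_one_le (by linarith) hB21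
    refine hlast (r * B2 * F) (by positivity) ?_ h1
    -- sizes
    have hlg : Real.log ((g : ℝ) ^ h) ≤ 20 * Y ^ 2 := by
      rw [Real.log_pow]
      have h2 : Real.log g ≤ 5 * Y := (Real.log_le_log (by linarith) hcase.le).trans hlSL
      calc (h : ℝ) * Real.log g ≤ (4 * U) * (5 * Y) :=
            mul_le_mul hhU h2 (Real.log_nonneg hgR) (by positivity)
        _ = 20 * (U * Y) := by ring
        _ ≤ 20 * (Y * Y) := mul_le_mul_of_nonneg_left
            (mul_le_mul_of_nonneg_right hUY (by linarith)) (by norm_num)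
        _ = 20 * Y ^ 2 := by ring
    have hlg0 : 0 ≤ Real.log ((g : ℝ) ^ h) := Real.log_nonneg hghR
    have hlrB2 : Real.log (r * B2) ≤ 21 * Y ^ 2 := by
      rw [hB2, ← mul_assoc, Real.log_mul (by positivity) (by positivity)]
      linarith
    have hlrB20 : 0 ≤ Real.log (r * B2) := Real.log_nonneg hrB2
    have hlNB : Real.log (N * (r * B2) ^ D + 2) ≤ 23 * Y ^ 3 := by
      have h2 : N * (r * B2) ^ D + 2 ≤ (N + 2) * (r * B2) ^ D := by
        have h3 : (1 : ℝ) ≤ (r * B2) ^ D := one_le_pow₀ hrB2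
        have h4 : ((N : ℝ) + 2) * (r * B2) ^ D = N * (r * B2) ^ D + 2 * (r * B2) ^ D := by ring
        rw [h4]
        linarith
      refine (Real.log_le_log (by positivity) h2).trans ?_
      rw [Real.log_mul (by positivity) (by positivity), Real.log_pow]
      have h3 : Real.log ((N : ℝ) + 2) ≤ N + 1 := by
        have := Real.log_le_sub_one_of_pos (by positivity : (0 : ℝ) < (N : ℝ) + 2)
        linarith
      have h4 : (D : ℝ) * Real.log (r * B2) ≤ Y * (21 * Y ^ 2) :=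
        mul_le_mul hDY hlrB2 hlrB20 (by positivity)
      have h5 : Y * (21 * Y ^ 2) = 21 * Y ^ 3 := by ring
      linarith
    obtain ⟨W, hW⟩ : ∃ W : ℕ, W = ((6 * n + 2) * (4 * D) ^ r) ^ (r * r + 1) := ⟨_, rfl⟩
    have hW1 : (1 : ℝ) ≤ W := by
      have : 1 ≤ W := by
        rw [hW]
        exact Nat.one_le_pow _ _ (Nat.mul_pos (by omega) (pow_pos (by omega) _))
      exact_mod_cast this
    have hWY : (W : ℝ) ≤ (32 * Y) ^ (r ^ 3 + r) := by
      rw [hW, show r ^ 3 + r = r * (r * r + 1) by ring, pow_mul]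
      push_cast
      refine pow_le_pow_left₀ (by positivity) ?_ _
      calc (6 * (n : ℝ) + 2) * (4 * (D : ℝ)) ^ r ≤ (8 * n) ^ r * (4 * (D : ℝ)) ^ r := by
            refine mul_le_mul_of_nonneg_right ?_ (by positivity)
            calc 6 * (n : ℝ) + 2 ≤ 8 * n := by linarith
              _ = (8 * (n : ℝ)) ^ 1 := (pow_one _).symm
              _ ≤ _ := pow_le_pow_right₀ (by linarith) (by omega)
        _ = (32 * (D * n)) ^ r := by rw [← mul_pow]; ring
        _ ≤ _ := pow_le_pow_left₀ (by positivity) (by linarith) _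
    rw [← hW] at hF
    have hlF : Real.log F ≤ 43 * Y ^ 3 * W := by
      refine (Real.log_le_log hF0 hF).trans ?_
      push_cast
      rw [Real.log_pow, Real.log_mul (by positivity) (by positivity), mul_comm]
      refine mul_le_mul_of_nonneg_right ?_ (by positivity)
      linarith
    rw [Real.log_mul (by positivity) (by positivity)]
    have h2 : Real.log (r * B2) + Real.log F ≤ 64 * Y ^ 3 * W := by
      have h3 : 21 * Y ^ 2 ≤ 21 * Y ^ 3 * W := by
        calc 21 * Y ^ 2 ≤ 21 * Y ^ 3 := by linarith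
          _ ≤ _ := le_mul_of_one_le_right (by positivity) hW1
      linarith
    calc (D : ℝ) * n * (Real.log (r * B2) + Real.log F) ≤ Y * (64 * Y ^ 3 * W) :=
          mul_le_mul hDnY h2 (add_nonneg hlrB20 (Real.log_nonneg hF1R)) (by positivity)
      _ = 64 * Y ^ 4 * W := by ring
      _ ≤ _ := mul_le_mul_of_nonneg_left hWY (by positivity)

end

end Pool.Agent.P8H51.EA
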