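import Mathlib
import Pool.Agent.P8H51.EA.Stm

/-!
# The height of a point with integral coordinates
-/

set_option autoImplicit false

namespace Pool.Agent.P8H51.EA

open Finset NumberField Pool.Agent.H458.Sp

variable {K : Type} [Field K] [NumberField K]

theorem hs_le {c : 𝓞 K} {M : ℝ} (h : ∀ φ : K →+* ℂ, ‖φ c‖ ≤ M) : hs c ≤ M := by
  have hM : 0 ≤ M := (norm_nonneg _).trans (h (Classical.arbitrary (K →+* ℂ)))
  lift M to NNReal using hM
  unfold hs
  rw [house_eq_sup', NNReal.coe_le_coe]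
  exact Finset.sup'_le _ _ fun φ _ => NNReal.coe_le_coe.1 (h φ)

theorem prod_places (f : InfinitePlace K → ℝ) :
    ∏ w : InfinitePlace K, f w ^ w.mult = ∏ φ : K →+* ℂ, f (InfinitePlace.mk φ) := by
  classical
  rw [← Finset.prod_fiberwise Finset.univ InfinitePlace.mk (fun φ => f (InfinitePlace.mk φ))]
  refine Finset.prod_congr rfl fun w _ => ?_
  have h1 : ∀ φ ∈ ({φ | InfinitePlace.mk φ = w} : Finset (K →+* ℂ)),
      f (InfinitePlace.mk φ) = f w := by
    intro φ hφ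
    rw [(Finset.mem_filter.mp hφ).2]
  rw [Finset.prod_congr rfl h1, Finset.prod_const, InfinitePlace.card_filter_mk_eq]

theorem mulHeight_le {N : ℕ} (A : Fin N → 𝓞 K) (hA : A ≠ 0) :
    Height.mulHeight (fun σ => (A σ : K)) ≤ ∏ φ : K →+* ℂ, ⨆ σ, ‖em φ (A σ)‖ := by
  have hA' : (fun σ => (A σ : K)) ≠ 0 := by
    intro h
    apply hA
    funext σ
    have h1 := congrFun h σ
    simp only [Pi.zero_apply] at h1 ⊢
    exact_mod_cast h1
  rw [NumberField.mulHeight_eq hA']
  have h1 := absNorm_mul_finprod_finitePlace_eq_one hA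
  have h2 : (1 : ℝ) ≤ (Ideal.span (Set.range A)).absNorm := by
    have h3 : (Ideal.span (Set.range A)).absNorm ≠ 0 := by
      intro h4
      rw [h4] at h1
      simp at h1
    exact_mod_cast Nat.one_le_iff_ne_zero.2 h3
  have h3 : (0 : ℝ) ≤ ∏ᶠ v : FinitePlace K, ⨆ i, v (A i : K) :=
    finprod_nonneg fun _ ↦ Real.iSup_nonneg_of_nonnegHomClass ..
  have h4 : ∏ᶠ v : FinitePlace K, ⨆ i, v (A i : K) ≤ 1 := by
    rw [← h1]
    exact le_mul_of_one_le_left h3 h2
  have h5 : ∏ v : InfinitePlace K, (⨆ i, v (A i : K)) ^ v.mult =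
      ∏ φ : K →+* ℂ, ⨆ σ, ‖em φ (A σ)‖ := by
    rw [prod_places]
    rfl
  rw [h5]
  refine mul_le_of_le_one_right ?_ h4
  exact Finset.prod_nonneg fun φ _ => Real.iSup_nonneg fun σ => norm_nonneg _

end Pool.Agent.P8H51.EA
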