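import Mathlib
import Pool.Agent.P8H51.EA.Stm

/-!
# Project EAU (row MP_2a5a28_nt): the abc inequality over `ℚ(√5)` for numbers with few digits to the base golden ratio

Statements of the packages. `θ` is a unit of the number field `K` (a power of the golden ratio), `n = [K : ℚ]`. All packages
need Mathlib only (and `em`, `hs` from the project EA).
-/

set_option autoImplicit false

namespace Pool.Agent.P8H51.EA

open NumberField Pool.Agent.H458.Sp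

/-- the sum of the absolute values of the coefficients is at most `R` at each embedding, and there are gaps of length `g`
between the exponents -/
def Gappy {K : Type} [Field K] (R : ℝ) (g : ℕ) (Q : Polynomial (𝓞 K)) : Prop :=
  (∀ φ : K →+* ℂ, ∑ w ∈ Q.support, ‖em φ (Q.coeff w)‖ ≤ R) ∧
    ∀ w ∈ Q.support, ∀ w' ∈ Q.support, w < w' → w + g ≤ w'

/-- `θ` has absolute value `t` or `1 / t` at each embedding -/
def Hyp {K : Type} [Field K] (θ : 𝓞 K) (t : ℝ) : Prop :=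
  ∀ φ : K →+* ℂ, ‖em φ θ‖ = t ∨ ‖em φ θ‖ = t⁻¹

/-- **Package UPT** (20 lines). Upper bound for the value: `‖Q (θ)‖ ≤ ∑ ‖coeff w‖ ‖θ‖ ^ w`, `w ≤ deg Q`. -/
def S_UPT : Prop :=
  ∀ (K : Type) [Field K] (θ : 𝓞 K) (Q : Polynomial (𝓞 K)) (R : ℝ) (φ : K →+* ℂ),
    ∑ w ∈ Q.support, ‖em φ (Q.coeff w)‖ ≤ R →
    ‖em φ (Q.eval θ)‖ ≤ R * max 1 ‖em φ θ‖ ^ Q.natDegree

/-- **Package LOT** (100 lines). Lower bound for the norm. Let `a` be the leading coefficient, `c` the constant coefficient,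
`W` the degree. Where `‖φ θ‖ = t`: `‖φ (Q (θ))‖ ≥ ‖φ a‖ t ^ W - R t ^ (W - g) ≥ ‖φ a‖ t ^ W / 2`; where `‖φ θ‖ = 1 / t`:
`‖φ (Q (θ))‖ ≥ ‖φ c‖ - R t ^ (-g) ≥ ‖φ c‖ / 2`. Here `‖φ a‖, ‖φ c‖ ≥ R ^ (1 - n)`, as the norm of `a`, `c` is a nonzero integer
and all `‖ψ a‖`, `‖ψ c‖` are at most `R` (so `R ≥ 1`). Multiply over all `φ`. -/
def S_LOT : Prop :=
  ∀ (K : Type) [Field K] [NumberField K] (θ : 𝓞 K) (t : ℝ) (Q : Polynomial (𝓞 K)) (R : ℝ) (g : ℕ), 1 < t →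
    Hyp θ t → Gappy R g Q → Q.coeff 0 ≠ 0 → 2 * R ^ (Module.finrank ℚ K) ≤ t ^ g →
    (∏ φ : K →+* ℂ, max 1 ‖em φ θ‖) ^ Q.natDegree ≤
      2 ^ (Module.finrank ℚ K) * R ^ (Module.finrank ℚ K * Module.finrank ℚ K) *
        |(Algebra.norm ℤ (Q.eval θ) : ℝ)|

/-- **Package ROT** (100 lines). The zeros are close to the unit circle. If `‖ρ‖ ≥ τ`:
`‖φ a‖ ‖ρ‖ ^ W ≤ R ‖ρ‖ ^ (W - g)`, so `‖φ a‖ τ ^ g ≤ R`, but `‖φ a‖ ≥ R ^ (1 - n)`. If `‖ρ‖ ≤ 1 / τ`: the same with the lowest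
coefficient. (If `Q` is a monomial there is no zero `ρ ≠ 0`.) -/
def S_ROT : Prop :=
  ∀ (K : Type) [Field K] [NumberField K] (Q : Polynomial (𝓞 K)) (R τ : ℝ) (g : ℕ), Q ≠ 0 → Gappy R g Q →
    1 ≤ τ → R ^ (Module.finrank ℚ K) < τ ^ g →
    ∀ (φ : K →+* ℂ) (ρ : ℂ), ρ ≠ 0 → Q.eval₂ (em φ) ρ = 0 → τ⁻¹ < ‖ρ‖ ∧ ‖ρ‖ < τ

/-- **Package GCT** (150 lines; variant of GCDK). Let `ρ ≠ 0` be a common zero under `φ`, `L = K (ρ)` (via `φ`), `d = [L : K]`.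
As in GCDK, `1 / (θ - ρ)` is an algebraic integer, so `∏_ψ |ψ θ - ψ ρ| ≤ 1` over all `ψ : L → ℂ`. Each embedding of `K` has `d`
extensions `ψ` to `L`, and `ψ ρ` is a zero of the image of `A σ₀` under the restriction of `ψ`, so the product is at
least `(∏ δ) ^ d > 1`. (Or with the minimal polynomial `G` of `ρ` over `K`: `1 / G (θ)` is the norm from `L` to `K` of
`1 / (θ - ρ)`, hence in the ring of integers, and all zeros of the image of `G` under an embedding are zeros of the image of `A σ₀`.) -/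
def S_GCT : Prop :=
  ∀ (K : Type) [Field K] [NumberField K] (N : ℕ) (A : Fin N → Polynomial (𝓞 K)) (c : Fin N → 𝓞 K) (θ : 𝓞 K)
    (σ₀ : Fin N) (δ : (K →+* ℂ) → ℝ), (∀ φ, 0 < δ φ) → 1 < ∏ φ, δ φ → ∑ σ, c σ * (A σ).eval θ = 1 →
    (∀ (φ : K →+* ℂ) (ρ : ℂ), ρ ≠ 0 → (A σ₀).eval₂ (em φ) ρ = 0 → δ φ ≤ ‖em φ θ - ρ‖) →
    ∀ (φ : K →+* ℂ) (ρ : ℂ), ρ ≠ 0 → ¬ ∀ σ, (A σ).eval₂ (em φ) ρ = 0

/-- **Package CUT** (80 lines). Model: `cut` in `Pool/Agent/H458/Sp/Cluster.lean`. Let `y = ∑_{high} θ ^ (e i - (E + L)) g i`, so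
that the low sum is `- θ ^ (E + L) y`; if it is nonzero then `|N y| ≥ 1` and the norm of the low sum is at least
`∏ ‖φ θ‖ ^ (E + L)`. Where `‖φ θ‖ = t`, the low sum is at most `S t ^ E = S ‖φ θ‖ ^ (E + L) t ^ (-L)`; where `‖φ θ‖ = 1 / t` it is
`‖φ θ‖ ^ (E + L) ‖φ y‖ ≤ ‖φ θ‖ ^ (E + L) S`. There is an embedding of the first kind, since the norm of `θ ≠ 0` is an integer. So
`1 ≤ S ^ n t ^ (-L)`. -/
def S_CUT : Prop :=
  ∀ (K : Type) [Field K] [NumberField K] (ι : Type) [DecidableEq ι] (θ : 𝓞 K) (t : ℝ) (L : ℕ), 1 < t → Hyp θ t →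
    ∀ (low high : Finset ι) (g : ι → 𝓞 K) (e : ι → ℕ), Disjoint low high →
    (∑ i ∈ low ∪ high, hs (g i)) ^ (Module.finrank ℚ K) < t ^ L → ∀ E : ℕ,
    (∀ i ∈ low, e i ≤ E) → (∀ i ∈ high, E + L ≤ e i) →
    ∑ i ∈ low, θ ^ (e i) * g i + ∑ i ∈ high, θ ^ (e i) * g i = 0 →
    ∑ i ∈ low, θ ^ (e i) * g i = 0

end Pool.Agent.P8H51.EA
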