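import Mathlib
import Pool.Agent.P8H51.EA.TransT
import Pool.Agent.P8H51.EA.CoreT
import Pool.Agent.P8H51.EA.Stage

/-!
# Digits to a unit base; the golden ratio
-/

set_option autoImplicit false

namespace Pool.Agent.P8H51.EA

open Finset NumberField Pool.Agent.H458.Sp

variable {K : Type} [Field K]

/-- the polynomial of the number `∑ c j θ ^ (m j + l j)` -/
noncomputable def digT {r : ℕ} (θ : 𝓞 K) (m l : Fin r → ℕ) (c : Fin r → 𝓞 K) :
    Polynomial (𝓞 K) :=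
  ∑ j, Polynomial.C (c j * θ ^ (m j)) * Polynomial.X ^ (l j)

theorem coeff_digT {r : ℕ} (θ : 𝓞 K) (m l : Fin r → ℕ) (c : Fin r → 𝓞 K) (w : ℕ) :
    (digT θ m l c).coeff w = ∑ j ∈ univ.filter (fun j => w = l j), c j * θ ^ (m j) := by
  unfold digT
  rw [Polynomial.finsetSum_coeff]
  simp_rw [Polynomial.coeff_C_mul_X_pow]
  rw [← Finset.sum_filter]

theorem exists_digT {r : ℕ} (θ : 𝓞 K) (m l : Fin r → ℕ) (c : Fin r → 𝓞 K) (w : ℕ)
    (hw : (digT θ m l c).coeff w ≠ 0) : ∃ j, l j = w := by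
  by_contra hno
  push Not at hno
  apply hw
  rw [coeff_digT, Finset.filter_false_of_mem (fun j _ => (hno j).symm), Finset.sum_empty]

theorem eval_digT {r : ℕ} (θ : 𝓞 K) (m l : Fin r → ℕ) (c : Fin r → 𝓞 K) :
    (digT θ m l c).eval θ = ∑ j, c j * θ ^ (m j + l j) := by
  unfold digT
  rw [Polynomial.eval_finsetSum]
  refine Finset.sum_congr rfl fun j _ => ?_
  rw [Polynomial.eval_mul, Polynomial.eval_C, Polynomial.eval_pow, Polynomial.eval_X, pow_add,
    mul_assoc]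

theorem subT_C {r : ℕ} (θ : 𝓞 K) (m l : Fin r → ℕ) (c : 𝓞 K) :
    subT θ m l (MvPolynomial.C c) = Polynomial.C c := by
  unfold subT
  rw [MvPolynomial.aeval_C]
  rfl

theorem subT_X {r : ℕ} (θ : 𝓞 K) (m l : Fin r → ℕ) (j : Fin r) :
    subT θ m l (MvPolynomial.X j : MvPolynomial (Fin r) (𝓞 K)) =
      Polynomial.C (θ ^ (m j)) * Polynomial.X ^ (l j) := by
  unfold subT
  rw [MvPolynomial.aeval_X]

theorem subT_linK {r : ℕ} (θ : 𝓞 K) (m l : Fin r → ℕ) (c : Fin r → 𝓞 K) :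
    subT θ m l (linK c) = digT θ m l c := by
  unfold linK digT
  rw [map_sum]
  refine Finset.sum_congr rfl fun j _ => ?_
  rw [map_mul, subT_C, subT_X, Polynomial.C_mul, mul_assoc]

/-- the polynomial of a term -/
noncomputable def PT {N p r : ℕ} (τ : Fin p → Fin N) (e : Fin p → ℕ) (θ : 𝓞 K) (m l : Fin r → ℕ)
    (cx : Fin p → Fin r → 𝓞 K) (v : Fin N → 𝓞 K) (jw : Fin N → Fin r) (σ : Fin N) :
    Polynomial (𝓞 K) :=
  Polynomial.C (v σ * θ ^ (m (jw σ))) * Polynomial.X ^ (l (jw σ)) *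
    ∏ i ∈ univ.filter (fun i => τ i = σ), digT θ m l (cx i) ^ e i

theorem subT_GA {N p r : ℕ} (τ : Fin p → Fin N) (e : Fin p → ℕ) (θ : 𝓞 K) (m l : Fin r → ℕ)
    (cx : Fin p → Fin r → 𝓞 K) (v : Fin N → 𝓞 K) (jw : Fin N → Fin r) (σ : Fin N) :
    subT θ m l (GA τ e cx v jw σ) = PT τ e θ m l cx v jw σ := by
  unfold GA PT
  rw [map_mul, map_mul, map_prod, subT_C, subT_X, Polynomial.C_mul,
    mul_assoc (Polynomial.C (v σ)) (Polynomial.C _) (Polynomial.X ^ _)]
  congr 1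
  refine Finset.prod_congr rfl fun i _ => ?_
  rw [map_pow, subT_linK]

theorem eval_PT {N p r : ℕ} (τ : Fin p → Fin N) (e : Fin p → ℕ) (θ : 𝓞 K) (E m l : Fin r → ℕ)
    (cx : Fin p → Fin r → 𝓞 K) (v : Fin N → 𝓞 K) (jw : Fin N → Fin r)
    (hml : ∀ j, m j + l j = E j) (x : Fin p → 𝓞 K)
    (hx : ∀ i, x i = ∑ j, cx i j * θ ^ (E j)) (w : Fin N → 𝓞 K)
    (hw : ∀ σ, w σ = v σ * θ ^ (E (jw σ))) (σ : Fin N) :
    (PT τ e θ m l cx v jw σ).eval θ = VA τ e x w σ := by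
  unfold PT VA
  rw [Polynomial.eval_mul, Polynomial.eval_mul, Polynomial.eval_C, Polynomial.eval_pow,
    Polynomial.eval_X, Polynomial.eval_prod, hw, ← hml, pow_add, ← mul_assoc]
  congr 1
  refine Finset.prod_congr rfl fun i _ => ?_
  rw [Polynomial.eval_pow, eval_digT, hx]
  simp only [hml]

theorem GA_evalT {N p r : ℕ} (τ : Fin p → Fin N) (e : Fin p → ℕ) (cx : Fin p → Fin r → 𝓞 K)
    (v : Fin N → 𝓞 K) (jw : Fin N → Fin r) (θ : 𝓞 K) (E : Fin r → ℕ) (x : Fin p → 𝓞 K)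
    (hx : ∀ i, x i = ∑ j, cx i j * θ ^ (E j)) (w : Fin N → 𝓞 K)
    (hw : ∀ σ, w σ = v σ * θ ^ (E (jw σ))) (σ : Fin N) :
    MvPolynomial.eval (fun j => θ ^ (E j)) (GA τ e cx v jw σ) = VA τ e x w σ := by
  unfold GA VA
  rw [map_mul, map_mul, map_prod, MvPolynomial.eval_C, MvPolynomial.eval_X, hw]
  congr 1
  refine Finset.prod_congr rfl fun i _ => ?_
  rw [map_pow, hx]
  congr 1
  unfold linK
  rw [map_sum]
  exact Finset.sum_congr rfl fun j _ => by
    rw [map_mul, MvPolynomial.eval_C, MvPolynomial.eval_X]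

variable [NumberField K]

theorem hyp_le {θ : 𝓞 K} {t : ℝ} (ht : 1 < t) (hθ : Hyp θ t) (φ : K →+* ℂ) (a f : ℕ) (h : a ≤ f) :
    ‖em φ θ‖ ^ a ≤ t ^ f := by
  have h1 : ‖em φ θ‖ ≤ t := by
    rcases hθ φ with h1 | h1
    · exact h1.le
    · rw [h1]
      exact (inv_le_one_of_one_le₀ ht.le).trans ht.le
  exact (pow_le_pow_left₀ (norm_nonneg _) h1 _).trans (pow_le_pow_right₀ ht.le h)

theorem gappy_digT {r : ℕ} (θ : 𝓞 K) (t : ℝ) (ht : 1 < t) (hθ : Hyp θ t) (f g : ℕ)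
    (m l : Fin r → ℕ) (c : Fin r → 𝓞 K) (B : ℝ) (hm : ∀ j, m j ≤ f) (hc : ∀ j, hs (c j) ≤ B)
    (hgap : ∀ i j, l i < l j → l i + g ≤ l j) : Gappy (r * B * t ^ f) g (digT θ m l c) := by
  have ht0 : (0 : ℝ) < t := by linarith
  constructor
  · intro φ
    have hB : ∀ _j : Fin r, 0 ≤ B := fun j => (hs_nonneg (c j)).trans (hc j)
    calc ∑ w ∈ (digT θ m l c).support, ‖em φ ((digT θ m l c).coeff w)‖ ≤
        ∑ w ∈ (digT θ m l c).support, ∑ j ∈ univ.filter (fun j => w = l j), B * t ^ f := by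
          refine Finset.sum_le_sum fun w _ => ?_
          rw [coeff_digT, map_sum]
          refine (norm_sum_le _ _).trans (Finset.sum_le_sum fun j _ => ?_)
          rw [map_mul, map_pow, norm_mul, norm_pow]
          exact mul_le_mul ((norm_embedding_le_house _ φ).trans (hc j))
            (hyp_le ht hθ φ _ _ (hm j)) (by positivity) (hB j)
      _ = ∑ w ∈ (digT θ m l c).support, ∑ j : Fin r, if w = l j then B * t ^ f else 0 := by
          refine Finset.sum_congr rfl fun w _ => ?_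
          rw [Finset.sum_filter]
      _ = ∑ j : Fin r, ∑ w ∈ (digT θ m l c).support, if w = l j then B * t ^ f else 0 :=
          Finset.sum_comm
      _ ≤ ∑ _j : Fin r, B * t ^ f := by
          refine Finset.sum_le_sum fun j _ => ?_
          rw [Finset.sum_ite_eq']
          have := hB j
          split_ifs
          · exact le_rfl
          · positivity
      _ = r * B * t ^ f := by
          rw [Finset.sum_const, Finset.card_univ, Fintype.card_fin, nsmul_eq_mul, mul_assoc]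
  · intro w hw w' hw' hlt
    rw [Polynomial.mem_support_iff] at hw hw'
    obtain ⟨i, rfl⟩ := exists_digT θ m l c w hw
    obtain ⟨j, rfl⟩ := exists_digT θ m l c w' hw'
    exact hgap i j hlt

/-- the absolute values of the golden ratio -/
theorem golden_norm {u : 𝓞 K} (hu : u ^ 2 = u + 1) : Hyp u Real.goldenRatio := by
  intro φ
  obtain ⟨z, hz⟩ : ∃ z : ℂ, z = em φ u := ⟨_, rfl⟩
  have h1 : z ^ 2 = z + 1 := by
    rw [hz, ← map_pow, hu, map_add, map_one]
  have h2 : (z - (Real.goldenRatio : ℂ)) * (z - (Real.goldenConj : ℂ)) = 0 := by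
    have h3 : (Real.goldenRatio : ℂ) + (Real.goldenConj : ℂ) = 1 := by
      exact_mod_cast Real.goldenRatio_add_goldenConj
    have h4 : (Real.goldenRatio : ℂ) * (Real.goldenConj : ℂ) = -1 := by
      exact_mod_cast Real.goldenRatio_mul_goldenConj
    linear_combination h1 - z * h3 + h4
  rw [← hz]
  rcases mul_eq_zero.1 h2 with h3 | h3
  · left
    rw [sub_eq_zero.1 h3, Complex.norm_real, Real.norm_eq_abs, abs_of_pos Real.goldenRatio_pos]
  · right
    rw [sub_eq_zero.1 h3, Complex.norm_real, Real.norm_eq_abs, abs_of_neg Real.goldenConj_neg,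
      Real.inv_goldenRatio]

theorem hyp_pow {θ : 𝓞 K} {t : ℝ} (hθ : Hyp θ t) (k : ℕ) : Hyp (θ ^ k) (t ^ k) := by
  intro φ
  rw [map_pow, norm_pow]
  rcases hθ φ with h | h
  · exact Or.inl (by rw [h])
  · exact Or.inr (by rw [h, inv_pow])

theorem golden_unit {u : 𝓞 K} (hu : u ^ 2 = u + 1) : IsUnit u := by
  refine IsUnit.of_mul_eq_one (u - 1) ?_
  linear_combination hu

/-- the condition on the product over the embeddings -/
theorem golden_delta {u : 𝓞 K} (hu : u ^ 2 = u + 1) :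
    1 < ∏ φ : K →+* ℂ, (if ‖em φ (u ^ 6)‖ = Real.goldenRatio ^ 6 then Real.goldenRatio ^ 6 - 2
      else (2 : ℝ)⁻¹ - (Real.goldenRatio ^ 6)⁻¹) := by
  have hg1 := Real.one_lt_goldenRatio
  have hg2 := Real.goldenRatio_sq
  obtain ⟨y, hy⟩ : ∃ y : ℝ, y = Real.goldenRatio ^ 3 := ⟨_, rfl⟩
  have hy3 : y = 2 * Real.goldenRatio + 1 := by
    rw [hy, pow_succ, hg2]
    linear_combination hg2
  have hy0 : 3 < y := by linarith
  have hy6 : Real.goldenRatio ^ 6 = y ^ 2 := by rw [hy]; ring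
  have hypos : (0 : ℝ) < y := by linarith
  have h1 : ∀ φ : K →+* ℂ, 11 / 10 * ‖em φ u‖ ^ 3 ≤
      (if ‖em φ (u ^ 6)‖ = Real.goldenRatio ^ 6 then Real.goldenRatio ^ 6 - 2
        else (2 : ℝ)⁻¹ - (Real.goldenRatio ^ 6)⁻¹) := by
    intro φ
    rw [map_pow, norm_pow]
    rcases golden_norm hu φ with h | h
    · rw [h, if_pos rfl, hy6, ← hy]
      nlinarith
    · have h3 : ¬ (Real.goldenRatio⁻¹ ^ 6 = Real.goldenRatio ^ 6) := by
        rw [inv_pow, hy6]
        intro h4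
        have h5 : (y ^ 2)⁻¹ < 1 := inv_lt_one_of_one_lt₀ (by nlinarith)
        have h6 : 1 < y ^ 2 := by nlinarith
        linarith
      rw [h, if_neg h3, hy6, inv_pow, ← hy]
      have h4 : (2 : ℝ)⁻¹ - (y ^ 2)⁻¹ - 11 / 10 * y⁻¹ = (y ^ 2 / 2 - 1 - 11 / 10 * y) / y ^ 2 := by
        field_simp
      have h5 : 0 ≤ (y ^ 2 / 2 - 1 - 11 / 10 * y) / y ^ 2 :=
        div_nonneg (by nlinarith) (by positivity)
      linarith
  have h2 : ∏ φ : K →+* ℂ, (11 / 10 * ‖em φ u‖ ^ 3) = (11 / 10 : ℝ) ^ Fintype.card (K →+* ℂ) := by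
    rw [Finset.prod_mul_distrib, Finset.prod_const, Finset.card_univ, Finset.prod_pow,
      unit_prod (golden_unit hu), one_pow, mul_one]
  have h3 : (1 : ℝ) < (11 / 10) ^ Fintype.card (K →+* ℂ) := by
    refine one_lt_pow₀ (by norm_num) ?_
    rw [NumberField.Embeddings.card K ℂ]
    exact (Module.finrank_pos).ne'
  rw [← h2] at h3
  exact h3.trans_le (Finset.prod_le_prod (fun φ _ => by positivity) fun φ _ => h1 φ)

end Pool.Agent.P8H51.EA
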