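import Mathlib
import Pool.Agent.P8H51.EA.DigT
import Pool.Agent.P8H51.EA.Bound
import Pool.Agent.P8H71.EA.Unit
import Pool.Agent.P8H71.EA.Gct

/-!
# The golden base: stage and bound
-/

set_option autoImplicit false

namespace Pool.Agent.P8H51.EA

open Finset NumberField Pool.Agent.H458.Sp

variable {K : Type} [Field K] [NumberField K]

/-- the stage: `θ` is the sixth power of the golden ratio -/
theorem stageT (hMASN : S_MASN) {N p r : ℕ} (τ : Fin p → Fin N) (e : Fin p → ℕ)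
    (cx : Fin p → Fin r → 𝓞 K) (v : Fin N → 𝓞 K) (jw : Fin N → Fin r) (hN : 3 ≤ N)
    {u : 𝓞 K} (hu : u ^ 2 = u + 1) (E : Fin r → ℕ)
    (B : ℝ) (hB1 : 1 ≤ B) (D : ℕ) (hcx : ∀ i j, hs (cx i j) ≤ B) (hv : ∀ σ, hs (v σ) ≤ B)
    (x : Fin p → 𝓞 K) (hx : ∀ i, x i = ∑ j, cx i j * (u ^ 6) ^ (E j)) (hx0 : ∀ i, x i ≠ 0)
    (w : Fin N → 𝓞 K) (hw : ∀ σ, w σ = v σ * (u ^ 6) ^ (E (jw σ)))
    (hD : ∀ σ, ∑ i ∈ univ.filter (fun i => τ i = σ), e i < D)
    (hsum : ∑ σ, VA τ e x w σ = 0)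
    (hsub : ∀ s : Finset (Fin N), s.Nonempty → s ≠ univ → ∑ σ ∈ s, VA τ e x w σ ≠ 0)
    (hspan : Ideal.span (Set.range (VA τ e x w)) = ⊤) :
    ∃ F : ℝ, 1 ≤ F ∧ F ≤ (4 * (N * (r * B) ^ D) ^ (Module.finrank ℚ K)) ^
        (5 * ((22 * Module.finrank ℚ K + 2) * (4 * D) ^ r) ^ (r * r + 1)) ∧
    ∏ φ : K →+* ℂ, (⨆ σ, ‖em φ (VA τ e x w σ)‖) ≤
      (r * B * F) ^ (D * Module.finrank ℚ K) *
        ((2 ^ (Module.finrank ℚ K) *
          (r * B * F) ^ (Module.finrank ℚ K * Module.finrank ℚ K)) ^ p *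
          |(Algebra.norm ℤ (∏ i, x i) : ℝ)|) ^
          ((N - 1) * (N - 2) / 2 * max 1 (N - 3)) := by
  classical
  obtain ⟨n, hn⟩ : ∃ n : ℕ, n = Module.finrank ℚ K := ⟨_, rfl⟩
  have hn1 : 1 ≤ n := by
    rw [hn]
    exact Module.finrank_pos
  obtain ⟨t, ht⟩ : ∃ t : ℝ, t = Real.goldenRatio ^ 6 := ⟨_, rfl⟩
  have hg1 := Real.one_lt_goldenRatio
  have hg2 := Real.goldenRatio_lt_two
  have hy3 : Real.goldenRatio ^ 3 = 2 * Real.goldenRatio + 1 := by
    linear_combination (Real.goldenRatio + 1) * Real.goldenRatio_sq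
  have hty : t = (2 * Real.goldenRatio + 1) ^ 2 := by
    rw [ht, ← hy3]
    ring
  have ht9 : 9 ≤ t := by
    rw [hty]
    nlinarith
  have ht32 : t ≤ 32 := by
    rw [hty]
    nlinarith
  have ht1 : 1 < t := by linarith
  have ht0 : 0 < t := by linarith
  have hθ : Hyp (u ^ 6) t := by
    rw [ht]
    exact hyp_pow (golden_norm hu) 6
  obtain ⟨σ₀⟩ : Nonempty (Fin N) := ⟨⟨0, by omega⟩⟩
  have hr1 : 1 ≤ r := lt_of_le_of_lt (Nat.zero_le _) (jw σ₀).2
  have hrR : (1 : ℝ) ≤ r := by exact_mod_cast hr1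
  have hNR : (3 : ℝ) ≤ N := by exact_mod_cast hN
  have hrB1 : (1 : ℝ) ≤ r * B := one_le_mul_of_one_le_of_one_le hrR hB1
  have hD1 : 1 ≤ D := by
    have := hD σ₀
    omega
  obtain ⟨S, hS⟩ : ∃ S : ℝ, S = N * (r * B) ^ D := ⟨_, rfl⟩
  have hpD : (r : ℝ) * B ≤ (r * B) ^ D := le_self_pow₀ hrB1 (by omega)
  have hrBS : (r : ℝ) * B ≤ S := by
    rw [hS]
    have h1 : (0 : ℝ) ≤ (r * B) ^ D := by positivity
    nlinarith
  have hS1 : 1 ≤ S := hrB1.trans hrBS
  have hSn1 : 1 ≤ S ^ n := one_le_pow₀ hS1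
  obtain ⟨S', hS'⟩ : ∃ S' : ℕ, S' = ⌊S ^ n⌋₊ + 1 := ⟨_, rfl⟩
  have hSlt : S ^ n < S' := by
    rw [hS']
    push_cast
    exact Nat.lt_floor_add_one _
  have hSle : (S' : ℝ) ≤ 2 * S ^ n := by
    rw [hS']
    push_cast
    have := Nat.floor_le (by positivity : (0 : ℝ) ≤ S ^ n)
    linarith
  have hS'2 : 2 ≤ S' := by
    have h1 : 0 < ⌊S ^ n⌋₊ := Nat.floor_pos.2 hSn1
    omega
  obtain ⟨L0, hL0def⟩ : ∃ L0 : ℕ, L0 = Nat.clog 2 S' := ⟨_, rfl⟩
  have hL01 : 1 ≤ L0 := by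
    rw [hL0def]
    exact Nat.clog_pos (by norm_num) hS'2
  have hSL0 : S' ≤ 2 ^ L0 := by
    rw [hL0def]
    exact Nat.le_pow_clog (by norm_num) _
  have hLS : 2 ^ L0 ≤ 2 * S' := by
    obtain ⟨L', hL'⟩ : ∃ L', L0 = L' + 1 := ⟨L0 - 1, by omega⟩
    have h1 : 2 ^ L' < S' := by
      rw [← Nat.lt_clog_iff_pow_lt (by norm_num)]
      omega
    rw [hL', pow_succ, mul_comm]
    exact Nat.mul_le_mul_left _ h1.le
  obtain ⟨M, hM⟩ : ∃ M : ℕ, M = (22 * n + 2) * (4 * D) ^ r := ⟨_, rfl⟩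
  have hK1 : 1 ≤ (4 * D) ^ r := Nat.one_le_pow _ _ (by omega)
  have hM1 : 1 ≤ M := by
    rw [hM]
    exact Nat.mul_pos (by omega) hK1
  obtain ⟨L, hL0L, hLM, hscale⟩ := exists_scale M L0 hM1 E
  have hL1 : 1 ≤ L := hL01.trans hL0L
  have hSL : S ^ n < t ^ L := by
    refine hSlt.trans_le ?_
    have h1 : (S' : ℝ) ≤ 2 ^ L0 := by exact_mod_cast hSL0
    calc (S' : ℝ) ≤ 2 ^ L0 := h1
      _ ≤ 2 ^ L := pow_le_pow_right₀ (by norm_num) hL0L
      _ ≤ t ^ L := pow_le_pow_left₀ (by norm_num) (by linarith) _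
  obtain ⟨m, l, hml, hm, hclus, htr⟩ := transT Pool.Agent.P8H71.EA.cut (u ^ 6) t ht1 hθ D hD1 L
    hL1 E
  obtain ⟨f, hf⟩ : ∃ f : ℕ, f = 2 * (4 * D) ^ r * L := ⟨_, rfl⟩
  have hML : M * L = 11 * n * f + f := by rw [hM, hf]; ring
  have hfL : L ≤ f := by
    rw [hf]
    nlinarith
  have hm' : ∀ j, m j ≤ f := fun j => by rw [hf]; exact hm j
  have hgap : ∀ i j, l i < l j → l i + 11 * n * f ≤ l j := by
    intro i j hij
    have h1 := hml i
    have h2 := hml j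
    have h3 := hm' i
    have h4 := hm' j
    have hnc : ¬ (E i < E j + L ∧ E j < E i + L) := fun h => by
      have := hclus i j h.1 h.2
      omega
    rcases hscale i j with h5 | h5
    · rcases hscale j i with h6 | h6
      · omega
      · rw [hML] at h6
        omega
    · rw [hML] at h5
      omega
  have htf1 : (1 : ℝ) ≤ t ^ f := one_le_pow₀ ht1.le
  have hrBf : r * B * t ^ f ≤ t ^ (2 * f) := by
    rw [two_mul, pow_add]
    refine mul_le_mul_of_nonneg_right ?_ (by positivity)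
    calc (r : ℝ) * B ≤ S := hrBS
      _ ≤ S ^ n := le_self_pow₀ hS1 (by omega)
      _ ≤ t ^ L := hSL.le
      _ ≤ t ^ f := pow_le_pow_right₀ ht1.le hfL
  have hR1 : 1 ≤ r * B * t ^ f := one_le_mul_of_one_le_of_one_le hrB1 htf1
  have hRn : (r * B * t ^ f) ^ n ≤ t ^ (2 * (f * n)) := by
    calc (r * B * t ^ f) ^ n ≤ (t ^ (2 * f)) ^ n := pow_le_pow_left₀ (by positivity) hrBf _
      _ = t ^ (2 * (f * n)) := by
        rw [← pow_mul]
        congr 1
        ring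
  have hfn : 1 ≤ f * n := Nat.mul_pos (hL1.trans hfL) hn1
  have hlt := hSL
  have h1 := coreT Pool.Agent.P8H71.EA.upt Pool.Agent.P8H71.EA.lot Pool.Agent.P8H71.EA.rot
    Pool.Agent.P8H71.EA.gct hMASN hN τ e (u ^ 6) t ht1 hθ ((golden_unit hu).pow 6)
    (r * B * t ^ f) hR1 (11 * n * f) D (fun i => digT (u ^ 6) m l (cx i))
    (fun i => gappy_digT (u ^ 6) t ht1 hθ f (11 * n * f) m l (cx i) B hm' (hcx i) hgap)
    (by
      intro i h3
      apply hx0 i
      have h4 := eval_digT (u ^ 6) m l (cx i)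
      simp only [hml] at h4
      rw [hx, ← h4, h3, Polynomial.eval_zero])
    (fun σ => v σ * (u ^ 6) ^ (m (jw σ))) (fun σ => l (jw σ))
    (by
      intro σ φ
      rw [map_mul, map_pow, norm_mul, norm_pow]
      have h3 : ‖em φ (v σ)‖ ≤ B := (norm_embedding_le_house _ φ).trans (hv σ)
      calc ‖em φ (v σ)‖ * ‖em φ (u ^ 6)‖ ^ (m (jw σ)) ≤ B * t ^ f :=
            mul_le_mul h3 (hyp_le ht1 hθ φ _ _ (hm' _)) (by positivity) (by linarith)
        _ ≤ r * B * t ^ f := by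
            refine mul_le_mul_of_nonneg_right ?_ (by positivity)
            exact le_mul_of_one_le_left (by linarith) hrR)
    (PT τ e (u ^ 6) m l cx v jw) (fun σ => rfl) hD
    (by
      have h2 := htr (∑ σ, GA τ e cx v jw σ) (GA_deg τ e cx v jw D hD)
        (lt_of_le_of_lt (pow_le_pow_left₀ (nrm_nonneg _)
          (GA_nrm τ e cx v jw B hB1 hcx hv D hD) _) (by rw [← hS, ← hn]; exact hSL)) (by
          rw [map_sum, ← hsum]
          exact Finset.sum_congr rfl fun σ _ => GA_evalT τ e cx v jw (u ^ 6) E x hx w hw σ)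
      rw [map_sum] at h2
      rw [← h2]
      exact Finset.sum_congr rfl fun σ _ => (subT_GA _ _ _ _ _ _ _ _ _).symm)
    (by
      intro s hs1 hs2 h3
      apply hsub s hs1 hs2
      rw [← h3]
      exact Finset.sum_congr rfl fun σ _ =>
        (eval_PT τ e (u ^ 6) E m l cx v jw hml x hx w hw σ).symm)
    (by
      rw [← hspan]
      congr 1
      congr 1
      funext σ
      exact eval_PT τ e (u ^ 6) E m l cx v jw hml x hx w hw σ)
    (by
      rw [← hn]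
      calc 2 * (r * B * t ^ f) ^ n ≤ t ^ (9 * (f * n)) * t ^ (2 * (f * n)) := by
            refine mul_le_mul ?_ hRn (by positivity) (by positivity)
            calc (2 : ℝ) ≤ t := by linarith
              _ ≤ t ^ (9 * (f * n)) := le_self_pow₀ ht1.le (by omega)
        _ = t ^ (11 * n * f) := by
            rw [← pow_add]
            congr 1
            ring)
    2 (by norm_num)
    (by
      rw [← hn]
      calc (r * B * t ^ f) ^ n ≤ t ^ (2 * (f * n)) := hRn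
        _ ≤ ((2 : ℝ) ^ 5) ^ (2 * (f * n)) :=
            pow_le_pow_left₀ ht0.le (by linarith) _
        _ = 2 ^ (10 * (f * n)) := by
            rw [← pow_mul]
            congr 1
            ring
        _ < 2 ^ (11 * n * f) := by
            refine pow_lt_pow_right₀ (by norm_num) ?_
            have h3 : 11 * n * f = 10 * (f * n) + f * n := by ring
            omega)
    (by linarith)
    (by
      have h3 : t⁻¹ ≤ 9⁻¹ := inv_anti₀ (by norm_num) ht9
      have h4 : (9 : ℝ)⁻¹ < 2⁻¹ := by norm_num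
      linarith)
    (by
      rw [ht]
      exact golden_delta hu)
  refine ⟨t ^ f, htf1, ?_, ?_⟩
  · rw [← hS, ← hn, ← hM]
    have h2 : (2 : ℝ) ^ L0 ≤ 2 * S' := by exact_mod_cast hLS
    calc t ^ f ≤ ((2 : ℝ) ^ 5) ^ f := pow_le_pow_left₀ ht0.le (by linarith) _
      _ = 2 ^ (5 * f) := by rw [← pow_mul]
      _ ≤ 2 ^ (L0 * (5 * M ^ (r * r + 1))) := by
          refine pow_le_pow_right₀ (by norm_num) ?_
          have h3 : f ≤ M * L := by rw [hML]; omega
          have h4 : M * L ≤ M * (M ^ (r * r) * L0) := Nat.mul_le_mul_left _ hLM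
          have h5 : L0 * (5 * M ^ (r * r + 1)) = 5 * (M * (M ^ (r * r) * L0)) := by ring
          omega
      _ = (2 ^ L0) ^ (5 * M ^ (r * r + 1)) := by rw [pow_mul]
      _ ≤ (4 * S ^ n) ^ (5 * M ^ (r * r + 1)) :=
          pow_le_pow_left₀ (by positivity) (by linarith) _
  · have h2 : ∀ σ, VA τ e x w σ = (PT τ e (u ^ 6) m l cx v jw σ).eval (u ^ 6) := fun σ =>
      (eval_PT τ e (u ^ 6) E m l cx v jw hml x hx w hw σ).symm
    have h3 : ∀ i, (digT (u ^ 6) m l (cx i)).eval (u ^ 6) = x i := by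
      intro i
      rw [eval_digT, hx]
      simp only [hml]
    simp only [h2]
    simp only [h3] at h1
    exact h1

end Pool.Agent.P8H51.EA
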