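import Mathlib
import Pool.Agent.P8H51.EA.Stm3

/-!
# Project EU: unit bases, the condition on the greatest common divisor in general form
-/

set_option autoImplicit false

namespace Pool.Agent.P8H51.EA

open NumberField Pool.Agent.H458.Sp

/-- **Package GCTQ**: `S_GCT` (which is the case `q = 1`) for terms whose greatest common divisor divides the integer `q`. Same proof with
`z = q / (θ - ρ)` in place of `1 / (θ - ρ)`: with `F (X) = ∑ c σ A σ (θ - X) = q + a_1 X + ... + a_d X ^ d` and `s = θ - ρ` a zero of its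
image one has `z ^ d + a_1 z ^ (d-1) + a_2 q z ^ (d-2) + ... + a_d q ^ (d-1) = 0` for `z = q / s` (see `Pool/Agent/P8H71/EA/Gcdq.lean`), so `z` is an
algebraic integer and `∏_ψ |ψ θ - ψ ρ| ≤ q ^ [L : ℚ]`. -/
def S_GCTQ : Prop :=
  ∀ (K : Type) [Field K] [NumberField K] (N : ℕ) (A : Fin N → Polynomial (𝓞 K)) (c : Fin N → 𝓞 K) (θ : 𝓞 K) (q : ℕ)
    (σ₀ : Fin N) (δ : (K →+* ℂ) → ℝ), 0 < q → (∀ φ, 0 < δ φ) → (q : ℝ) ^ (Module.finrank ℚ K) < ∏ φ, δ φ →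
    ∑ σ, c σ * (A σ).eval θ = (q : 𝓞 K) →
    (∀ (φ : K →+* ℂ) (ρ : ℂ), ρ ≠ 0 → (A σ₀).eval₂ (em φ) ρ = 0 → δ φ ≤ ‖em φ θ - ρ‖) →
    ∀ (φ : K →+* ℂ) (ρ : ℂ), ρ ≠ 0 → ¬ ∀ σ, (A σ).eval₂ (em φ) ρ = 0

end Pool.Agent.P8H51.EA
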