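import Mathlib
import Pool.Agent.P8H51.EA.CoreT
import Pool.Agent.P8H51.EA.Stm5

/-!
# The core for unit bases, with a bound for the greatest common divisor
-/

set_option autoImplicit false

namespace Pool.Agent.P8H51.EA

open Finset NumberField Pool.Agent.H458.Sp

variable {K : Type} [Field K] [NumberField K]

/-- the core: the polynomials `P i` have gaps, the terms are `a σ X ^ (L σ) ∏ P i ^ e i` -/
theorem coreU (hUPT : S_UPT) (hLOT : S_LOT) (hROT : S_ROT) (hGCT : S_GCTQ) (hMASN : S_MASN)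
    {N p : ℕ} (hN : 3 ≤ N) (τ : Fin p → Fin N) (e : Fin p → ℕ) (θ : 𝓞 K) (t : ℝ) (ht : 1 < t)
    (hθ : Hyp θ t) (hu : IsUnit θ) (R : ℝ) (hR : 1 ≤ R) (g D : ℕ)
    (P : Fin p → Polynomial (𝓞 K)) (hP : ∀ i, Gappy R g (P i)) (hP0 : ∀ i, P i ≠ 0)
    (a : Fin N → 𝓞 K) (L : Fin N → ℕ) (ha : ∀ σ (φ : K →+* ℂ), ‖em φ (a σ)‖ ≤ R)
    (A : Fin N → Polynomial (𝓞 K))
    (hA : ∀ σ, A σ = Polynomial.C (a σ) * Polynomial.X ^ (L σ) *
      ∏ i ∈ univ.filter (fun i => τ i = σ), P i ^ e i)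
    (hD : ∀ σ, ∑ i ∈ univ.filter (fun i => τ i = σ), e i < D)
    (hsum : ∑ σ, A σ = 0)
    (hsub : ∀ s : Finset (Fin N), s.Nonempty → s ≠ univ → ∑ σ ∈ s, (A σ).eval θ ≠ 0)
    (q : ℕ) (hq : 0 < q) (hspan : (q : 𝓞 K) ∈ Ideal.span (Set.range fun σ => (A σ).eval θ))
    (h1 : 2 * R ^ (Module.finrank ℚ K) ≤ t ^ g) (τ₀ : ℝ) (hτ₀ : 1 ≤ τ₀)
    (h2 : R ^ (Module.finrank ℚ K) < τ₀ ^ g) (hδ1 : 0 < t - τ₀) (hδ2 : 0 < τ₀⁻¹ - t⁻¹)
    (hδ : (q : ℝ) ^ (Module.finrank ℚ K) < ∏ φ : K →+* ℂ, (if ‖em φ θ‖ = t then t - τ₀ else τ₀⁻¹ - t⁻¹)) :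
    ∏ φ : K →+* ℂ, (⨆ σ, ‖em φ ((A σ).eval θ)‖) ≤
      R ^ (D * Module.finrank ℚ K) *
        ((2 ^ (Module.finrank ℚ K) * R ^ (Module.finrank ℚ K * Module.finrank ℚ K)) ^ p *
          |(Algebra.norm ℤ (∏ i, (P i).eval θ) : ℝ)|) ^
          ((N - 1) * (N - 2) / 2 * max 1 (N - 3)) := by
  classical
  obtain ⟨κ, hκ⟩ : ∃ κ : ℕ, κ = (N - 1) * (N - 2) / 2 * max 1 (N - 3) := ⟨_, rfl⟩
  obtain ⟨n, hn⟩ : ∃ n : ℕ, n = Module.finrank ℚ K := ⟨_, rfl⟩
  obtain ⟨σ₀⟩ : Nonempty (Fin N) := ⟨⟨0, by omega⟩⟩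
  have hne : Nonempty (Fin N) := ⟨σ₀⟩
  have ht0 : (0 : ℝ) < t := by linarith
  have hR0 : (0 : ℝ) < R := by linarith
  have hθ0 : θ ≠ 0 := hu.ne_zero
  -- the factors
  choose w Q hQ hQ0 using fun i => split_X (P i) (hP0 i)
  have hQne : ∀ i, Q i ≠ 0 := fun i h => hQ0 i (by rw [h, Polynomial.coeff_zero])
  have hQg : ∀ i, Gappy R g (Q i) := fun i => gappy_shift (w := w i) (by rw [← hQ]; exact hP i)
  -- the exponents of the terms
  obtain ⟨L', hL'⟩ : ∃ L' : Fin N → ℕ, L' = fun σ =>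
      L σ + ∑ i ∈ univ.filter (fun i => τ i = σ), w i * e i := ⟨_, rfl⟩
  have hA' : ∀ σ, A σ = Polynomial.C (a σ) * Polynomial.X ^ (L' σ) *
      ∏ i ∈ univ.filter (fun i => τ i = σ), Q i ^ e i := by
    intro σ
    have h3 : ∏ i ∈ univ.filter (fun i => τ i = σ), P i ^ e i =
        Polynomial.X ^ (∑ i ∈ univ.filter (fun i => τ i = σ), w i * e i) *
          ∏ i ∈ univ.filter (fun i => τ i = σ), Q i ^ e i := by
      rw [← Finset.prod_pow_eq_pow_sum, ← Finset.prod_mul_distrib]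
      refine Finset.prod_congr rfl fun i _ => ?_
      conv_lhs => rw [hQ i]
      rw [mul_pow, ← pow_mul]
    rw [hA, h3, hL']
    simp only
    rw [pow_add]
    ring
  obtain ⟨σ₁, -, hσ₁⟩ := Finset.exists_min_image univ L' ⟨σ₀, Finset.mem_univ _⟩
  obtain ⟨j, hj⟩ : ∃ j, j = L' σ₁ := ⟨_, rfl⟩
  rw [← hj] at hσ₁
  obtain ⟨F, hF⟩ : ∃ F : Fin N → Polynomial (𝓞 K), F = fun σ =>
      Polynomial.C (a σ) * Polynomial.X ^ (L' σ - j) *
        ∏ i ∈ univ.filter (fun i => τ i = σ), Q i ^ e i := ⟨_, rfl⟩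
  have hAF : ∀ σ, A σ = Polynomial.X ^ j * F σ := by
    intro σ
    rw [hA', hF]
    simp only
    have h3 : L' σ = j + (L' σ - j) := by
      have := hσ₁ σ (Finset.mem_univ _)
      omega
    conv_lhs => rw [h3, pow_add]
    ring
  have hAFe : ∀ σ, (A σ).eval θ = θ ^ j * (F σ).eval θ := by
    intro σ
    rw [hAF, Polynomial.eval_mul, Polynomial.eval_pow, Polynomial.eval_X]
  -- nonvanishing
  have hVA0 : ∀ σ, (A σ).eval θ ≠ 0 := by
    intro σ
    have h3 := hsub {σ} (Finset.singleton_nonempty σ) (by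
      intro h4
      have h5 := congrArg Finset.card h4
      rw [Finset.card_singleton, Finset.card_univ, Fintype.card_fin] at h5
      omega)
    rwa [Finset.sum_singleton] at h3
  have hVF0 : ∀ σ, (F σ).eval θ ≠ 0 := by
    intro σ h3
    apply hVA0 σ
    rw [hAFe, h3, mul_zero]
  have hF0 : ∀ σ, F σ ≠ 0 := by
    intro σ h3
    apply hVF0 σ
    rw [h3, Polynomial.eval_zero]
  have ha0 : ∀ σ, a σ ≠ 0 := by
    intro σ h3
    apply hF0 σ
    rw [hF]
    simp only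
    rw [h3, map_zero, zero_mul, zero_mul]
  have hFsum : ∑ σ, F σ = 0 := by
    have h3 : Polynomial.X ^ j * ∑ σ, F σ = 0 := by
      rw [Finset.mul_sum, ← hsum]
      exact Finset.sum_congr rfl fun σ _ => (hAF σ).symm
    exact (mul_eq_zero.1 h3).resolve_left (pow_ne_zero _ Polynomial.X_ne_zero)
  have hFsub : ∀ s : Finset (Fin N), s.Nonempty → s ≠ univ → ∑ σ ∈ s, (F σ).eval θ ≠ 0 := by
    intro s hs1 hs2 h3
    apply hsub s hs1 hs2
    simp only [hAFe]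
    rw [← Finset.mul_sum, h3, mul_zero]
  -- the unit ideal
  obtain ⟨cc, hcc⟩ : ∃ cc : Fin N → 𝓞 K, ∑ σ, cc σ * (F σ).eval θ = (q : 𝓞 K) := by
    have h3 := hspan
    rw [Ideal.mem_span_range_iff_exists_fun] at h3
    obtain ⟨cc, hcc⟩ := h3
    refine ⟨fun σ => cc σ * θ ^ j, ?_⟩
    rw [← hcc]
    exact Finset.sum_congr rfl fun σ _ => by rw [hAFe, mul_assoc]
  -- roots
  have hroots : ∀ (φ : K →+* ℂ) σ (ρ : ℂ), (F σ).eval₂ (em φ) ρ = 0 →
      ρ = 0 ∨ ∃ i, (Q i).eval₂ (em φ) ρ = 0 := by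
    intro φ σ ρ h3
    rw [hF] at h3
    simp only at h3
    rw [Polynomial.eval₂_mul, Polynomial.eval₂_mul, Polynomial.eval₂_C, Polynomial.eval₂_X_pow,
      Polynomial.eval₂_finsetProd, mul_eq_zero, mul_eq_zero] at h3
    rcases h3 with (h3 | h3) | h3
    · exact absurd (em_ne h3) (ha0 σ)
    · refine Or.inl ((pow_eq_zero_iff ?_).1 h3)
      intro h6
      rw [h6, pow_zero] at h3
      exact one_ne_zero h3
    · right
      rw [Finset.prod_eq_zero_iff] at h3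
      obtain ⟨i, _, h4⟩ := h3
      rw [Polynomial.eval₂_pow] at h4
      refine ⟨i, (pow_eq_zero_iff ?_).1 h4⟩
      intro h6
      rw [h6, pow_zero] at h4
      exact one_ne_zero h4
  have hnc := hGCT K N F cc θ q σ₀ (fun φ => if ‖em φ θ‖ = t then t - τ₀ else τ₀⁻¹ - t⁻¹)
    hq (fun φ => by
      split_ifs
      · exact hδ1
      · exact hδ2) hδ hcc (by
    intro φ ρ hρ h3
    rcases hroots φ σ₀ ρ h3 with h4 | ⟨i, h4⟩
    · exact absurd h4 hρ
    · obtain ⟨h5, h6⟩ := hROT K (Q i) R τ₀ g (hQne i) (hQg i) hτ₀ h2 φ ρ hρ h4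
      split_ifs with h7
      · have h8 := norm_sub_norm_le (em φ θ) ρ
        rw [h7] at h8
        linarith
      · have h9 : ‖em φ θ‖ = t⁻¹ := (hθ φ).resolve_left h7
        have h8 := norm_sub_norm_le ρ (em φ θ)
        rw [h9, norm_sub_rev] at h8
        linarith)
  have hQ00 : ∀ (φ : K →+* ℂ) i, (Q i).eval₂ (em φ) 0 ≠ 0 := by
    intro φ i h3
    rw [Polynomial.eval₂_at_zero] at h3
    exact hQ0 i (em_ne h3)
  have hnc' : ∀ (φ : K →+* ℂ) (ρ : ℂ), ∃ σ, (F σ).eval₂ (em φ) ρ ≠ 0 := by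
    intro φ ρ
    by_cases hρ : ρ = 0
    · refine ⟨σ₁, ?_⟩
      rw [hρ, hF]
      simp only
      rw [← hj, Nat.sub_self, pow_zero, mul_one, Polynomial.eval₂_mul, Polynomial.eval₂_C,
        Polynomial.eval₂_finsetProd]
      refine mul_ne_zero (fun h3 => ha0 σ₁ (em_ne h3)) (Finset.prod_ne_zero_iff.2 fun i _ => ?_)
      rw [Polynomial.eval₂_pow]
      exact pow_ne_zero _ (hQ00 φ i)
    · by_contra h4
      push Not at h4
      exact hnc φ ρ hρ h4
  -- Mason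
  obtain ⟨φ₀⟩ : Nonempty (K →+* ℂ) := inferInstance
  have hdeg : ∀ σ, (F σ).natDegree ≤ κ * ∑ i, (Q i).natDegree := by
    have h3 := hMASN N p (fun σ => (F σ).map (em φ₀)) (fun i => (Q i).map (em φ₀)) hN (fun σ => by
        rw [Ne, Polynomial.map_eq_zero_iff (em_inj φ₀)]
        exact hF0 σ) (fun i => by
        rw [Ne, Polynomial.map_eq_zero_iff (em_inj φ₀)]
        exact hQne i) (by rw [← Polynomial.map_sum, hFsum, Polynomial.map_zero]) (by
        intro s hs1 hs2 h4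
        apply hFsub s hs1 hs2
        rw [← Polynomial.map_sum, Polynomial.map_eq_zero_iff (em_inj φ₀)] at h4
        have h5 := congrArg (Polynomial.eval θ) h4
        rw [Polynomial.eval_finsetSum, Polynomial.eval_zero] at h5
        exact h5) (by
        intro σ ρ h4
        rw [Polynomial.eval_map] at h4
        rcases hroots φ₀ σ ρ h4 with h5 | ⟨i, h5⟩
        · exact Or.inl h5
        · exact Or.inr ⟨i, by rw [Polynomial.eval_map]; exact h5⟩) (by
        intro ρ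
        obtain ⟨σ, h4⟩ := hnc' φ₀ ρ
        exact ⟨σ, by rw [Polynomial.eval_map]; exact h4⟩)
    intro σ
    have h4 := h3 σ
    simp only [Polynomial.natDegree_map_eq_of_injective (em_inj φ₀)] at h4
    rw [hκ]
    exact h4
  -- the bound at one embedding
  obtain ⟨Δ, hΔ⟩ : ∃ Δ : ℕ, Δ = ∑ i, (Q i).natDegree := ⟨_, rfl⟩
  have hone : ∀ (φ : K →+* ℂ) σ, ‖em φ ((F σ).eval θ)‖ ≤ R ^ D * (max 1 ‖em φ θ‖) ^ (κ * Δ) := by
    intro φ σ
    obtain ⟨u, hu'⟩ : ∃ u : ℝ, u = max 1 ‖em φ θ‖ := ⟨_, rfl⟩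
    have hu1 : 1 ≤ u := by
      rw [hu']
      exact le_max_left _ _
    have hθu : ‖em φ θ‖ ≤ u := by
      rw [hu']
      exact le_max_right _ _
    have hdA : (F σ).natDegree =
        (L' σ - j) + ∑ i ∈ univ.filter (fun i => τ i = σ), e i * (Q i).natDegree := by
      rw [hF]
      simp only
      rw [Polynomial.natDegree_mul, Polynomial.natDegree_C_mul_X_pow, Polynomial.natDegree_prod]
      · congr 1
        exact Finset.sum_congr rfl fun i _ => by rw [Polynomial.natDegree_pow]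
      · exact fun i _ => pow_ne_zero _ (hQne i)
      · exact ha0 σ
      · exact mul_ne_zero (Polynomial.C_ne_zero.2 (ha0 σ)) (pow_ne_zero _ Polynomial.X_ne_zero)
      · exact Finset.prod_ne_zero_iff.2 fun i _ => pow_ne_zero _ (hQne i)
    have hev : (F σ).eval θ = a σ * θ ^ (L' σ - j) *
        ∏ i ∈ univ.filter (fun i => τ i = σ), (Q i).eval θ ^ e i := by
      rw [hF]
      simp only
      rw [Polynomial.eval_mul, Polynomial.eval_mul, Polynomial.eval_C, Polynomial.eval_pow,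
        Polynomial.eval_X, Polynomial.eval_prod]
      simp only [Polynomial.eval_pow]
    have hw1 : ‖em φ (a σ * θ ^ (L' σ - j))‖ ≤ R * u ^ (L' σ - j) := by
      rw [map_mul, map_pow, norm_mul, norm_pow]
      exact mul_le_mul (ha σ φ) (pow_le_pow_left₀ (norm_nonneg _) hθu _) (by positivity)
        (by positivity)
    have hx1 : ∀ i, ‖em φ ((Q i).eval θ)‖ ≤ R * u ^ (Q i).natDegree := by
      intro i
      rw [hu']
      exact hUPT K θ (Q i) R φ ((hQg i).1 φ)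
    have h3 : ∏ i ∈ univ.filter (fun i => τ i = σ), ‖em φ ((Q i).eval θ ^ e i)‖ ≤
        ∏ i ∈ univ.filter (fun i => τ i = σ), (R ^ (e i) * u ^ (e i * (Q i).natDegree)) := by
      refine Finset.prod_le_prod (fun i _ => norm_nonneg _) fun i _ => ?_
      rw [map_pow, norm_pow, mul_comm (e i), pow_mul, ← mul_pow]
      exact pow_le_pow_left₀ (norm_nonneg _) (hx1 i) _
    rw [Finset.prod_mul_distrib, Finset.prod_pow_eq_pow_sum, Finset.prod_pow_eq_pow_sum] at h3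
    rw [hev, map_mul, map_prod, norm_mul, norm_prod, ← hu']
    calc ‖em φ (a σ * θ ^ (L' σ - j))‖ *
          ∏ i ∈ univ.filter (fun i => τ i = σ), ‖em φ ((Q i).eval θ ^ e i)‖ ≤
        (R * u ^ (L' σ - j)) * (R ^ (∑ i ∈ univ.filter (fun i => τ i = σ), e i) *
          u ^ (∑ i ∈ univ.filter (fun i => τ i = σ), e i * (Q i).natDegree)) :=
          mul_le_mul hw1 h3 (Finset.prod_nonneg fun i _ => norm_nonneg _) (by positivity)
      _ = R ^ (∑ i ∈ univ.filter (fun i => τ i = σ), e i + 1) * u ^ (F σ).natDegree := by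
          rw [hdA, pow_succ, pow_add]
          ring
      _ ≤ _ := mul_le_mul (pow_le_pow_right₀ hR (hD σ))
          (pow_le_pow_right₀ hu1 (by rw [hΔ]; exact hdeg σ)) (by positivity) (by positivity)
  -- the product
  obtain ⟨Pi, hPi⟩ : ∃ Pi : ℝ, Pi = ∏ φ : K →+* ℂ, max 1 ‖em φ θ‖ := ⟨_, rfl⟩
  have hPi0 : 0 ≤ Pi := by
    rw [hPi]
    exact Finset.prod_nonneg fun φ _ => le_trans zero_le_one (le_max_left _ _)
  have hcard : Fintype.card (K →+* ℂ) = n := by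
    rw [hn]
    exact NumberField.Embeddings.card K ℂ
  have hprodA : ∏ φ : K →+* ℂ, (⨆ σ, ‖em φ ((A σ).eval θ)‖) =
      ∏ φ : K →+* ℂ, (⨆ σ, ‖em φ ((F σ).eval θ)‖) := by
    have h3 : ∀ φ : K →+* ℂ, (⨆ σ, ‖em φ ((A σ).eval θ)‖) =
        ‖em φ θ‖ ^ j * (⨆ σ, ‖em φ ((F σ).eval θ)‖) := by
      intro φ
      rw [Real.mul_iSup_of_nonneg (by positivity)]
      congr 1
      funext σ
      rw [hAFe, map_mul, map_pow, norm_mul, norm_pow]
    simp only [h3]
    rw [Finset.prod_mul_distrib, Finset.prod_pow, unit_prod hu, one_pow, one_mul]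
  have hprod : ∏ φ : K →+* ℂ, (⨆ σ, ‖em φ ((F σ).eval θ)‖) ≤ R ^ (D * n) * Pi ^ (κ * Δ) := by
    have h3 : ∏ φ : K →+* ℂ, (R ^ D * (max 1 ‖em φ θ‖) ^ (κ * Δ)) = R ^ (D * n) * Pi ^ (κ * Δ) := by
      rw [Finset.prod_mul_distrib, Finset.prod_const, Finset.card_univ, hcard, ← pow_mul,
        Finset.prod_pow, hPi]
    rw [← h3]
    exact Finset.prod_le_prod (fun φ _ => Real.iSup_nonneg fun σ => norm_nonneg _)
      fun φ _ => ciSup_le fun σ => hone φ σ
  rw [hprodA, ← hκ, ← hn]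
  refine hprod.trans (mul_le_mul_of_nonneg_left ?_ (by positivity))
  rw [mul_comm κ Δ, pow_mul]
  refine pow_le_pow_left₀ (by positivity) ?_ _
  have h4 : ∀ i, Pi ^ (Q i).natDegree ≤
      2 ^ n * R ^ (n * n) * |(Algebra.norm ℤ ((P i).eval θ) : ℝ)| := by
    intro i
    have h5 := hLOT K θ t (Q i) R g ht hθ (hQg i) (hQ0 i) h1
    rw [← hPi, ← hn] at h5
    have h6 : |(Algebra.norm ℤ ((P i).eval θ) : ℝ)| = |(Algebra.norm ℤ ((Q i).eval θ) : ℝ)| := by
      rw [Pool.Agent.P8H71.EA.absnorm_prod, Pool.Agent.P8H71.EA.absnorm_prod]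
      have h7 : ∀ φ : K →+* ℂ, ‖em φ ((P i).eval θ)‖ =
          ‖em φ θ‖ ^ (w i) * ‖em φ ((Q i).eval θ)‖ := by
        intro φ
        conv_lhs => rw [hQ i]
        rw [Polynomial.eval_mul, Polynomial.eval_pow, Polynomial.eval_X, map_mul, map_pow,
          norm_mul, norm_pow]
      simp only [h7]
      rw [Finset.prod_mul_distrib, Finset.prod_pow, unit_prod hu, one_pow, one_mul]
    rw [h6]
    exact h5
  rw [hΔ, ← Finset.prod_pow_eq_pow_sum]
  refine (Finset.prod_le_prod (fun i _ => by positivity) fun i _ => h4 i).trans_eq ?_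
  rw [Finset.prod_mul_distrib, Finset.prod_const, Finset.card_univ, Fintype.card_fin, map_prod]
  push_cast
  rw [Finset.abs_prod]

end Pool.Agent.P8H51.EA
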