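import Mathlib
import Pool.Agent.P8H51.EA.DigT
import Pool.Agent.P8H51.EA.Bound
import Pool.Agent.P8H51.EA.CoreU
import Pool.Agent.P8H71.EA.Unit

/-!
# Unit bases: the stage
-/

set_option autoImplicit false

namespace Pool.Agent.P8H51.EA

open Finset NumberField Pool.Agent.H458.Sp

variable {K : Type} [Field K] [NumberField K]

/-- the condition on the product over the embeddings -/
theorem delta_lt {θ : 𝓞 K} {t : ℝ} (hu : IsUnit θ) (hθ : Hyp θ t) (y c τ₀ q : ℝ) (hy : y ^ 2 = t)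
    (hy0 : 0 < y) (hq : 0 ≤ q) (hqc : q < c) (h1 : c * y ≤ t - τ₀) (h2 : c * y⁻¹ ≤ τ₀⁻¹ - t⁻¹) :
    q ^ (Module.finrank ℚ K) <
      ∏ φ : K →+* ℂ, (if ‖em φ θ‖ = t then t - τ₀ else τ₀⁻¹ - t⁻¹) := by
  classical
  have hc : 0 < c := lt_of_le_of_lt hq hqc
  obtain ⟨z, hz⟩ : ∃ z : (K →+* ℂ) → ℝ, ∀ φ, z φ = if ‖em φ θ‖ = t then y else y⁻¹ :=
    ⟨_, fun _ => rfl⟩
  have hz0 : ∀ φ, 0 < z φ := by
    intro φ
    rw [hz]
    split_ifs
    · exact hy0
    · exact inv_pos.2 hy0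
  have hz2 : ∀ φ, z φ ^ 2 = ‖em φ θ‖ := by
    intro φ
    rw [hz]
    split_ifs with h
    · rw [h, hy]
    · rw [(hθ φ).resolve_left h, inv_pow, hy]
  have hprod : ∏ φ, z φ = 1 := by
    have h3 : (∏ φ, z φ) ^ 2 = 1 := by
      rw [← Finset.prod_pow, ← unit_prod hu]
      exact Finset.prod_congr rfl fun φ _ => hz2 φ
    exact (pow_eq_one_iff_of_nonneg (Finset.prod_nonneg fun φ _ => (hz0 φ).le)
      (by norm_num)).1 h3
  have hn : Module.finrank ℚ K ≠ 0 := (Module.finrank_pos).ne'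
  calc q ^ (Module.finrank ℚ K) < c ^ (Module.finrank ℚ K) := pow_lt_pow_left₀ hqc hq hn
    _ = ∏ φ : K →+* ℂ, (c * z φ) := by
        rw [Finset.prod_mul_distrib, hprod, mul_one, Finset.prod_const, Finset.card_univ,
          NumberField.Embeddings.card K ℂ]
    _ ≤ _ := by
        refine Finset.prod_le_prod (fun φ _ => (mul_pos hc (hz0 φ)).le) fun φ _ => ?_
        rw [hz]
        split_ifs
        · exact h1
        · exact h2

section

variable {N p r : ℕ} (τ : Fin p → Fin N) (e : Fin p → ℕ) (cx : Fin p → Fin r → 𝓞 K)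
  (v : Fin N → 𝓞 K) (jw : Fin N → Fin r)

/-- from an identity of polynomials to the inequality -/
theorem stepU (hGCT : S_GCTQ) (hMASN : S_MASN) (hN : 3 ≤ N) (θ : 𝓞 K) (t : ℝ) (ht : 1 < t)
    (hθ : Hyp θ t) (hu : IsUnit θ) (E m l : Fin r → ℕ) (hml : ∀ j, m j + l j = E j)
    (B : ℝ) (hB1 : 1 ≤ B) (f g D : ℕ) (hm : ∀ j, m j ≤ f)
    (hcx : ∀ i j, hs (cx i j) ≤ B) (hv : ∀ σ, hs (v σ) ≤ B)
    (x : Fin p → 𝓞 K) (hx : ∀ i, x i = ∑ j, cx i j * θ ^ (E j)) (hx0 : ∀ i, x i ≠ 0)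
    (w : Fin N → 𝓞 K) (hw : ∀ σ, w σ = v σ * θ ^ (E (jw σ)))
    (hD : ∀ σ, ∑ i ∈ univ.filter (fun i => τ i = σ), e i < D)
    (hsub : ∀ s : Finset (Fin N), s.Nonempty → s ≠ univ → ∑ σ ∈ s, VA τ e x w σ ≠ 0)
    (q : ℕ) (hq : 0 < q) (hspan : (q : 𝓞 K) ∈ Ideal.span (Set.range (VA τ e x w)))
    (hgap : ∀ i j, l i < l j → l i + g ≤ l j)
    (hid : subT θ m l (∑ σ, GA τ e cx v jw σ) = 0)
    (h1 : 2 * (r * B * t ^ f) ^ (Module.finrank ℚ K) ≤ t ^ g) (τ₀ : ℝ) (hτ₀ : 1 ≤ τ₀)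
    (h2 : (r * B * t ^ f) ^ (Module.finrank ℚ K) < τ₀ ^ g) (hδ1 : 0 < t - τ₀)
    (hδ2 : 0 < τ₀⁻¹ - t⁻¹)
    (hδ : (q : ℝ) ^ (Module.finrank ℚ K) <
      ∏ φ : K →+* ℂ, (if ‖em φ θ‖ = t then t - τ₀ else τ₀⁻¹ - t⁻¹)) :
    ∏ φ : K →+* ℂ, (⨆ σ, ‖em φ (VA τ e x w σ)‖) ≤
      (r * B * t ^ f) ^ (D * Module.finrank ℚ K) *
        ((2 ^ (Module.finrank ℚ K) *
          (r * B * t ^ f) ^ (Module.finrank ℚ K * Module.finrank ℚ K)) ^ p *
          |(Algebra.norm ℤ (∏ i, x i) : ℝ)|) ^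
          ((N - 1) * (N - 2) / 2 * max 1 (N - 3)) := by
  classical
  obtain ⟨σ₀⟩ : Nonempty (Fin N) := ⟨⟨0, by omega⟩⟩
  have hr1 : 1 ≤ r := lt_of_le_of_lt (Nat.zero_le _) (jw σ₀).2
  have hrR : (1 : ℝ) ≤ r := by exact_mod_cast hr1
  have hrB1 : (1 : ℝ) ≤ r * B := one_le_mul_of_one_le_of_one_le hrR hB1
  have htf1 : (1 : ℝ) ≤ t ^ f := one_le_pow₀ ht.le
  have hR1 : 1 ≤ r * B * t ^ f := one_le_mul_of_one_le_of_one_le hrB1 htf1
  have h3 := coreU Pool.Agent.P8H71.EA.upt Pool.Agent.P8H71.EA.lot Pool.Agent.P8H71.EA.rot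
    hGCT hMASN hN τ e θ t ht hθ hu
    (r * B * t ^ f) hR1 g D (fun i => digT θ m l (cx i))
    (fun i => gappy_digT θ t ht hθ f g m l (cx i) B hm (hcx i) hgap)
    (by
      intro i h3
      apply hx0 i
      have h4 := eval_digT θ m l (cx i)
      simp only [hml] at h4
      rw [hx, ← h4, h3, Polynomial.eval_zero])
    (fun σ => v σ * θ ^ (m (jw σ))) (fun σ => l (jw σ))
    (by
      intro σ φ
      rw [map_mul, map_pow, norm_mul, norm_pow]
      have h3 : ‖em φ (v σ)‖ ≤ B := (norm_embedding_le_house _ φ).trans (hv σ)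
      calc ‖em φ (v σ)‖ * ‖em φ θ‖ ^ (m (jw σ)) ≤ B * t ^ f :=
            mul_le_mul h3 (hyp_le ht hθ φ _ _ (hm _)) (by positivity) (by linarith)
        _ ≤ r * B * t ^ f := by
            refine mul_le_mul_of_nonneg_right ?_ (by positivity)
            exact le_mul_of_one_le_left (by linarith) hrR)
    (PT τ e θ m l cx v jw) (fun σ => rfl) hD
    (by
      rw [map_sum] at hid
      rw [← hid]
      exact Finset.sum_congr rfl fun σ _ => (subT_GA _ _ _ _ _ _ _ _ _).symm)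
    (by
      intro s hs1 hs2 h3
      apply hsub s hs1 hs2
      rw [← h3]
      exact Finset.sum_congr rfl fun σ _ =>
        (eval_PT τ e θ E m l cx v jw hml x hx w hw σ).symm)
    q hq
    (by
      have h4 : (fun σ => (PT τ e θ m l cx v jw σ).eval θ) = VA τ e x w := by
        funext σ
        exact eval_PT τ e θ E m l cx v jw hml x hx w hw σ
      rw [h4]
      exact hspan)
    h1 τ₀ hτ₀ h2 hδ1 hδ2 hδ
  have h4 : ∀ σ, VA τ e x w σ = (PT τ e θ m l cx v jw σ).eval θ := fun σ =>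
    (eval_PT τ e θ E m l cx v jw hml x hx w hw σ).symm
  have h5 : ∀ i, (digT θ m l (cx i)).eval θ = x i := by
    intro i
    rw [eval_digT, hx]
    simp only [hml]
  simp only [h4]
  simp only [h5] at h3
  exact h3

/-- the stage: `θ` is a unit, `t` is large compared with `q` -/
theorem stageU (hGCT : S_GCTQ) (hMASN : S_MASN) (hN : 3 ≤ N) (θ : 𝓞 K) (t : ℝ)
    (hθ : Hyp θ t) (hu : IsUnit θ) (q : ℕ) (hq : 0 < q) (htq : (2 * ((q : ℝ) + 1)) ^ 4 ≤ t)
    (E : Fin r → ℕ)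
    (B : ℝ) (hB1 : 1 ≤ B) (D : ℕ) (hcx : ∀ i j, hs (cx i j) ≤ B) (hv : ∀ σ, hs (v σ) ≤ B)
    (x : Fin p → 𝓞 K) (hx : ∀ i, x i = ∑ j, cx i j * θ ^ (E j)) (hx0 : ∀ i, x i ≠ 0)
    (w : Fin N → 𝓞 K) (hw : ∀ σ, w σ = v σ * θ ^ (E (jw σ)))
    (hD : ∀ σ, ∑ i ∈ univ.filter (fun i => τ i = σ), e i < D)
    (hsum : ∑ σ, VA τ e x w σ = 0)
    (hsub : ∀ s : Finset (Fin N), s.Nonempty → s ≠ univ → ∑ σ ∈ s, VA τ e x w σ ≠ 0)
    (hspan : (q : 𝓞 K) ∈ Ideal.span (Set.range (VA τ e x w))) :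
    ∃ F : ℝ, 1 ≤ F ∧ F ≤ (4 * ((q : ℝ) + 2) ^ 2 * (N * (r * B) ^ D) ^ (3 * Module.finrank ℚ K)) ^
        (((22 * Module.finrank ℚ K + 2) * (4 * D) ^ r) ^ (r * r + 1)) ∧
    ∏ φ : K →+* ℂ, (⨆ σ, ‖em φ (VA τ e x w σ)‖) ≤
      (r * B * F) ^ (D * Module.finrank ℚ K) *
        ((2 ^ (Module.finrank ℚ K) *
          (r * B * F) ^ (Module.finrank ℚ K * Module.finrank ℚ K)) ^ p *
          |(Algebra.norm ℤ (∏ i, x i) : ℝ)|) ^
          ((N - 1) * (N - 2) / 2 * max 1 (N - 3)) := by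
  classical
  obtain ⟨n, hn⟩ : ∃ n : ℕ, n = Module.finrank ℚ K := ⟨_, rfl⟩
  have hn1 : 1 ≤ n := by
    rw [hn]
    exact Module.finrank_pos
  have hqR : (1 : ℝ) ≤ q := by exact_mod_cast hq
  have ht256 : 256 ≤ t := by
    refine le_trans ?_ htq
    calc (256 : ℝ) = 4 ^ 4 := by norm_num
      _ ≤ _ := pow_le_pow_left₀ (by norm_num) (by linarith) _
  have ht1 : 1 < t := by linarith
  have ht0 : 0 < t := by linarith
  obtain ⟨σ₀⟩ : Nonempty (Fin N) := ⟨⟨0, by omega⟩⟩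
  have hr1 : 1 ≤ r := lt_of_le_of_lt (Nat.zero_le _) (jw σ₀).2
  have hrR : (1 : ℝ) ≤ r := by exact_mod_cast hr1
  have hNR : (3 : ℝ) ≤ N := by exact_mod_cast hN
  have hrB1 : (1 : ℝ) ≤ r * B := one_le_mul_of_one_le_of_one_le hrR hB1
  have hD1 : 1 ≤ D := by
    have := hD σ₀
    omega
  obtain ⟨S, hS⟩ : ∃ S : ℝ, S = N * (r * B) ^ D := ⟨_, rfl⟩
  have hpD : (r : ℝ) * B ≤ (r * B) ^ D := le_self_pow₀ hrB1 (by omega)
  have hrBS : (r : ℝ) * B ≤ S := by
    rw [hS]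
    have h1 : (0 : ℝ) ≤ (r * B) ^ D := by positivity
    nlinarith
  have hS1 : 1 ≤ S := hrB1.trans hrBS
  have hSn1 : 1 ≤ S ^ n := one_le_pow₀ hS1
  have hnrm : nrm (∑ σ, GA τ e cx v jw σ) ^ (Module.finrank ℚ K) ≤ S ^ n := by
    rw [← hn, hS]
    exact pow_le_pow_left₀ (nrm_nonneg _) (GA_nrm τ e cx v jw B hB1 hcx hv D hD) _
  have heval : MvPolynomial.eval (fun j => θ ^ (E j)) (∑ σ, GA τ e cx v jw σ) = 0 := by
    rw [map_sum, ← hsum]
    exact Finset.sum_congr rfl fun σ _ => GA_evalT τ e cx v jw θ E x hx w hw σ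
  have hWpos : 1 ≤ 4 * ((q : ℝ) + 2) ^ 2 * S ^ (3 * n) := by
    have h1 : (1 : ℝ) ≤ ((q : ℝ) + 2) ^ 2 := one_le_pow₀ (by linarith)
    have h2 : (1 : ℝ) ≤ S ^ (3 * n) := one_le_pow₀ hS1
    have h3 : (1 : ℝ) ≤ ((q : ℝ) + 2) ^ 2 * S ^ (3 * n) := one_le_mul_of_one_le_of_one_le h1 h2
    linarith
  by_cases hlarge : (2 * ((q : ℝ) + 2) * S ^ n) ^ 2 ≤ t
  · -- large base
    refine ⟨1, le_rfl, ?_, ?_⟩
    · rw [← hS, ← hn]
      exact one_le_pow₀ hWpos
    · obtain ⟨y, hy⟩ : ∃ y : ℝ, y = Real.sqrt t := ⟨_, rfl⟩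
      have hy2 : y ^ 2 = t := by rw [hy]; exact Real.sq_sqrt ht0.le
      have hy0 : 0 < y := by rw [hy]; exact Real.sqrt_pos.2 ht0
      have hyS : 2 * ((q : ℝ) + 2) * S ^ n ≤ y := by
        rw [hy]
        exact Real.le_sqrt_of_sq_le hlarge
      have hτ1 : 1 ≤ 2 * S ^ n := by linarith
      have hy6 : 6 ≤ y := by nlinarith
      have hyq : ((q : ℝ) + 2) * (2 * S ^ n) ≤ y := by linarith
      have hyq2 : (q : ℝ) + 2 ≤ y := by nlinarith
      have hτy : 2 * S ^ n ≤ y := by nlinarith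
      have h5 := stepU τ e cx v jw hGCT hMASN hN θ t ht1 hθ hu E (fun _ => 0) E
        (fun j => by simp) B hB1 0 1 D (fun _ => le_rfl) hcx hv x hx hx0 w hw hD hsub q hq hspan
        (fun i j hij => hij)
        (subT_vanish Pool.Agent.P8H71.EA.cut θ t ht1 hθ 1 le_rfl (fun _ => 0) E _
          (by
            rw [pow_one]
            refine lt_of_le_of_lt hnrm ?_
            nlinarith)
          (by
            intro α _ β _ h
            simp only [zero_add] at h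
            exact le_antisymm (Nat.lt_succ_iff.1 h.1) (Nat.lt_succ_iff.1 h.2))
          (by simpa using heval))
        (by
          rw [pow_zero, mul_one, pow_one, ← hn]
          have h6 : (r * B) ^ n ≤ S ^ n := pow_le_pow_left₀ (by positivity) hrBS _
          nlinarith)
        (2 * S ^ n) hτ1
        (by
          rw [pow_zero, mul_one, pow_one, ← hn]
          have h6 : (r * B) ^ n ≤ S ^ n := pow_le_pow_left₀ (by positivity) hrBS _
          linarith)
        (by nlinarith)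
        (by
          have h6 : t⁻¹ < (2 * S ^ n)⁻¹ := inv_strictAnti₀ (by linarith) (by nlinarith)
          linarith)
        (by
          refine delta_lt hu hθ y ((q : ℝ) + 1) (2 * S ^ n) q hy2 hy0 (by linarith) (by linarith)
            ?_ ?_
          · rw [← hy2]
            nlinarith
          · have h6 : (2 * S ^ n)⁻¹ = ((q : ℝ) + 2) * (((q : ℝ) + 2) * (2 * S ^ n))⁻¹ := by
              have : (q : ℝ) + 2 ≠ 0 := by positivity
              have : S ^ n ≠ 0 := by positivity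
              field_simp
            have h7 : y⁻¹ ≤ (((q : ℝ) + 2) * (2 * S ^ n))⁻¹ :=
              inv_anti₀ (by positivity) hyq
            have h8 : t⁻¹ ≤ y⁻¹ := inv_anti₀ hy0 (by rw [← hy2]; nlinarith)
            have h9 : ((q : ℝ) + 2) * y⁻¹ ≤ (2 * S ^ n)⁻¹ := by
              rw [h6]
              exact mul_le_mul_of_nonneg_left h7 (by positivity)
            linarith)
      rwa [pow_zero] at h5
  · -- small base
    push Not at hlarge
    obtain ⟨L0, hL0, hL0min⟩ : ∃ L0 : ℕ, S ^ n < t ^ L0 ∧ ∀ j < L0, t ^ j ≤ S ^ n := by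
      have hex : ∃ L0 : ℕ, S ^ n < t ^ L0 := pow_unbounded_of_one_lt _ ht1
      exact ⟨Nat.find hex, Nat.find_spec hex, fun j hj => not_lt.1 (Nat.find_min hex hj)⟩
    have hL01 : 1 ≤ L0 := by
      by_contra h
      have h0 : L0 = 0 := by omega
      rw [h0, pow_zero] at hL0
      linarith
    have htL0 : t ^ L0 ≤ 4 * ((q : ℝ) + 2) ^ 2 * S ^ (3 * n) := by
      obtain ⟨L', hL'⟩ : ∃ L', L0 = L' + 1 := ⟨L0 - 1, by omega⟩
      have h1 := hL0min L' (by omega)
      rw [hL', pow_succ]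
      calc t ^ L' * t ≤ S ^ n * (2 * ((q : ℝ) + 2) * S ^ n) ^ 2 :=
            mul_le_mul h1 hlarge.le ht0.le (by positivity)
        _ = _ := by ring
    obtain ⟨M, hM⟩ : ∃ M : ℕ, M = (22 * n + 2) * (4 * D) ^ r := ⟨_, rfl⟩
    have hK1 : 1 ≤ (4 * D) ^ r := Nat.one_le_pow _ _ (by omega)
    have hM1 : 1 ≤ M := by
      rw [hM]
      exact Nat.mul_pos (by omega) hK1
    obtain ⟨L, hL0L, hLM, hscale⟩ := exists_scale M L0 hM1 E
    have hL1 : 1 ≤ L := hL01.trans hL0L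
    have hSL : S ^ n < t ^ L := hL0.trans_le (pow_le_pow_right₀ ht1.le hL0L)
    obtain ⟨m, l, hml, hm, hclus, htr⟩ := transT Pool.Agent.P8H71.EA.cut θ t ht1 hθ D hD1 L
      hL1 E
    obtain ⟨f, hf⟩ : ∃ f : ℕ, f = 2 * (4 * D) ^ r * L := ⟨_, rfl⟩
    have hML : M * L = 11 * n * f + f := by rw [hM, hf]; ring
    have hfL : L ≤ f := by
      rw [hf]
      nlinarith
    have hm' : ∀ j, m j ≤ f := fun j => by rw [hf]; exact hm j
    have hgap : ∀ i j, l i < l j → l i + 11 * n * f ≤ l j := by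
      intro i j hij
      have h1 := hml i
      have h2 := hml j
      have h3 := hm' i
      have h4 := hm' j
      have hnc : ¬ (E i < E j + L ∧ E j < E i + L) := fun h => by
        have := hclus i j h.1 h.2
        omega
      rcases hscale i j with h5 | h5
      · rcases hscale j i with h6 | h6
        · omega
        · rw [hML] at h6
          omega
      · rw [hML] at h5
        omega
    have htf1 : (1 : ℝ) ≤ t ^ f := one_le_pow₀ ht1.le
    have hrBf : r * B * t ^ f ≤ t ^ (2 * f) := by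
      rw [two_mul, pow_add]
      refine mul_le_mul_of_nonneg_right ?_ (by positivity)
      calc (r : ℝ) * B ≤ S := hrBS
        _ ≤ S ^ n := le_self_pow₀ hS1 (by omega)
        _ ≤ t ^ L := hSL.le
        _ ≤ t ^ f := pow_le_pow_right₀ ht1.le hfL
    have hRn : (r * B * t ^ f) ^ n ≤ t ^ (2 * (f * n)) := by
      calc (r * B * t ^ f) ^ n ≤ (t ^ (2 * f)) ^ n := pow_le_pow_left₀ (by positivity) hrBf _
        _ = t ^ (2 * (f * n)) := by
          rw [← pow_mul]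
          congr 1
          ring
    have hfn : 1 ≤ f * n := Nat.mul_pos (hL1.trans hfL) hn1
    -- the tenth root
    obtain ⟨s, hs0, hs10⟩ : ∃ s : ℝ, 0 < s ∧ s ^ 10 = t := by
      refine ⟨t ^ ((1 : ℝ) / 10), Real.rpow_pos_of_pos ht0 _, ?_⟩
      rw [← Real.rpow_natCast, ← Real.rpow_mul ht0.le]
      norm_num
    have hs1 : 1 < s := by
      by_contra h
      push Not at h
      have := pow_le_one₀ (n := 10) hs0.le h
      linarith
    have hs5 : 0 < s ^ 5 := by positivity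
    have hs3q : 2 * ((q : ℝ) + 1) ≤ s ^ 3 := by
      have h1 : (2 * ((q : ℝ) + 1)) ^ 10 ≤ (s ^ 3) ^ 10 := by
        calc (2 * ((q : ℝ) + 1)) ^ 10 ≤ (2 * ((q : ℝ) + 1)) ^ 12 :=
              pow_le_pow_right₀ (by linarith) (by norm_num)
          _ = ((2 * ((q : ℝ) + 1)) ^ 4) ^ 3 := by ring
          _ ≤ t ^ 3 := pow_le_pow_left₀ (by positivity) htq _
          _ = (s ^ 3) ^ 10 := by rw [← hs10]; ring
      exact le_of_pow_le_pow_left₀ (by norm_num) (by positivity) h1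
    have hs35 : s ^ 3 ≤ s ^ 5 := pow_le_pow_right₀ hs1.le (by norm_num)
    have hs2 : 1 < s ^ 2 := one_lt_pow₀ hs1 (by norm_num)
    have hst : s ^ 2 < t := by
      rw [← hs10]
      exact pow_lt_pow_right₀ hs1 (by norm_num)
    have h1 := stepU τ e cx v jw hGCT hMASN hN θ t ht1 hθ hu E m l hml B hB1 f (11 * n * f) D hm'
      hcx hv x hx hx0 w hw hD hsub q hq hspan hgap
      (htr (∑ σ, GA τ e cx v jw σ) (GA_deg τ e cx v jw D hD) (lt_of_le_of_lt hnrm hSL) heval)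
      (by
        rw [← hn]
        calc 2 * (r * B * t ^ f) ^ n ≤ t ^ (9 * (f * n)) * t ^ (2 * (f * n)) := by
              refine mul_le_mul ?_ hRn (by positivity) (by positivity)
              calc (2 : ℝ) ≤ t := by linarith
                _ ≤ t ^ (9 * (f * n)) := le_self_pow₀ ht1.le (by omega)
          _ = t ^ (11 * n * f) := by
              rw [← pow_add]
              congr 1
              ring)
      (s ^ 2) hs2.le
      (by
        rw [← hn]
        calc (r * B * t ^ f) ^ n ≤ t ^ (2 * (f * n)) := hRn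
          _ = s ^ (20 * (f * n)) := by
              rw [← hs10, ← pow_mul]
              congr 1
              ring
          _ < s ^ (22 * (f * n)) := pow_lt_pow_right₀ hs1 (by omega)
          _ = (s ^ 2) ^ (11 * n * f) := by
              rw [← pow_mul]
              congr 1
              ring)
      (by linarith)
      (by
        have h3 : t⁻¹ < (s ^ 2)⁻¹ := inv_strictAnti₀ (by positivity) hst
        linarith)
      (by
        refine delta_lt hu hθ (s ^ 5) ((q : ℝ) + 1) (s ^ 2) q (by rw [← hs10]; ring) hs5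
          (by linarith) (by linarith) ?_ ?_
        · have h3 : t = s ^ 5 * s ^ 5 := by rw [← hs10]; ring
          have h4 : s ^ 2 ≤ s ^ 5 := pow_le_pow_right₀ hs1.le (by norm_num)
          rw [h3]
          nlinarith
        · have h3 : (s ^ 2)⁻¹ = s ^ 3 * (s ^ 5)⁻¹ := by
            field_simp
          have h4 : t⁻¹ ≤ (s ^ 5)⁻¹ := by
            refine inv_anti₀ hs5 ?_
            rw [← hs10]
            exact pow_le_pow_right₀ hs1.le (by norm_num)
          have h5 : (2 * ((q : ℝ) + 1)) * (s ^ 5)⁻¹ ≤ s ^ 3 * (s ^ 5)⁻¹ :=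
            mul_le_mul_of_nonneg_right hs3q (by positivity)
          have h6 : 0 ≤ (s ^ 5)⁻¹ := by positivity
          rw [h3]
          nlinarith)
    refine ⟨t ^ f, htf1, ?_, h1⟩
    rw [← hS, ← hn, ← hM]
    calc t ^ f ≤ t ^ (L0 * M ^ (r * r + 1)) := by
          refine pow_le_pow_right₀ ht1.le ?_
          have h3 : f ≤ M * L := by rw [hML]; omega
          have h4 : M * L ≤ M * (M ^ (r * r) * L0) := Nat.mul_le_mul_left _ hLM
          have h5 : L0 * M ^ (r * r + 1) = M * (M ^ (r * r) * L0) := by ring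
          omega
      _ = (t ^ L0) ^ (M ^ (r * r + 1)) := by rw [pow_mul]
      _ ≤ _ := pow_le_pow_left₀ (by positivity) htL0 _

end

end Pool.Agent.P8H51.EA
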