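import Mathlib
import Pool.Agent.P8H51.EA.StageU
import Pool.Agent.P8H51.EA.Ht

/-!
# Unit bases: explicit bound
-/

set_option autoImplicit false

namespace Pool.Agent.P8H51.EA

open Finset NumberField Pool.Agent.H458.Sp

variable {K : Type} [Field K] [NumberField K]

/-- numbers with digits to a unit base, exponents at least zero -/
theorem boundU (hGCT : S_GCTQ) (hMASN : S_MASN) {N p r : ℕ} (τ : Fin p → Fin N) (e : Fin p → ℕ)
    (cx : Fin p → Fin r → 𝓞 K) (v : Fin N → 𝓞 K) (jw : Fin N → Fin r) (hN : 3 ≤ N)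
    (hNr : N ≤ r) (D : ℕ) (hpr : p ≤ D * r) {u : 𝓞 K} (hu : IsUnit u) (t : ℝ) (ht : 1 < t) (hyp : Hyp u t)
    (q : ℕ) (hq : 0 < q) (E : Fin r → ℕ)
    (M : ℝ) (hM : 1 ≤ M) (hcx : ∀ i j, hs (cx i j) ≤ M) (hv : ∀ σ, hs (v σ) ≤ M)
    (x : Fin p → 𝓞 K) (hx : ∀ i, x i = ∑ j, cx i j * u ^ (E j)) (hx0 : ∀ i, x i ≠ 0)
    (w : Fin N → 𝓞 K) (hw : ∀ σ, w σ = v σ * u ^ (E (jw σ)))
    (hD : ∀ σ, ∑ i ∈ univ.filter (fun i => τ i = σ), e i < D)
    (hsum : ∑ σ, VA τ e x w σ = 0)
    (hsub : ∀ s : Finset (Fin N), s.Nonempty → s ≠ univ → ∑ σ ∈ s, VA τ e x w σ ≠ 0)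
    (hspan : (q : 𝓞 K) ∈ Ideal.span (Set.range (VA τ e x w))) :
    Real.log (∏ φ : K →+* ℂ, (⨆ σ, ‖em φ (VA τ e x w σ)‖)) ≤
      ((N - 1) * (N - 2) / 2 * max 1 (N - 3) : ℕ) *
        Real.log |(Algebra.norm ℤ (∏ i, x i) : ℝ)| +
      (96 * (D * Module.finrank ℚ K * r * (1 + Real.log (q * M)))) ^ (2 * r ^ 3) := by
  obtain ⟨κ, hκ⟩ : ∃ κ : ℕ, κ = (N - 1) * (N - 2) / 2 * max 1 (N - 3) := ⟨_, rfl⟩
  obtain ⟨n, hn⟩ : ∃ n : ℕ, n = Module.finrank ℚ K := ⟨_, rfl⟩
  obtain ⟨U, hU⟩ : ∃ U : ℝ, U = 1 + Real.log (q * M) := ⟨_, rfl⟩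
  obtain ⟨Y, hY⟩ : ∃ Y : ℝ, Y = D * n * r * U := ⟨_, rfl⟩
  obtain ⟨Nx, hNx⟩ : ∃ Nx : ℝ, Nx = |(Algebra.norm ℤ (∏ i, x i) : ℝ)| := ⟨_, rfl⟩
  have hn1 : 1 ≤ n := by
    rw [hn]
    exact Module.finrank_pos
  have hD1 : 1 ≤ D := by
    have := hD ⟨0, by omega⟩
    omega
  have hr3 : 3 ≤ r := hN.trans hNr
  have hnR : (1 : ℝ) ≤ n := by exact_mod_cast hn1
  have hDR : (1 : ℝ) ≤ D := by exact_mod_cast hD1
  have hrR : (3 : ℝ) ≤ r := by exact_mod_cast hr3
  have hNR : (3 : ℝ) ≤ N := by exact_mod_cast hN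
  have hNrR : (N : ℝ) ≤ r := by exact_mod_cast hNr
  have hlog0 : 0 ≤ Real.log M := Real.log_nonneg hM
  have hqR : (1 : ℝ) ≤ q := by exact_mod_cast hq
  have hlogq : 0 ≤ Real.log q := Real.log_nonneg hqR
  have hlqM : Real.log (q * M) = Real.log q + Real.log M :=
    Real.log_mul (by linarith) (by linarith)
  have hU1 : 1 ≤ U := by rw [hU, hlqM]; linarith
  have hrU : (r : ℝ) ≤ r * U := le_mul_of_one_le_right (by positivity) hU1
  have hDn1 : (1 : ℝ) ≤ D * n := one_le_mul_of_one_le_of_one_le hDR hnR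
  have hYeq : Y = (D * n) * (r * U) := by rw [hY]; ring
  have hrUY : r * U ≤ Y := by
    rw [hYeq]
    exact le_mul_of_one_le_left (by positivity) hDn1
  have hrY : (r : ℝ) ≤ Y := hrU.trans hrUY
  have hY3 : 3 ≤ Y := hrR.trans hrY
  have hY1 : 1 ≤ Y := by linarith
  have hDnY : (D : ℝ) * n ≤ Y := by
    rw [hYeq]
    exact le_mul_of_one_le_right (by positivity) (by linarith)
  have hMR : (0 : ℝ) < M := by linarith
  have hrR0 : (0 : ℝ) < r := by linarith
  -- the power of the base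
  obtain ⟨h, hh1, hht, hhm⟩ : ∃ h : ℕ, 1 ≤ h ∧ (2 * ((q : ℝ) + 1)) ^ 4 ≤ t ^ h ∧
      t ^ (h - 1) ≤ (2 * ((q : ℝ) + 1)) ^ 4 := by
    have hex : ∃ h : ℕ, (2 * ((q : ℝ) + 1)) ^ 4 < t ^ h := pow_unbounded_of_one_lt _ ht
    have h1 := Nat.find_spec hex
    have h2 : 1 ≤ Nat.find hex := by
      by_contra h3
      have h4 : Nat.find hex = 0 := by omega
      rw [h4, pow_zero] at h1
      have h5 : (1 : ℝ) ≤ (2 * ((q : ℝ) + 1)) ^ 4 := one_le_pow₀ (by linarith)
      linarith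
    exact ⟨Nat.find hex, h2, h1.le, not_lt.1 (Nat.find_min hex (by omega))⟩
  -- digits
  obtain ⟨B, hB⟩ : ∃ B : ℝ, B = (2 * ((q : ℝ) + 1)) ^ 4 * M := ⟨_, rfl⟩
  have hB1 : 1 ≤ B := by
    rw [hB]
    exact one_le_mul_of_one_le_of_one_le (one_le_pow₀ (by linarith)) hM
  have hB0 : 0 < B := by linarith
  have hrB1 : (1 : ℝ) ≤ r * B := one_le_mul_of_one_le_of_one_le (by linarith) hB1
  have lrB : Real.log (r * B) ≤ 3 * (r * U) := by
    rw [hB, Real.log_mul (by positivity) (by positivity),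
      Real.log_mul (by positivity) (by positivity), Real.log_pow]
    have h1 := log_nat_le r (by omega)
    have h2 : Real.log (2 * ((q : ℝ) + 1)) ≤ 2 * Real.log 2 + Real.log q := by
      rw [show (2 : ℝ) * Real.log 2 = Real.log (2 ^ 2) by rw [Real.log_pow]; norm_num,
        ← Real.log_mul (by norm_num) (by linarith)]
      exact Real.log_le_log (by positivity) (by linarith)
    have h3 := Real.log_two_lt_d9
    have h4 : 0 ≤ ((r : ℝ) - 3) * U := mul_nonneg (by linarith) (by linarith)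
    have h5 : 0 ≤ (r : ℝ) * (U - 1) := mul_nonneg (by linarith) (by linarith)
    have h6 : Real.log q + Real.log M = U - 1 := by rw [hU, hlqM]; ring
    push_cast
    nlinarith
  have hlrB0 : 0 ≤ Real.log (r * B) := Real.log_nonneg hrB1
  have hdigit : ∀ (c : 𝓞 K) (a : ℕ), hs c ≤ M → hs (c * u ^ (a % h)) ≤ B := by
    intro c a hc
    refine hs_le fun φ => ?_
    have h1 : ‖em φ (c * u ^ (a % h))‖ ≤ B := by
      rw [map_mul, map_pow, norm_mul, norm_pow, hB, mul_comm]
      refine mul_le_mul ?_ ((norm_embedding_le_house _ φ).trans hc) (norm_nonneg _) (by positivity)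
      refine (hyp_le ht hyp φ (a % h) (h - 1) ?_).trans hhm
      have := Nat.mod_lt a (show h > 0 by omega)
      omega
    exact h1
  have hexp : ∀ (c : 𝓞 K) (a : ℕ), c * u ^ (a % h) * (u ^ h) ^ (a / h) = c * u ^ a := by
    intro c a
    rw [← pow_mul, mul_assoc, ← pow_add, Nat.mod_add_div]
  obtain ⟨F, hF1, hF, h1⟩ := stageU τ e (fun i j => cx i j * u ^ (E j % h))
    (fun σ => v σ * u ^ (E (jw σ) % h)) jw hGCT hMASN hN (u ^ h) (t ^ h) (hyp_pow hyp h)
    (hu.pow h) q hq hht (fun j => E j / h) B hB1 D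
    (fun i j => hdigit _ _ (hcx i j)) (fun σ => hdigit _ _ (hv σ)) x
    (by
      intro i
      rw [hx]
      exact Finset.sum_congr rfl fun j _ => (hexp _ _).symm) hx0 w
    (by
      intro σ
      rw [hw]
      exact (hexp _ _).symm) hD hsum hsub hspan
  -- the terms do not vanish
  have hA0 : ∀ σ, VA τ e x w σ ≠ 0 := by
    intro σ
    have h3 := hsub {σ} (Finset.singleton_nonempty σ) (by
      intro h4
      have h5 := congrArg Finset.card h4
      rw [Finset.card_singleton, Finset.card_univ, Fintype.card_fin] at h5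
      omega)
    rwa [Finset.sum_singleton] at h3
  obtain ⟨P, hP⟩ : ∃ P : ℝ, P = ∏ φ : K →+* ℂ, (⨆ σ, ‖em φ (VA τ e x w σ)‖) := ⟨_, rfl⟩
  have hP0 : 0 < P := by
    rw [hP]
    refine Finset.prod_pos fun φ _ => ?_
    exact lt_of_lt_of_le (norm_pos_iff.2 fun h => hA0 ⟨0, by omega⟩ (em_ne h))
      (le_ciSup (f := fun σ => ‖em φ (VA τ e x w σ)‖) (Set.finite_range _).bddAbove
        (⟨0, by omega⟩ : Fin N))
  have hNx1 : 1 ≤ Nx := by
    rw [hNx]
    have h1 : Algebra.norm ℤ (∏ i, x i) ≠ 0 := by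
      rw [Algebra.norm_ne_zero_iff]
      exact Finset.prod_ne_zero_iff.2 fun i _ => hx0 i
    have h2 := Int.one_le_abs h1
    exact_mod_cast h2
  have hNx0 : 0 < Nx := by linarith
  rw [← hP, ← hκ, ← hNx, ← hn, ← hU, ← hY]
  rw [← hP, ← hκ, ← hNx, ← hn] at h1
  rw [← hn] at hF
  have hF0 : 0 < F := by linarith
  obtain ⟨W, hW⟩ : ∃ W : ℕ, W = ((22 * n + 2) * (4 * D) ^ r) ^ (r * r + 1) := ⟨_, rfl⟩
  have hW1 : (1 : ℝ) ≤ W := by
    have : 1 ≤ W := by
      rw [hW]
      exact Nat.one_le_pow _ _ (Nat.mul_pos (by omega) (pow_pos (by omega) _))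
    exact_mod_cast this
  have hWY : (W : ℝ) ≤ (96 * Y) ^ (r ^ 3 + r) := by
    rw [hW, show r ^ 3 + r = r * (r * r + 1) by ring, pow_mul]
    push_cast
    refine pow_le_pow_left₀ (by positivity) ?_ _
    calc (22 * (n : ℝ) + 2) * (4 * (D : ℝ)) ^ r ≤ (24 * n) ^ r * (4 * (D : ℝ)) ^ r := by
          refine mul_le_mul_of_nonneg_right ?_ (by positivity)
          calc 22 * (n : ℝ) + 2 ≤ 24 * n := by linarith
            _ = (24 * (n : ℝ)) ^ 1 := (pow_one _).symm
            _ ≤ _ := pow_le_pow_right₀ (by linarith) (by omega)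
      _ = (96 * (D * n)) ^ r := by rw [← mul_pow]; ring
      _ ≤ _ := pow_le_pow_left₀ (by positivity) (by linarith) _
  rw [← hW] at hF
  -- logarithm of the scale
  have hlS : Real.log (4 * ((q : ℝ) + 2) ^ 2 * (N * (r * B) ^ D) ^ (3 * n)) ≤ 14 * Y := by
    rw [Real.log_mul (by positivity) (by positivity), Real.log_mul (by norm_num) (by positivity),
      Real.log_pow, Real.log_pow,
      Real.log_mul (by positivity) (by positivity), Real.log_pow]
    have h2 : Real.log 4 ≤ 2 * Real.log 2 := by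
      rw [show (2 : ℝ) * Real.log 2 = Real.log (2 ^ 2) by rw [Real.log_pow]; norm_num]
      exact Real.log_le_log (by norm_num) (by norm_num)
    have h3 := Real.log_two_lt_d9
    have h4 : Real.log N ≤ r * U := by
      have := log_nat_le N (by omega)
      linarith
    have h5 : (n : ℝ) * (Real.log N + D * Real.log (r * B)) ≤ 4 * Y := by
      have h6 : (D : ℝ) * Real.log (r * B) ≤ D * (3 * (r * U)) :=
        mul_le_mul_of_nonneg_left lrB (by positivity)
      have h7 : (r : ℝ) * U ≤ D * (r * U) := le_mul_of_one_le_left (by positivity) hDR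
      have h8 : Real.log N + D * Real.log (r * B) ≤ 4 * (D * (r * U)) := by linarith
      calc (n : ℝ) * (Real.log N + D * Real.log (r * B)) ≤ n * (4 * (D * (r * U))) :=
            mul_le_mul_of_nonneg_left h8 (by positivity)
        _ = 4 * Y := by rw [hYeq]; ring
    have h9 : Real.log ((q : ℝ) + 2) ≤ 2 * Real.log 2 + Real.log q := by
      rw [show (2 : ℝ) * Real.log 2 = Real.log (2 ^ 2) by rw [Real.log_pow]; norm_num,
        ← Real.log_mul (by norm_num) (by linarith)]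
      exact Real.log_le_log (by positivity) (by linarith)
    have h10 : Real.log q ≤ U - 1 := by rw [hU, hlqM]; linarith
    have h11 : 3 * U ≤ Y := by
      refine le_trans ?_ hrUY
      exact mul_le_mul_of_nonneg_right hrR (by linarith)
    push_cast
    linarith
  have hlF : Real.log F ≤ 14 * Y * W := by
    refine (Real.log_le_log hF0 hF).trans ?_
    rw [Real.log_pow]
    have h2 : (W : ℝ) * Real.log (4 * ((q : ℝ) + 2) ^ 2 * (N * (r * B) ^ D) ^ (3 * n)) ≤
        W * (14 * Y) := mul_le_mul_of_nonneg_left hlS (by positivity)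
    linarith
  obtain ⟨R, hR⟩ : ∃ R : ℝ, R = r * B * F := ⟨_, rfl⟩
  rw [← hR] at h1
  have hR1 : 1 ≤ R := by
    rw [hR]
    exact one_le_mul_of_one_le_of_one_le hrB1 hF1
  have hR0 : 0 < R := by linarith
  have hlR0 : 0 ≤ Real.log R := Real.log_nonneg hR1
  have hYW : Y ≤ Y * W := le_mul_of_one_le_right (by linarith) hW1
  have hlR : Real.log R ≤ 22 * Y * W := by
    rw [hR, Real.log_mul (by positivity) (by positivity)]
    linarith
  have hκ3 : (κ : ℝ) ≤ Y ^ 3 := by
    have h2 : (κ : ℝ) ≤ N * N * N := by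
      rw [hκ]
      exact_mod_cast kappa_le N
    have h3 : (N : ℝ) ≤ Y := hNrR.trans hrY
    calc (κ : ℝ) ≤ N * N * N := h2
      _ = (N : ℝ) ^ 3 := by ring
      _ ≤ Y ^ 3 := pow_le_pow_left₀ (by positivity) h3 _
  have hnr : (n : ℝ) * r ≤ Y := by
    calc (n : ℝ) * r = (1 * n) * (r * 1) := by ring
      _ ≤ (D * n) * (r * U) := by
          refine mul_le_mul ?_ ?_ (by positivity) (by positivity)
          · exact mul_le_mul_of_nonneg_right hDR (by positivity)
          · exact mul_le_mul_of_nonneg_left hU1 (by positivity)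
      _ = Y := hYeq.symm
  have hnY : (n : ℝ) ≤ Y := le_trans (le_mul_of_one_le_right (by positivity) (by linarith)) hnr
  have hpn : (p : ℝ) * n ≤ Y := by
    have h3 : (p : ℝ) ≤ D * r := by exact_mod_cast hpr
    calc (p : ℝ) * n ≤ (D * r) * n := mul_le_mul_of_nonneg_right h3 (by positivity)
      _ = (D * n) * (r * 1) := by ring
      _ ≤ (D * n) * (r * U) := by
          refine mul_le_mul_of_nonneg_left ?_ (by positivity)
          exact mul_le_mul_of_nonneg_left hU1 (by positivity)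
      _ = Y := hYeq.symm
  have hκp : (κ : ℝ) * (p * n * n) ≤ Y ^ 5 := by
    calc (κ : ℝ) * (p * n * n) ≤ Y ^ 3 * (Y * Y) := by
          refine mul_le_mul hκ3 ?_ (by positivity) (by positivity)
          exact mul_le_mul hpn hnY (by positivity) (by positivity)
      _ = Y ^ 5 := by ring
  have hκq : (κ : ℝ) * (p * n) ≤ Y ^ 5 := by
    refine le_trans ?_ hκp
    refine mul_le_mul_of_nonneg_left ?_ (by positivity)
    exact le_mul_of_one_le_right (by positivity) hnR
  have hY15 : Y ≤ Y ^ 5 := le_self_pow₀ hY1 (by norm_num)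
  have hlP : Real.log P ≤ (D : ℝ) * n * Real.log R +
      κ * (p * (n * Real.log 2 + n * n * Real.log R) + Real.log Nx) := by
    refine (Real.log_le_log hP0 h1).trans_eq ?_
    rw [Real.log_mul (by positivity) (by positivity), Real.log_pow, Real.log_pow,
      Real.log_mul (by positivity) (by positivity), Real.log_pow,
      Real.log_mul (by positivity) (by positivity), Real.log_pow, Real.log_pow]
    push_cast
    ring
  have hl2 : Real.log 2 ≤ 1 := by
    have := Real.log_two_lt_d9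
    linarith
  have hl20 : 0 ≤ Real.log 2 := Real.log_nonneg (by norm_num)
  have hs1 : (D : ℝ) * n * Real.log R ≤ Y ^ 5 * (22 * Y * W) :=
    mul_le_mul (hDnY.trans hY15) hlR hlR0 (by positivity)
  have hs2 : (κ : ℝ) * (p * n * n) * Real.log R ≤ Y ^ 5 * (22 * Y * W) :=
    mul_le_mul hκp hlR hlR0 (by positivity)
  have hs3 : (κ : ℝ) * (p * n) * Real.log 2 ≤ Y ^ 5 * 1 :=
    mul_le_mul hκq hl2 hl20 (by positivity)
  have hs4 : Y ^ 5 ≤ Y ^ 6 * W := by
    calc Y ^ 5 ≤ Y ^ 6 := pow_le_pow_right₀ hY1 (by norm_num)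
      _ ≤ Y ^ 6 * W := le_mul_of_one_le_right (by positivity) hW1
  have hs5 : Real.log P ≤ κ * Real.log Nx + 45 * Y ^ 6 * W := by
    have h2 : (κ : ℝ) * (p * (n * Real.log 2 + n * n * Real.log R) + Real.log Nx) =
        κ * (p * n) * Real.log 2 + κ * (p * n * n) * Real.log R + κ * Real.log Nx := by ring
    have h3 : Y ^ 5 * (22 * Y * W) = 22 * (Y ^ 6 * W) := by ring
    rw [h2] at hlP
    rw [h3] at hs1 hs2
    linarith
  have hs6 : 45 * Y ^ 6 * W ≤ (96 * Y) ^ (2 * r ^ 3) := by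
    calc 45 * Y ^ 6 * W ≤ (96 * Y) ^ 6 * (96 * Y) ^ (r ^ 3 + r) := by
          refine mul_le_mul ?_ hWY (by positivity) (by positivity)
          rw [mul_pow]
          refine mul_le_mul_of_nonneg_right (by norm_num) (by positivity)
      _ = (96 * Y) ^ (6 + (r ^ 3 + r)) := (pow_add _ _ _).symm
      _ ≤ _ := by
          refine pow_le_pow_right₀ (by linarith) ?_
          have h8 : 6 + r ≤ r ^ 3 := by
            obtain ⟨s, rfl⟩ : ∃ s, r = s + 3 := ⟨r - 3, by omega⟩
            ring_nf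
            nlinarith
          omega
  linarith

end Pool.Agent.P8H51.EA
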