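import Mathlib
import Pool.Agent.TH876.FH.Ana
import Pool.Agent.TH876.FH.Hj

/-!
# Faltings height and height of the modular invariant

Copy of `fal_two` of `Pool/Agent/Y729/FW/Cond.lean` with a small import closure.
-/

set_option autoImplicit false

namespace Pool.Agent.P8H51.EA

open NumberField IsDedekindDomain
open Pool.Agent.TH876.FH (Hj_height Hj_faltings Hj_norm faltings IsPeriod arch)

theorem sum_multL (K : Type) [Field K] [NumberField K] :
    ∑ w : InfinitePlace K, (w.mult : ℝ) = Module.finrank ℚ K := by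
  have h := InfinitePlace.sum_mult_eq (K := K)
  exact_mod_cast h

theorem fal_two : ∃ c : ℝ, 0 ≤ c ∧
    ∀ (K : Type) [Field K] [NumberField K] (j : K) (τ : InfinitePlace K → UpperHalfPlane),
      IsPeriod j τ → 12 * Module.finrank ℚ K * faltings j τ ≤
        Height.logHeight₁ j + c * Module.finrank ℚ K := by
  obtain ⟨c, hc⟩ := Pool.Agent.TH876.FH.ana.2
  refine ⟨|c|, abs_nonneg c, ?_⟩
  intro K _ _ j τ hj
  rw [Hj_height, Hj_faltings, ← sum_multL]
  have h1 : ∑ w : InfinitePlace K, (w.mult : ℝ) * arch (τ w) ≤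
      ∑ w : InfinitePlace K, (w.mult : ℝ) * (Real.log (max (w j) 1) + |c|) := by
    refine Finset.sum_le_sum fun w _ => ?_
    apply mul_le_mul_of_nonneg_left _ (Nat.cast_nonneg _)
    rw [← Hj_norm j τ hj w]
    exact (hc (τ w)).trans (by linarith [le_abs_self c])
  have h2 : ∑ w : InfinitePlace K, (w.mult : ℝ) * (Real.log (max (w j) 1) + |c|) =
      ∑ w : InfinitePlace K, (w.mult : ℝ) * Real.log (max (w j) 1) +
        |c| * ∑ w : InfinitePlace K, (w.mult : ℝ) := by
    rw [Finset.mul_sum, ← Finset.sum_add_distrib]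
    refine Finset.sum_congr rfl fun w _ => ?_
    ring
  linarith

end Pool.Agent.P8H51.EA
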