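import Mathlib
import Pool.Agent.P8H51.EA.Bound
import Pool.Agent.P8H51.EA.Ht

/-!
# Assembly: numbers with few digits
-/

set_option autoImplicit false

namespace Pool.Agent.P8H51.EA

open Finset NumberField Pool.Agent.H458.Sp

/-- `y` is a sum of `k` terms `c g ^ a`, where `c` is an algebraic integer of `K` all of whose conjugates have absolute
value at most `M` -/
def FewDigits {K : Type} [Field K] (g k : ℕ) (M : ℝ) (y : 𝓞 K) : Prop :=
  ∃ (c : Fin k → 𝓞 K) (a : Fin k → ℕ), (∀ j (φ : K →+* ℂ), ‖φ (c j)‖ ≤ M) ∧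
    y = ∑ j, c j * (g : 𝓞 K) ^ (a j)

/-- encoding of the digits -/
def enc (p k N : ℕ) : (Fin p × Fin k) ⊕ Fin N ≃ Fin (p * k + N) :=
  (Equiv.sumCongr finProdFinEquiv (Equiv.refl _)).trans finSumFinEquiv

theorem final (hUPP : S_UPP) (hLOW : S_LOW) (hROOT : S_ROOT) (hGCDQ : S_GCDQ) (hMASN : S_MASN)
    (K : Type) [Field K] [NumberField K] (N p k D q g : ℕ) (M : ℝ) (hN : 3 ≤ N) (hg : 2 ≤ g)
    (hq : 0 < q) (τ : Fin p → Fin N) (e : Fin p → ℕ) (hD : ∀ σ, ∑ i with τ i = σ, e i < D)
    (x : Fin p → 𝓞 K) (hx : ∀ i, FewDigits g k M (x i)) (hx0 : ∀ i, x i ≠ 0)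
    (w : Fin N → 𝓞 K) (hw : ∀ σ, FewDigits g 1 M (w σ))
    (A : Fin N → 𝓞 K) (hA : ∀ σ, A σ = w σ * ∏ i with τ i = σ, x i ^ e i)
    (hsum : ∑ σ, A σ = 0)
    (hsub : ∀ s : Finset (Fin N), s.Nonempty → s ≠ Finset.univ → ∑ σ ∈ s, A σ ≠ 0)
    (hgcd : (q : 𝓞 K) ∈ Ideal.span (Set.range A)) :
    Height.logHeight (fun σ => (A σ : K)) ≤
      ((N - 1) * (N - 2) / 2 * max 1 (N - 3) : ℕ) *
        ∑ i, Real.log |(Algebra.norm ℤ (x i) : ℝ)| +
      (32 * (D * Module.finrank ℚ K * (p * k + N : ℕ) * (1 + Real.log (q * M)))) ^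
        (2 * (p * k + N) ^ 3) := by
  classical
  have hAeq : A = VA τ e x w := by
    funext σ
    rw [hA]
    rfl
  -- `M` is at least one
  have hA0 : ∀ σ, A σ ≠ 0 := by
    intro σ
    have h3 := hsub {σ} (Finset.singleton_nonempty σ) (by
      intro h4
      have h5 := congrArg Finset.card h4
      rw [Finset.card_singleton, Finset.card_univ, Fintype.card_fin] at h5
      omega)
    rwa [Finset.sum_singleton] at h3
  choose cw aw hcw hww using hw
  choose c a hc hxx using hx
  have hM : 1 ≤ M := by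
    have h1 : cw ⟨0, by omega⟩ 0 ≠ 0 := by
      intro h2
      apply hA0 ⟨0, by omega⟩
      rw [hA, hww, Fin.sum_univ_one, h2, zero_mul, zero_mul]
    exact (one_le_hs h1).trans (hs_le (hcw _ _))
  have hp : p ≤ p * k + N := by
    rcases Nat.eq_zero_or_pos k with hk | hk
    · rcases Nat.eq_zero_or_pos p with hp | hp
      · omega
      · exfalso
        apply hx0 ⟨0, hp⟩
        rw [hxx]
        subst hk
        simp
    · have := Nat.le_mul_of_pos_right p hk
      omega
  have h1 := bound (K := K) (r := p * k + N) τ e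
    (fun i j => Sum.elim (fun t : Fin p × Fin k => if t.1 = i then c i t.2 else 0) (fun _ => 0)
      ((enc p k N).symm j))
    (fun σ => cw σ 0) (fun σ => enc p k N (Sum.inr σ)) hUPP hLOW hROOT hGCDQ hMASN hq hN
    (Nat.le_add_left _ _) hp g hg
    (fun j => Sum.elim (fun t : Fin p × Fin k => a t.1 t.2) (fun σ => aw σ 0)
      ((enc p k N).symm j)) M hM D
    (by
      intro i j
      rcases (enc p k N).symm j with t | σ
      · simp only [Sum.elim_inl]
        split_ifs with h2
        · exact hs_le (hc i t.2)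
        · rw [hs_zero]
          linarith
      · simp only [Sum.elim_inr]
        rw [hs_zero]
        linarith)
    (fun σ => hs_le (hcw σ 0)) x
    (by
      intro i
      rw [hxx i, ← Equiv.sum_comp (enc p k N), Fintype.sum_sum_type, Fintype.sum_prod_type]
      simp only [Equiv.symm_apply_apply, Sum.elim_inl, Sum.elim_inr, ite_mul, zero_mul,
        Finset.sum_const_zero, add_zero]
      rw [Finset.sum_eq_single i]
      · simp
      · intro t _ ht
        simp [ht]
      · simp)
    hx0 w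
    (by
      intro σ
      rw [hww, Fin.sum_univ_one]
      simp only [Equiv.symm_apply_apply, Sum.elim_inr])
    hD (by rw [← hAeq]; exact hsum) (by rw [← hAeq]; exact hsub) (by rw [← hAeq]; exact hgcd)
  rw [← hAeq] at h1
  have h2 : Real.log |(Algebra.norm ℤ (∏ i, x i) : ℝ)| =
      ∑ i, Real.log |(Algebra.norm ℤ (x i) : ℝ)| := by
    rw [map_prod]
    push_cast
    rw [Finset.abs_prod, Real.log_prod]
    intro i _
    rw [Ne, abs_eq_zero]
    have h3 : Algebra.norm ℤ (x i) ≠ 0 := by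
      rw [Algebra.norm_ne_zero_iff]
      exact hx0 i
    exact_mod_cast h3
  rw [h2] at h1
  refine le_trans ?_ h1
  have hA1 : A ≠ 0 := by
    intro h3
    apply hA0 ⟨0, by omega⟩
    rw [h3]
    rfl
  unfold Height.logHeight
  exact Real.log_le_log (Height.mulHeight_pos _) (mulHeight_le A hA1)

end Pool.Agent.P8H51.EA
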