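import Mathlib
import Pool.Agent.P8H51.EA.Stm
import Pool.Agent.TH876.FH.Def

/-!
# Project EF (row MP_c59389_nt, Frey's height conjecture): elliptic curves with few digits
-/

set_option autoImplicit false

namespace Pool.Agent.P8H51.EA

open NumberField Pool.Agent.H458.Sp

/-- **Package JBAD** (120 lines). The prime divisors of `X` prime to `6 q` are primes of bad reduction. Let `v ∣ X`, `v ∤ 6 q`. Then `v ∤ a`: otherwise
`v ∣ 27 b ^ 2`, so `v ∣ b` and `v ∣ q`. So `j = 6912 a ^ 3 / (4 a ^ 3 + 27 b ^ 2)` has valuation greater than one at `v` (`6912 = 2 ^ 8 * 27`), while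
`GoodAt v E` implies that the valuation of `j = c₄ ^ 3 / Δ` is at most one: `j` does not change under a change of variables (`c₄` and `Δ` are multiplied
by `u⁻¹ ^ 4`, `u⁻¹ ^ 12`: `WeierstrassCurve.variableChange_c₄`, `variableChange_Δ`), `c₄` of an integral equation is integral and its `Δ` is a unit. As the
ideal of `X` is squarefree, its norm is the product of the norms of the `v ∣ X`; those dividing `6 q` contribute at most `(6 q) ^ n`; the
set of bad primes is finite (`Pool.Agent.TH876.TT.bad`; or copy its proof, 20 lines, to avoid the import). -/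
def S_JBAD : Prop :=
  ∀ (K : Type) [Field K] [NumberField K] (E : WeierstrassCurve K) (a b X : 𝓞 K) (q : ℕ), E.Δ ≠ 0 →
    4 * a ^ 3 + 27 * b ^ 2 ≠ 0 →
    E.c₄ ^ 3 / E.Δ = 6912 * (a : K) ^ 3 / (4 * (a : K) ^ 3 + 27 * (b : K) ^ 2) →
    0 < q → (q : 𝓞 K) ∈ Ideal.span {a, b} → X ≠ 0 → Squarefree (Ideal.span {X}) →
    X ∣ 4 * a ^ 3 + 27 * b ^ 2 →
    |(Algebra.norm ℤ X : ℝ)| ≤ Pool.Agent.TH876.FH.badNorm E * (6 * (q : ℝ)) ^ (Module.finrank ℚ K)

/-- **Package JHT** (60 lines). The height of `j`: `Height.logHeight₁ (x / y)` is the height of `(x, y)` (`Height.logHeight₁_div_eq_logHeight` or the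
multiplicative version), and for integral `x`, `y` it is at most the sum over the embeddings of `log max (‖x‖, ‖y‖)`
(`mulHeight_le` in `Pool/Agent/P8H51/EA/Ht.lean`, with `Fin 2`). -/
def S_JHT : Prop :=
  ∀ (K : Type) [Field K] [NumberField K] (a b : 𝓞 K), 4 * a ^ 3 + 27 * b ^ 2 ≠ 0 →
    Height.logHeight₁ (6912 * (a : K) ^ 3 / (4 * (a : K) ^ 3 + 27 * (b : K) ^ 2)) ≤
      Real.log (∏ φ : K →+* ℂ, (⨆ σ, ‖em φ ((![4 * a ^ 3, 27 * b ^ 2, -(4 * a ^ 3 + 27 * b ^ 2)] : Fin 3 → 𝓞 K) σ)‖)) +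
        Module.finrank ℚ K * Real.log 1728

end Pool.Agent.P8H51.EA
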