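import Mathlib
import Pool.Agent.P8H51.EA.FinalP
import Pool.Agent.P8H51.EA.FalL
import Pool.Agent.P8H51.EA.Stm4
import Pool.Agent.P8H51.EA.Bmg
import Pool.Agent.P8H71.EA.Common
import Pool.Agent.P8H71.EA.Gcdq
import Pool.Agent.P8H71.EA.Jht
import Pool.Agent.P8H75.EF.Jbad

/-!
# Project EF: elliptic curves with few digits, assembly
-/

set_option autoImplicit false

namespace Pool.Agent.P8H51.EA

open Finset NumberField Pool.Agent.H458.Sp
open Pool.Agent.TH876.FH (faltings IsPeriod badNorm)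

theorem few_digit_one {K : Type} [Field K] (g : ℕ) (M : ℝ) (c : 𝓞 K) (hc : ∀ φ : K →+* ℂ, ‖φ c‖ ≤ M) :
    FewDigits g 1 M c :=
  ⟨fun _ => c, fun _ => 0, fun _ φ => hc φ, by rw [Fin.sum_univ_one, pow_zero, mul_one]⟩

theorem few_mono {K : Type} [Field K] {g k : ℕ} {M M' : ℝ} {y : 𝓞 K} (h : FewDigits g k M y)
    (hM : M ≤ M') : FewDigits g k M' y := by
  obtain ⟨c, a, hc, hy⟩ := h
  exact ⟨c, a, fun j φ => (hc j φ).trans hM, hy⟩

/-- a constant times a power of one digit is one digit -/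
theorem few_pow {K : Type} [Field K] {g : ℕ} {M M' : ℝ} {y : 𝓞 K} (s m : ℕ)
    (h : FewDigits g 1 M y) (hM : 0 ≤ M) (hM' : s * M ^ m ≤ M') :
    FewDigits g 1 M' ((s : 𝓞 K) * y ^ m) := by
  obtain ⟨c, a, hc, hy⟩ := h
  refine ⟨fun j => s * c j ^ m, fun j => a j * m, fun j φ => ?_, ?_⟩
  · have h1 : φ (((s : 𝓞 K) * c j ^ m : 𝓞 K) : K) = s * φ (c j) ^ m := by
      push_cast
      rw [map_mul, map_pow, map_natCast]
    rw [h1, norm_mul, norm_pow, Complex.norm_natCast]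
    refine le_trans ?_ hM'
    exact mul_le_mul_of_nonneg_left (pow_le_pow_left₀ (norm_nonneg _) (hc j φ) m)
      (Nat.cast_nonneg _)
  · rw [hy, Fin.sum_univ_one, Fin.sum_univ_one, mul_pow, ← pow_mul]
    ring

theorem few_neg {K : Type} [Field K] {g k : ℕ} {M : ℝ} {y : 𝓞 K} (h : FewDigits g k M y) :
    FewDigits g k M (-y) := by
  obtain ⟨c, a, hc, hy⟩ := h
  refine ⟨fun j => -c j, a, fun j φ => ?_, ?_⟩
  · have h1 : φ ((-c j : 𝓞 K) : K) = -φ (c j) := by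
      push_cast
      rw [map_neg]
    rw [h1, norm_neg]
    exact hc j φ
  · rw [hy, ← Finset.sum_neg_distrib]
    exact Finset.sum_congr rfl fun j _ => by ring

theorem sub3 {R : Type} [AddCommGroup R] (A : Fin 3 → R) (hA0 : ∀ σ, A σ ≠ 0)
    (hsum : ∑ σ, A σ = 0) :
    ∀ s : Finset (Fin 3), s.Nonempty → s ≠ univ → ∑ σ ∈ s, A σ ≠ 0 := by
  intro s hs1 hs2 h2
  have h3 : s.card ≤ 2 := by
    have h4 := Finset.card_lt_univ_of_notMem
      (Classical.choose_spec (not_forall.1 fun h => hs2 (Finset.eq_univ_iff_forall.2 h)))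
    rw [Fintype.card_fin] at h4
    omega
  have h4 : ∑ σ ∈ sᶜ, A σ = 0 := by
    have h5 := Finset.sum_add_sum_compl s A
    rw [h2, zero_add, hsum] at h5
    exact h5
  have h5 : s.card + sᶜ.card = 3 := by
    rw [Finset.card_add_card_compl, Fintype.card_fin]
  have h6 : 1 ≤ s.card := hs1.card_pos
  have h7 : s.card = 1 ∨ sᶜ.card = 1 := by omega
  rcases h7 with h7 | h7
  · obtain ⟨σ, hσ⟩ := Finset.card_eq_one.1 h7
    rw [hσ, Finset.sum_singleton] at h2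
    exact hA0 σ h2
  · obtain ⟨σ, hσ⟩ := Finset.card_eq_one.1 h7
    rw [hσ, Finset.sum_singleton] at h4
    exact hA0 σ h4

theorem mem_span_pow {R : Type} [CommRing R] (a b q : R) (h : q ∈ Ideal.span {a, b}) :
    ∃ s t : R, q ^ 4 = s * a ^ 3 + t * b ^ 2 := by
  obtain ⟨x, y, hxy⟩ := Ideal.mem_span_pair.1 h
  refine ⟨x ^ 4 * a + 4 * x ^ 3 * y * b, 6 * x ^ 2 * y ^ 2 * a ^ 2 + 4 * x * y ^ 3 * a * b +
    y ^ 4 * b ^ 2, ?_⟩
  rw [← hxy]
  ring

theorem norm_le_prod {K : Type} [Field K] [NumberField K] (A : Fin 3 → 𝓞 K) (σ : Fin 3) :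
    |(Algebra.norm ℤ (A σ) : ℝ)| ≤ ∏ φ : K →+* ℂ, (⨆ σ, ‖em φ (A σ)‖) := by
  rw [Pool.Agent.P8H71.EA.absnorm_prod]
  exact Finset.prod_le_prod (fun _ _ => norm_nonneg _) fun φ _ =>
    le_ciSup (f := fun σ => ‖em φ (A σ)‖) (Set.finite_range _).bddAbove σ

theorem one_le_badNorm {K : Type} [Field K] [NumberField K] (E : WeierstrassCurve K)
    (hE : E.Δ ≠ 0) : 1 ≤ badNorm E := by
  have hfin := Pool.Agent.P8H75.EF.bad_fin E hE
  have h1 : badNorm E = ∏ w ∈ hfin.toFinset, (Ideal.absNorm w.asIdeal : ℝ) :=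
    finprod_mem_eq_finite_toFinset_prod _ hfin
  rw [h1]
  calc (1 : ℝ) = ∏ _w ∈ hfin.toFinset, (1 : ℝ) := by rw [Finset.prod_const_one]
    _ ≤ _ := Finset.prod_le_prod (fun _ _ => zero_le_one) fun w _ => by
      have h2 : 0 < Ideal.absNorm w.asIdeal := Ideal.absNorm_pos_iff_mem_nonZeroDivisors.2
        (mem_nonZeroDivisors_of_ne_zero w.ne_bot)
      exact_mod_cast h2

theorem height_special (hJHT : S_JHT) {K : Type} [Field K] [NumberField K] (j : K) (a b : 𝓞 K)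
    (hj : j = 6912 * (a : K) ^ 3 / (4 * (a : K) ^ 3 + 27 * (b : K) ^ 2)) (hab : a = 0 ∨ b = 0) :
    Height.logHeight₁ j ≤ Module.finrank ℚ K * (Real.log 4 + Real.log 1728) := by
  have hn : (0 : ℝ) ≤ Module.finrank ℚ K := Nat.cast_nonneg _
  have hl4 : 0 ≤ Real.log 4 := Real.log_nonneg (by norm_num)
  have hl1728 : 0 ≤ Real.log 1728 := Real.log_nonneg (by norm_num)
  rcases eq_or_ne a 0 with ha | ha
  · have h1 : j = 0 := by
      rw [hj, ha]
      simp
    rw [h1, Height.logHeight₁_zero]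
    positivity
  · have hb : b = 0 := hab.resolve_left ha
    have haK : (a : K) ≠ 0 := by exact_mod_cast ha
    have h4 : (4 : 𝓞 K) ≠ 0 := by exact_mod_cast (by norm_num : (4 : ℕ) ≠ 0)
    have h1 : j = 6912 * ((1 : 𝓞 K) : K) ^ 3 / (4 * ((1 : 𝓞 K) : K) ^ 3 + 27 * ((0 : 𝓞 K) : K) ^ 2) := by
      rw [hj, hb]
      push_cast
      field_simp
      ring
    have h2 := hJHT K 1 0 (by simp)
    rw [← h1] at h2
    refine h2.trans ?_
    have h44 : ∀ φ : K →+* ℂ, em φ (4 : 𝓞 K) = 4 := fun φ => map_ofNat (em φ) 4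
    have h3 : ∏ φ : K →+* ℂ, (⨆ σ, ‖em φ ((![4 * (1 : 𝓞 K) ^ 3, 27 * (0 : 𝓞 K) ^ 2,
        -(4 * (1 : 𝓞 K) ^ 3 + 27 * (0 : 𝓞 K) ^ 2)] : Fin 3 → 𝓞 K) σ)‖) ≤
        ∏ _φ : K →+* ℂ, (4 : ℝ) := by
      refine Finset.prod_le_prod (fun φ _ => Real.iSup_nonneg fun _ => norm_nonneg _) fun φ _ => ?_
      refine ciSup_le fun σ => ?_
      fin_cases σ
      · simp [h44]
      · simp
      · simp [h44]
    rw [Finset.prod_const, Finset.card_univ, NumberField.Embeddings.card] at h3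
    have h5 : 0 < ∏ φ : K →+* ℂ, (⨆ σ, ‖em φ ((![4 * (1 : 𝓞 K) ^ 3, 27 * (0 : 𝓞 K) ^ 2,
        -(4 * (1 : 𝓞 K) ^ 3 + 27 * (0 : 𝓞 K) ^ 2)] : Fin 3 → 𝓞 K) σ)‖) := by
      refine Finset.prod_pos fun φ _ => ?_
      refine lt_of_lt_of_le ?_ (le_ciSup (f := fun σ => ‖em φ ((![4 * (1 : 𝓞 K) ^ 3,
        27 * (0 : 𝓞 K) ^ 2, -(4 * (1 : 𝓞 K) ^ 3 + 27 * (0 : 𝓞 K) ^ 2)] : Fin 3 → 𝓞 K) σ)‖)
        (Set.finite_range _).bddAbove 0)
      simp [h44]
    have h6 := Real.log_le_log h5 h3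
    rw [Real.log_pow] at h6
    rw [mul_add]
    linarith

/-- the exponents of `a`, `b`, `4 a ^ 3 + 27 b ^ 2` in the triple -/
def cexp : Fin 3 → ℕ := ![3, 2, 1]

theorem frey (hJBAD : S_JBAD) (hJHT : S_JHT) : ∃ c₀ : ℝ, 0 ≤ c₀ ∧
    ∀ (K : Type) [Field K] [NumberField K] (E : WeierstrassCurve K)
      (t : InfinitePlace K → UpperHalfPlane) (a b : 𝓞 K) (g k p D q : ℕ) (M : ℝ)
      (τ : Fin p → Fin 3) (x : Fin p → 𝓞 K) (e : Fin p → ℕ) (w : Fin 3 → 𝓞 K), E.Δ ≠ 0 →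
      IsPeriod (E.c₄ ^ 3 / E.Δ) t →
      E.c₄ ^ 3 / E.Δ = 6912 * (a : K) ^ 3 / (4 * (a : K) ^ 3 + 27 * (b : K) ^ 2) →
      4 * a ^ 3 + 27 * b ^ 2 ≠ 0 → 2 ≤ g → 1 ≤ q → (q : 𝓞 K) ∈ Ideal.span {a, b} → 1 ≤ M →
      (∀ i, FewDigits g k M (x i)) → (∀ σ, FewDigits g 1 M (w σ)) → (∀ i, 1 ≤ e i) →
      (∀ σ, ∑ i with τ i = σ, e i < D) →
      a = w 0 * ∏ i with τ i = 0, x i ^ e i → b = w 1 * ∏ i with τ i = 1, x i ^ e i →
      4 * a ^ 3 + 27 * b ^ 2 = w 2 * ∏ i with τ i = 2, x i ^ e i →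
      Squarefree (Ideal.span {∏ i with τ i = 2, x i}) →
      Module.finrank ℚ K * faltings (E.c₄ ^ 3 / E.Δ) t ≤
        1 / 2 * Real.log (badNorm E) + c₀ * Module.finrank ℚ K +
        (864 * (D * Module.finrank ℚ K * (p * k + 3 : ℕ) * (1 + Real.log (q * M)))) ^
          (2 * (p * k + 3) ^ 3) := by
  classical
  obtain ⟨c, hc0, hfal⟩ := fal_two
  refine ⟨(Real.log 1728 + c) / 12 + 1, by
    have := Real.log_nonneg (by norm_num : (1 : ℝ) ≤ 1728)
    positivity, ?_⟩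
  intro K _ _ E t a b g k p D q M τ x e w hE ht hj hΔ hg hq hgcd hM hdx hdw he heD
    hfa hfb hfac hsq
  have hqR : (1 : ℝ) ≤ q := by exact_mod_cast hq
  have hqM : (1 : ℝ) ≤ q * M := one_le_mul_of_one_le_of_one_le hqR hM
  have hDp : 1 ≤ D := by
    have := heD 0
    omega
  have hDR : (1 : ℝ) ≤ D := by exact_mod_cast hDp
  have hrR : (1 : ℝ) ≤ (p * k + 3 : ℕ) := by exact_mod_cast (by omega)
  obtain ⟨n, hn⟩ : ∃ n : ℕ, n = Module.finrank ℚ K := ⟨_, rfl⟩
  have hn1 : 1 ≤ n := by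
    rw [hn]
    exact Module.finrank_pos
  have hnR : (1 : ℝ) ≤ n := by exact_mod_cast hn1
  obtain ⟨V, hV⟩ : ∃ V : ℝ, V = 1 + Real.log (q * M) := ⟨_, rfl⟩
  have hlqM : 0 ≤ Real.log (q * M) := Real.log_nonneg hqM
  have hV1 : 1 ≤ V := by rw [hV]; linarith
  obtain ⟨T, hT⟩ : ∃ T : ℝ, T = (864 * (D * Module.finrank ℚ K * (p * k + 3 : ℕ) *
      (1 + Real.log (q * M)))) ^ (2 * (p * k + 3) ^ 3) := ⟨_, rfl⟩
  have hbase : (n : ℝ) * V ≤ 864 * (D * n * (p * k + 3 : ℕ) * V) := by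
    have h6 : (1 : ℝ) ≤ D * (p * k + 3 : ℕ) := one_le_mul_of_one_le_of_one_le hDR hrR
    have h7 : (n : ℝ) * V ≤ (D * (p * k + 3 : ℕ)) * (n * V) :=
      le_mul_of_one_le_left (by positivity) h6
    have h8 : (D : ℝ) * n * (p * k + 3 : ℕ) * V = (D * (p * k + 3 : ℕ)) * (n * V) := by ring
    rw [h8]
    have h9 : (0 : ℝ) ≤ (D * (p * k + 3 : ℕ)) * (n * V) := by positivity
    linarith
  have hbase1 : (1 : ℝ) ≤ 864 * (D * n * (p * k + 3 : ℕ) * V) :=
    le_trans (one_le_mul_of_one_le_of_one_le hnR hV1) hbase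
  have hTn : (n : ℝ) * V ≤ T := by
    rw [hT, ← hV, ← hn]
    exact hbase.trans (le_self_pow₀ hbase1 (by positivity))
  have hT0 : 0 ≤ T := le_trans (by positivity) hTn
  by_cases hab : a = 0 ∨ b = 0
  · have h1 := height_special hJHT (E.c₄ ^ 3 / E.Δ) a b hj hab
    have h2 := hfal K (E.c₄ ^ 3 / E.Δ) t ht
    have h3 := Real.log_nonneg (one_le_badNorm E hE)
    rw [← hT]
    have h6 : Real.log 4 ≤ 2 := by
      have h7 : Real.log 4 = 2 * Real.log 2 := by
        rw [show (4 : ℝ) = 2 ^ 2 by norm_num, Real.log_pow]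
        norm_num
      rw [h7]
      linarith [Real.log_two_lt_d9]
    have hn0 : (0 : ℝ) ≤ Module.finrank ℚ K := Nat.cast_nonneg _
    have h8 := mul_le_mul_of_nonneg_left h6 hn0
    have h9 : ((Real.log 1728 + c) / 12 + 1) * (Module.finrank ℚ K : ℝ) =
      (Module.finrank ℚ K * Real.log 1728 + c * Module.finrank ℚ K) / 12 +
        Module.finrank ℚ K := by ring
    rw [h9]
    have h10 : 12 * (Module.finrank ℚ K * faltings (E.c₄ ^ 3 / E.Δ) t) =
      12 * Module.finrank ℚ K * faltings (E.c₄ ^ 3 / E.Δ) t := by ring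
    linarith
  have ha : a ≠ 0 := fun h => hab (Or.inl h)
  have hb : b ≠ 0 := fun h => hab (Or.inr h)
  have h4 : (4 : 𝓞 K) ≠ 0 := by exact_mod_cast (by norm_num : (4 : ℕ) ≠ 0)
  have h27 : (27 : 𝓞 K) ≠ 0 := by exact_mod_cast (by norm_num : (27 : ℕ) ≠ 0)
  -- the three products
  obtain ⟨B, hB⟩ : ∃ B : Fin 3 → 𝓞 K, B = ![a, b, 4 * a ^ 3 + 27 * b ^ 2] := ⟨_, rfl⟩
  have hB0 : ∀ σ, B σ ≠ 0 := by
    intro σ
    rw [hB]
    fin_cases σ
    · exact ha
    · exact hb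
    · exact hΔ
  have hBx : ∀ σ, B σ = w σ * ∏ i with τ i = σ, x i ^ e i := by
    intro σ
    rw [hB]
    fin_cases σ
    · exact hfa
    · exact hfb
    · exact hfac
  have hx0 : ∀ i, x i ≠ 0 := by
    intro i h
    apply hB0 (τ i)
    have hz : ∏ j with τ j = τ i, x j ^ e j = 0 :=
      Finset.prod_eq_zero (Finset.mem_filter.2 ⟨Finset.mem_univ i, rfl⟩)
        (by rw [h, zero_pow (by have := he i; omega)])
    rw [hBx, hz, mul_zero]
  have hw0 : ∀ σ, w σ ≠ 0 := by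
    intro σ h
    apply hB0 σ
    rw [hBx, h, zero_mul]
  obtain ⟨A, hA⟩ : ∃ A : Fin 3 → 𝓞 K,
      A = ![4 * a ^ 3, 27 * b ^ 2, -(4 * a ^ 3 + 27 * b ^ 2)] := ⟨_, rfl⟩
  have hA0 : ∀ σ, A σ ≠ 0 := by
    intro σ
    rw [hA]
    fin_cases σ
    · exact mul_ne_zero h4 (pow_ne_zero _ ha)
    · exact mul_ne_zero h27 (pow_ne_zero _ hb)
    · exact neg_ne_zero.2 hΔ
  have hsum : ∑ σ, A σ = 0 := by
    rw [hA, Fin.sum_univ_three]
    show 4 * a ^ 3 + 27 * b ^ 2 + -(4 * a ^ 3 + 27 * b ^ 2) = 0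
    ring
  have hM0 : (0 : ℝ) ≤ M := by linarith
  have hM3 : M ≤ M ^ 3 := le_self_pow₀ hM (by norm_num)
  have hM27 : M ≤ 27 * M ^ 3 := by
    have : 0 ≤ M ^ 3 := by positivity
    linarith
  -- the exponents
  have hexp : ∀ σ, ∏ i with τ i = σ, x i ^ (cexp (τ i) * e i) =
      (∏ i with τ i = σ, x i ^ e i) ^ cexp σ := by
    intro σ
    rw [← Finset.prod_pow]
    refine Finset.prod_congr rfl fun i hi => ?_
    rw [(Finset.mem_filter.1 hi).2, ← pow_mul, mul_comm]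
  -- the inequality for few digits
  have hmain := finalP Pool.Agent.P8H71.EA.upp Pool.Agent.P8H71.EA.low
    Pool.Agent.P8H71.EA.root Pool.Agent.P8H71.EA.gcdq Pool.Agent.P8H51.EA.Bm.masn
    K 3 p k (3 * D) (108 * q ^ 4) g (27 * M ^ 3) le_rfl hg (by positivity)
    τ (fun i => cexp (τ i) * e i)
    (by
      intro σ
      have h1 : ∑ i with τ i = σ, cexp (τ i) * e i = cexp σ * ∑ i with τ i = σ, e i := by
        rw [Finset.mul_sum]
        exact Finset.sum_congr rfl fun i hi => by rw [(Finset.mem_filter.1 hi).2]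
      rw [h1]
      have h2 : cexp σ ≤ 3 := by
        fin_cases σ <;> decide
      have h3 := heD σ
      calc cexp σ * ∑ i with τ i = σ, e i ≤ 3 * ∑ i with τ i = σ, e i :=
            Nat.mul_le_mul_right _ h2
        _ < 3 * D := by omega)
    x (fun i => few_mono (hdx i) hM27) hx0
    ![(4 : ℕ) * w 0 ^ 3, (27 : ℕ) * w 1 ^ 2, -w 2]
    (by
      intro σ
      fin_cases σ
      · refine few_pow 4 3 (hdw 0) hM0 ?_
        have : 0 ≤ M ^ 3 := by positivity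
        push_cast
        linarith
      · refine few_pow 27 2 (hdw 1) hM0 ?_
        have : M ^ 2 ≤ M ^ 3 := pow_le_pow_right₀ hM (by norm_num)
        push_cast
        linarith
      · exact few_neg (few_mono (hdw 2) hM27))
    A
    (by
      intro σ
      rw [hexp, hA]
      fin_cases σ
      · show 4 * a ^ 3 = (4 : ℕ) * w 0 ^ 3 * (∏ i with τ i = 0, x i ^ e i) ^ 3
        rw [mul_assoc, ← mul_pow, ← hfa]
        push_cast
        ring
      · show 27 * b ^ 2 = (27 : ℕ) * w 1 ^ 2 * (∏ i with τ i = 1, x i ^ e i) ^ 2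
        rw [mul_assoc, ← mul_pow, ← hfb]
        push_cast
        ring
      · show -(4 * a ^ 3 + 27 * b ^ 2) = -w 2 * (∏ i with τ i = 2, x i ^ e i) ^ 1
        rw [pow_one, neg_mul, ← hfac])
    hsum (sub3 A hA0 hsum)
    (by
      obtain ⟨s, u, hsu⟩ := mem_span_pow a b (q : 𝓞 K) hgcd
      rw [Ideal.mem_span_range_iff_exists_fun]
      refine ⟨![27 * s, 4 * u, 0], ?_⟩
      rw [hA, Fin.sum_univ_three]
      show 27 * s * (4 * a ^ 3) + 4 * u * (27 * b ^ 2) + 0 * _ = _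
      push_cast
      rw [hsu]
      ring)
  obtain ⟨H, hH⟩ : ∃ H : ℝ, H = ∏ φ : K →+* ℂ, (⨆ σ, ‖em φ (A σ)‖) := ⟨_, rfl⟩
  have hκ : ((3 - 1) * (3 - 2) / 2 * max 1 (3 - 3) : ℕ) = 1 := by decide
  rw [← hH, hκ, Nat.cast_one, one_mul] at hmain
  -- the explicit constant
  have hTT : (32 * ((3 * D : ℕ) * Module.finrank ℚ K * (p * k + 3 : ℕ) *
      (1 + Real.log ((108 * q ^ 4 : ℕ) * (27 * M ^ 3))))) ^ (2 * (p * k + 3) ^ 3) ≤ T := by
    rw [hT]
    have hlog : 1 + Real.log ((108 * q ^ 4 : ℕ) * (27 * M ^ 3)) ≤ 9 * (1 + Real.log (q * M)) := by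
      have h1 : (((108 * q ^ 4 : ℕ) : ℝ) * (27 * M ^ 3)) ≤ Real.exp 8 * (q * M) ^ 9 := by
        have h2 : (2916 : ℝ) ≤ Real.exp 8 := by
          have h3 : Real.exp 8 = Real.exp 1 ^ 8 := by
            rw [← Real.exp_nat_mul]
            norm_num
          rw [h3]
          have h4 : (2.718 : ℝ) ^ 8 ≤ Real.exp 1 ^ 8 :=
            pow_le_pow_left₀ (by norm_num) (by linarith [Real.exp_one_gt_d9]) 8
          exact le_trans (by norm_num) h4
        have h3 : (q : ℝ) ^ 4 * M ^ 3 ≤ (q * M) ^ 9 := by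
          rw [mul_pow]
          exact mul_le_mul (pow_le_pow_right₀ hqR (by norm_num))
            (pow_le_pow_right₀ hM (by norm_num)) (by positivity) (by positivity)
        push_cast
        calc 108 * (q : ℝ) ^ 4 * (27 * M ^ 3) = 2916 * (q ^ 4 * M ^ 3) := by ring
          _ ≤ Real.exp 8 * (q * M) ^ 9 := mul_le_mul h2 h3 (by positivity) (by positivity)
      have h2 : 0 < (((108 * q ^ 4 : ℕ) : ℝ) * (27 * M ^ 3)) := by positivity
      have h3 := Real.log_le_log h2 h1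
      rw [Real.log_mul (Real.exp_pos _).ne' (by positivity), Real.log_exp, Real.log_pow] at h3
      push_cast at h3 ⊢
      linarith
    have h1 : 0 ≤ 1 + Real.log ((108 * q ^ 4 : ℕ) * (27 * M ^ 3)) := by
      have h2 : 0 ≤ Real.log ((108 * q ^ 4 : ℕ) * (27 * M ^ 3)) := by
        apply Real.log_nonneg
        have h3 : (1 : ℝ) ≤ ((108 * q ^ 4 : ℕ) : ℝ) := by
          exact_mod_cast (by positivity : 0 < 108 * q ^ 4)
        exact one_le_mul_of_one_le_of_one_le h3 (by linarith)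
      linarith
    refine pow_le_pow_left₀ (by positivity) ?_ _
    calc 32 * ((3 * D : ℕ) * (Module.finrank ℚ K : ℝ) * (p * k + 3 : ℕ) *
      (1 + Real.log ((108 * q ^ 4 : ℕ) * (27 * M ^ 3)))) ≤
        32 * ((3 * D : ℕ) * (Module.finrank ℚ K : ℝ) * (p * k + 3 : ℕ) *
          (9 * (1 + Real.log (q * M)))) := by gcongr
      _ = 864 * (D * Module.finrank ℚ K * (p * k + 3 : ℕ) * (1 + Real.log (q * M))) := by
        push_cast
        ring
  have hmain2 := hmain.trans (add_le_add_right hTT _)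
  -- norms
  have hpos : ∀ {y : 𝓞 K}, y ≠ 0 → (1 : ℝ) ≤ |(Algebra.norm ℤ y : ℝ)| := by
    intro y hy
    have h2 := Int.one_le_abs (Algebra.norm_ne_zero_iff.2 hy : Algebra.norm ℤ y ≠ 0)
    exact_mod_cast h2
  obtain ⟨L, hL⟩ : ∃ L : Fin 3 → ℝ, ∀ σ, L σ = ∑ i with τ i = σ,
      Real.log |(Algebra.norm ℤ (x i) : ℝ)| := ⟨_, fun _ => rfl⟩
  have hLsum : ∑ i, Real.log |(Algebra.norm ℤ (x i) : ℝ)| = L 0 + L 1 + L 2 := by
    rw [← Fin.sum_univ_three, ← Finset.sum_fiberwise _ τ]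
    exact Finset.sum_congr rfl fun σ _ => (hL σ).symm
  have hLB : ∀ σ, L σ ≤ Real.log |(Algebra.norm ℤ (B σ) : ℝ)| := by
    intro σ
    rw [hL, hBx, map_mul, map_prod]
    push_cast
    rw [abs_mul, Finset.abs_prod]
    have h1 : 0 < |(Algebra.norm ℤ (w σ) : ℝ)| := by
      have := hpos (hw0 σ)
      linarith
    have h2 : ∀ i ∈ univ.filter (fun i => τ i = σ),
        |((Algebra.norm ℤ (x i ^ e i) : ℤ) : ℝ)| ≠ 0 := by
      intro i _
      have := hpos (pow_ne_zero (e i) (hx0 i))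
      linarith
    rw [Real.log_mul h1.ne' (Finset.prod_ne_zero_iff.2 h2), Real.log_prod h2]
    have h3 : 0 ≤ Real.log |(Algebra.norm ℤ (w σ) : ℝ)| := Real.log_nonneg (hpos (hw0 σ))
    have h4 : ∑ i with τ i = σ, Real.log |(Algebra.norm ℤ (x i) : ℝ)| ≤
        ∑ i with τ i = σ, Real.log |((Algebra.norm ℤ (x i ^ e i) : ℤ) : ℝ)| := by
      refine Finset.sum_le_sum fun i _ => ?_
      rw [map_pow]
      push_cast
      rw [abs_pow]
      refine Real.log_le_log (by have := hpos (hx0 i); linarith) ?_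
      exact le_self_pow₀ (hpos (hx0 i)) (by have := he i; omega)
    linarith
  have hHa : 3 * Real.log |(Algebra.norm ℤ a : ℝ)| ≤ Real.log H := by
    have h1 := norm_le_prod A 0
    rw [← hH] at h1
    have h2 : |(Algebra.norm ℤ a : ℝ)| ^ 3 ≤ |(Algebra.norm ℤ (A 0) : ℝ)| := by
      rw [hA]
      show _ ≤ |(Algebra.norm ℤ (4 * a ^ 3) : ℝ)|
      rw [map_mul, map_pow]
      push_cast
      rw [abs_mul, abs_pow]
      exact le_mul_of_one_le_left (by positivity) (hpos h4)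
    have h3 := Real.log_le_log (by have := hpos ha; positivity) (h2.trans h1)
    rwa [Real.log_pow] at h3
  have hHb : 2 * Real.log |(Algebra.norm ℤ b : ℝ)| ≤ Real.log H := by
    have h1 := norm_le_prod A 1
    rw [← hH] at h1
    have h2 : |(Algebra.norm ℤ b : ℝ)| ^ 2 ≤ |(Algebra.norm ℤ (A 1) : ℝ)| := by
      rw [hA]
      show _ ≤ |(Algebra.norm ℤ (27 * b ^ 2) : ℝ)|
      rw [map_mul, map_pow]
      push_cast
      rw [abs_mul, abs_pow]
      exact le_mul_of_one_le_left (by positivity) (hpos h27)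
    have h3 := Real.log_le_log (by have := hpos hb; positivity) (h2.trans h1)
    rwa [Real.log_pow] at h3
  have hLa : L 0 ≤ Real.log |(Algebra.norm ℤ a : ℝ)| := by
    have := hLB 0
    rw [hB] at this
    exact this
  have hLb : L 1 ≤ Real.log |(Algebra.norm ℤ b : ℝ)| := by
    have := hLB 1
    rw [hB] at this
    exact this
  -- the conductor
  obtain ⟨X, hX⟩ : ∃ X : 𝓞 K, X = ∏ i with τ i = 2, x i := ⟨_, rfl⟩
  have hX0 : X ≠ 0 := by
    rw [hX]
    exact Finset.prod_ne_zero_iff.2 fun i _ => hx0 i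
  have hbad := hJBAD K E a b X q hE hΔ hj hq hgcd hX0 (by rw [hX]; exact hsq) (by
    rw [hfac, hX]
    refine Dvd.dvd.mul_left ?_ _
    exact Finset.prod_dvd_prod_of_dvd _ _ fun i _ => dvd_pow_self _ (by have := he i; omega))
  have hlogX : L 2 = Real.log |(Algebra.norm ℤ X : ℝ)| := by
    rw [hL, hX, map_prod]
    push_cast
    rw [Finset.abs_prod, Real.log_prod]
    intro i _
    have := hpos (hx0 i)
    positivity
  have hbn : 0 < badNorm E := by
    have := one_le_badNorm E hE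
    linarith
  have hlogX2 : L 2 ≤ Real.log (badNorm E) + n * (2 + Real.log q) := by
    rw [hlogX]
    have h1 := Real.log_le_log (by have := hpos hX0; positivity) hbad
    rw [Real.log_mul hbn.ne' (by positivity), Real.log_pow, Real.log_mul (by norm_num)
      (by positivity), ← hn] at h1
    have h2 : Real.log 6 ≤ 2 := by
      rw [Real.log_le_iff_le_exp (by norm_num)]
      have h3 : Real.exp 2 = Real.exp 1 ^ 2 := by
        rw [← Real.exp_nat_mul]
        norm_num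
      rw [h3]
      nlinarith [Real.exp_one_gt_d9]
    have h3 : (n : ℝ) * (Real.log 6 + Real.log q) ≤ n * (2 + Real.log q) :=
      mul_le_mul_of_nonneg_left (by linarith) (by positivity)
    linarith
  -- the height of `j`
  have hht := hJHT K a b hΔ
  rw [← hA, ← hH, ← hj, ← hn] at hht
  have hf := hfal K (E.c₄ ^ 3 / E.Δ) t ht
  rw [← hn] at hf
  -- the constant
  have hTq : n * Real.log q ≤ T := by
    refine le_trans ?_ hTn
    refine mul_le_mul_of_nonneg_left ?_ (by positivity)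
    rw [hV]
    have h1 : Real.log q ≤ Real.log (q * M) :=
      Real.log_le_log (by linarith) (le_mul_of_one_le_right (by linarith) hM)
    linarith
  rw [← hT, ← hn]
  rw [hLsum] at hmain2
  -- combine
  have h1 : Real.log H ≤ 6 * L 2 + 6 * T := by linarith
  have h2 : (n : ℝ) * (2 + Real.log q) = 2 * n + n * Real.log q := by ring
  have h3 : ((Real.log 1728 + c) / 12 + 1) * (n : ℝ) =
      (n * Real.log 1728 + c * n) / 12 + n := by ring
  rw [h3]
  rw [h2] at hlogX2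
  have h5 : 12 * ((n : ℝ) * faltings (E.c₄ ^ 3 / E.Δ) t) =
    12 * n * faltings (E.c₄ ^ 3 / E.Δ) t := by ring
  linarith

end Pool.Agent.P8H51.EA
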