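import Mathlib
import Pool.Agent.P8H51.EA.FinalU
import Pool.Agent.P8H51.EA.Bmg
import Pool.Agent.P8H88.EA.Gctq

/-!
# Products of small spread whose bases have few digits to the base of a unit
-/

set_option autoImplicit false

namespace Pool.Agent.P8H51.EA.Luc

open Finset NumberField Pool.Agent.H458.Sp Pool.Agent.P8H51.EA

/-- multiplicities of the factors of a product (copy of `Pool.Agent.P8H51.SB.rep_mult`) -/
theorem rep_mult {n : ℕ} (x : Fin n → ℕ) (b s D : ℕ) (hsD : s ≤ D)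
    (hx : ∀ i, b ≤ x i ∧ x i ≤ b + s) : ∃ E : Fin (D + 1) → ℕ,
      ∑ j, E j = n ∧ (∀ j : Fin (D + 1), s < (j : ℕ) → E j = 0) ∧
      ∏ i, x i = ∏ j : Fin (D + 1), (b + j) ^ E j := by
  classical
  have hf : ∀ i, x i - b < D + 1 := fun i => by have := hx i; omega
  set f : Fin n → Fin (D + 1) := fun i => ⟨x i - b, hf i⟩ with hfdef
  refine ⟨fun j => (univ.filter fun i => f i = j).card, ?_, ?_, ?_⟩
  · simp only
    rw [← Finset.card_eq_sum_card_fiberwise (f := f) (s := univ) (t := univ)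
      (fun _ _ => Finset.mem_coe.2 (Finset.mem_univ _)), Finset.card_univ, Fintype.card_fin]
  · intro j hj
    simp only
    rw [Finset.card_eq_zero, Finset.filter_eq_empty_iff]
    intro i _ hi
    have h1 := hx i
    have h2 : x i - b = (j : ℕ) := by rw [← hi]
    omega
  · rw [← Finset.prod_fiberwise (g := f) Finset.univ]
    refine Finset.prod_congr rfl fun j _ => ?_
    have h1 : ∀ i ∈ univ.filter (fun i => f i = j), x i = b + (j : ℕ) := by
      intro i hi
      have h2 : f i = j := (Finset.mem_filter.1 hi).2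
      have h3 : x i - b = (j : ℕ) := by rw [← h2]
      have h4 := hx i
      omega
    rw [Finset.prod_congr rfl h1, Finset.prod_const]

theorem fib_prod {α : Type} [CommMonoid α] {m n : ℕ} (g : Fin m → Fin n → α) (σ : Fin m) :
    ∏ i : Fin (m * n) with (finProdFinEquiv.symm i).1 = σ,
      g (finProdFinEquiv.symm i).1 (finProdFinEquiv.symm i).2 = ∏ j, g σ j := by
  classical
  rw [Finset.prod_filter, ← Equiv.prod_comp finProdFinEquiv, Fintype.prod_prod_type]
  simp only [Equiv.symm_apply_apply]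
  rw [Finset.prod_eq_single σ]
  · simp
  · intro τ _ hτ
    simp [hτ]
  · simp

theorem fib_sum {α : Type} [AddCommMonoid α] {m n : ℕ} (g : Fin m → Fin n → α) (σ : Fin m) :
    ∑ i : Fin (m * n) with (finProdFinEquiv.symm i).1 = σ,
      g (finProdFinEquiv.symm i).1 (finProdFinEquiv.symm i).2 = ∑ j, g σ j := by
  classical
  rw [Finset.sum_filter, ← Equiv.sum_comp finProdFinEquiv, Fintype.sum_prod_type]
  simp only [Equiv.symm_apply_apply]
  rw [Finset.sum_eq_single σ]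
  · simp
  · intro τ _ hτ
    simp [hτ]
  · simp

theorem sub3 {R : Type} [AddCommGroup R] (A : Fin 3 → R) (hA0 : ∀ σ, A σ ≠ 0)
    (hsum : ∑ σ, A σ = 0) :
    ∀ s : Finset (Fin 3), s.Nonempty → s ≠ univ → ∑ σ ∈ s, A σ ≠ 0 := by
  intro s hs1 hs2 h2
  have h3 : s.card ≤ 2 := by
    have h4 := Finset.card_lt_univ_of_notMem
      (Classical.choose_spec (not_forall.1 fun h => hs2 (Finset.eq_univ_iff_forall.2 h)))
    rw [Fintype.card_fin] at h4
    omega
  have h4 : ∑ σ ∈ sᶜ, A σ = 0 := by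
    have h5 := Finset.sum_add_sum_compl s A
    rw [h2, zero_add, hsum] at h5
    exact h5
  have h5 : s.card + sᶜ.card = 3 := by
    rw [Finset.card_add_card_compl, Fintype.card_fin]
  have h6 : 1 ≤ s.card := hs1.card_pos
  have h7 : s.card = 1 ∨ sᶜ.card = 1 := by omega
  rcases h7 with h7 | h7
  · obtain ⟨σ, hσ⟩ := Finset.card_eq_one.1 h7
    rw [hσ, Finset.sum_singleton] at h2
    exact hA0 σ h2
  · obtain ⟨σ, hσ⟩ := Finset.card_eq_one.1 h7
    rw [hσ, Finset.sum_singleton] at h4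
    exact hA0 σ h4

theorem log_succ_le_nat (m : ℕ) : Real.log ((m : ℝ) + 1) ≤ m := by
  have h1 : (0 : ℝ) < (m : ℝ) + 1 := by positivity
  linarith [Real.log_le_sub_one_of_pos h1]

/-- the logarithms of the different factors of one product -/
theorem log_factors {b s n' W D : ℕ} (hb : 0 < b) (E : Fin (D + 1) → ℕ) (hE : ∑ j, E j = n')
    (hW : W = ∏ j : Fin (D + 1), (b + j) ^ E j) (hn : 0 < n') (hs : s + 1 ≤ D) :
    ∑ j : Fin (D + 1), Real.log ((if (j : ℕ) ≤ s then b + j else 1 : ℕ) : ℝ) ≤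
      (1 + (s : ℝ)) / n' * Real.log W + (D : ℝ) * D := by
  have hnR : (0 : ℝ) < n' := by exact_mod_cast hn
  have hbR : (1 : ℝ) ≤ b := by exact_mod_cast hb
  have hlb : 0 ≤ Real.log b := Real.log_nonneg hbR
  have hsR : (s : ℝ) + 1 ≤ D := by exact_mod_cast hs
  have h1 : (n' : ℝ) * Real.log b ≤ Real.log W := by
    have h2 : b ^ n' ≤ W := by
      rw [hW, ← hE, ← Finset.prod_pow_eq_pow_sum]
      exact Finset.prod_le_prod' fun j _ => Nat.pow_le_pow_left (Nat.le_add_right _ _) _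
    have h3 : (b : ℝ) ^ n' ≤ W := by exact_mod_cast h2
    have h4 := Real.log_le_log (by positivity) h3
    rwa [Real.log_pow] at h4
  have h2 : ∑ j : Fin (D + 1), Real.log ((if (j : ℕ) ≤ s then b + j else 1 : ℕ) : ℝ) ≤
      ∑ j : Fin (D + 1), if (j : ℕ) ≤ s then Real.log b + s else 0 := by
    refine Finset.sum_le_sum fun j _ => ?_
    split_ifs with h
    · have h3 : ((b + (j : ℕ) : ℕ) : ℝ) ≤ b * ((s : ℝ) + 1) := by
        have h4 : ((j : ℕ) : ℝ) ≤ s := by exact_mod_cast h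
        push_cast
        nlinarith
      have h4 := Real.log_le_log (by positivity) h3
      rw [Real.log_mul (by positivity) (by positivity)] at h4
      have h5 := log_succ_le_nat s
      linarith
    · simp
  have h3 : ∑ j : Fin (D + 1), (if (j : ℕ) ≤ s then Real.log b + s else 0) =
      ((s : ℝ) + 1) * (Real.log b + s) := by
    rw [← Finset.sum_filter, Finset.sum_const, nsmul_eq_mul]
    have h4 : (univ.filter fun j : Fin (D + 1) => (j : ℕ) ≤ s).card = s + 1 := by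
      have h5 : (univ.filter fun j : Fin (D + 1) => (j : ℕ) ≤ s) =
          Finset.Iic (⟨s, by omega⟩ : Fin (D + 1)) := by
        ext j
        simp [Fin.le_def]
      rw [h5, Fin.card_Iic]
    rw [h4]
    push_cast
    ring
  rw [h3] at h2
  refine h2.trans ?_
  have h4 : Real.log b ≤ Real.log W / n' := by
    rw [le_div_iff₀ hnR]
    linarith
  have h5 : ((s : ℝ) + 1) * Real.log b ≤ ((s : ℝ) + 1) * (Real.log W / n') :=
    mul_le_mul_of_nonneg_left h4 (by positivity)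
  have h6 : ((s : ℝ) + 1) * s ≤ (D : ℝ) * D :=
    mul_le_mul hsR (by linarith) (by positivity) (by positivity)
  have h7 : (1 + (s : ℝ)) / n' * Real.log W = ((s : ℝ) + 1) * (Real.log W / n') := by ring
  rw [h7]
  linarith

/-- **the bound** -/
theorem main (K : Type) [Field K] [NumberField K] (u : (𝓞 K)ˣ) (t : ℝ) (ht : 1 < t)
    (hyp : Hyp (u : 𝓞 K) t) {A B C D k : ℕ} (hA : 0 < A) (hB : 0 < B) (hC : 0 < C) {F Q M : ℝ}
    (b s n' W : Fin 3 → ℕ) (hb : ∀ σ, 0 < b σ) (hn' : ∀ σ, 0 < n' σ) (hn'D : ∀ σ, n' σ ≤ D)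
    (hs : ∀ σ, s σ + 1 ≤ D) (E : Fin 3 → Fin (D + 1) → ℕ) (hE : ∀ σ, ∑ j, E σ j = n' σ)
    (hE0 : ∀ σ (j : Fin (D + 1)), s σ < (j : ℕ) → E σ j = 0)
    (hW : ∀ σ, W σ = ∏ j : Fin (D + 1), (b σ + j) ^ E σ j)
    (hrel : A * W 0 + B * W 1 = C * W 2) (hgcd : (Nat.gcd (W 0) (W 1) : ℝ) ≤ Q)
    (hF : ∑ σ, (1 + (s σ : ℝ)) / n' σ ≤ F)
    (cd : Fin 3 → Fin k → 𝓞 K) (ad : Fin 3 → Fin k → ℤ)
    (hcd : ∀ σ j (φ : K →+* ℂ), ‖φ (cd σ j)‖ ≤ M)
    (hbd : ∀ σ, (b σ : 𝓞 K) = ∑ j, cd σ j * ((u ^ (ad σ j) : (𝓞 K)ˣ) : 𝓞 K)) :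
    (1 - F) * Real.log ((C * W 2 : ℕ) : ℝ) ≤
      (13440 * k * D * Module.finrank ℚ K * Real.log ((A : ℝ) + B + C + D + Q + M)) ^
        (2 * (3 * k + 4) ^ 3) := by
  classical
  obtain ⟨n, hn⟩ : ∃ n : ℕ, n = Module.finrank ℚ K := ⟨_, rfl⟩
  have hn1 : 1 ≤ n := by
    rw [hn]
    exact Module.finrank_pos
  have hnR : (1 : ℝ) ≤ n := by exact_mod_cast hn1
  have hWpos : ∀ σ, 0 < W σ := fun σ => by
    rw [hW]
    exact Finset.prod_pos fun j _ => pow_pos (by have := hb σ; omega) _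
  -- digits
  have hcdex : ∃ j, cd 0 j ≠ 0 := by
    by_contra h
    push Not at h
    have h1 : (b 0 : 𝓞 K) = 0 := by
      rw [hbd]
      exact Finset.sum_eq_zero fun j _ => by rw [h j, zero_mul]
    have h2 : b 0 = 0 := by exact_mod_cast h1
    have := hb 0
    omega
  obtain ⟨j₀, hj₀⟩ := hcdex
  have hk : 1 ≤ k := lt_of_le_of_lt (Nat.zero_le _) j₀.2
  have hM : 1 ≤ M := (one_le_hs hj₀).trans (hs_le (hcd 0 j₀))
  have hkR : (1 : ℝ) ≤ k := by exact_mod_cast hk
  have hD1 : 1 ≤ D := (Nat.le_add_left _ _).trans (hs 0)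
  have hDR : (1 : ℝ) ≤ D := by exact_mod_cast hD1
  have hAR : (1 : ℝ) ≤ A := by exact_mod_cast hA
  have hBR : (1 : ℝ) ≤ B := by exact_mod_cast hB
  have hCR : (1 : ℝ) ≤ C := by exact_mod_cast hC
  have hg1 : 1 ≤ Nat.gcd (W 0) (W 1) := Nat.gcd_pos_of_pos_left _ (hWpos 0)
  have hgR : (1 : ℝ) ≤ (Nat.gcd (W 0) (W 1) : ℝ) := by exact_mod_cast hg1
  have hQ : 1 ≤ Q := hgR.trans hgcd
  obtain ⟨U, hU⟩ : ∃ U : ℝ, U = (A : ℝ) + B + C + D + Q + M := ⟨_, rfl⟩
  have hU6 : 6 ≤ U := by rw [hU]; linarith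
  obtain ⟨Mt, hMt⟩ : ∃ Mt : ℝ, Mt = (A : ℝ) + B + C + D + M := ⟨_, rfl⟩
  have hMt1 : 1 ≤ Mt := by rw [hMt]; linarith
  have hMtU : Mt ≤ U := by rw [hMt, hU]; linarith
  obtain ⟨q, hq⟩ : ∃ q : ℕ, q = A * B * Nat.gcd (W 0) (W 1) := ⟨_, rfl⟩
  have hq0 : 0 < q := by
    rw [hq]
    positivity
  have hqR : (1 : ℝ) ≤ q := by exact_mod_cast hq0
  have hlU1 : 1 ≤ Real.log U := by
    have h3 : Real.log (2 ^ 2) ≤ Real.log U := Real.log_le_log (by norm_num) (by linarith)
    rw [Real.log_pow] at h3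
    have := Real.log_two_gt_d9
    push_cast at h3
    linarith
  have hlogq : 1 + Real.log (q * Mt) ≤ 5 * Real.log U := by
    have h1 : (q : ℝ) * Mt ≤ U ^ 4 := by
      rw [hq]
      push_cast
      have h2 : (A : ℝ) ≤ U := by rw [hU]; linarith
      have h3 : (B : ℝ) ≤ U := by rw [hU]; linarith
      have h4 : (Nat.gcd (W 0) (W 1) : ℝ) ≤ U := by rw [hU]; linarith
      calc (A : ℝ) * B * (Nat.gcd (W 0) (W 1) : ℝ) * Mt ≤ U * U * U * U := by gcongr
        _ = U ^ 4 := by ring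
    have h2 := Real.log_le_log (by positivity) h1
    rw [Real.log_pow] at h2
    push_cast at h2
    linarith
  have hlqM0 : 0 ≤ Real.log (q * Mt) := Real.log_nonneg (one_le_mul_of_one_le_of_one_le hqR hMt1)
  -- the factors
  obtain ⟨xn, hxn⟩ : ∃ xn : Fin 3 → Fin (D + 1) → ℕ, ∀ σ j,
      xn σ j = if (j : ℕ) ≤ s σ then b σ + j else 1 := ⟨_, fun _ _ => rfl⟩
  have hxnpos : ∀ σ j, 0 < xn σ j := by
    intro σ j
    rw [hxn]
    have := hb σ
    split_ifs <;> omega
  have hWx : ∀ σ, W σ = ∏ j, xn σ j ^ E σ j := by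
    intro σ
    rw [hW]
    refine Finset.prod_congr rfl fun j _ => ?_
    rw [hxn]
    split_ifs with h
    · rfl
    · rw [hE0 σ j (not_le.1 h), pow_zero, pow_zero]
  obtain ⟨x, hx⟩ : ∃ x : Fin (3 * (D + 1)) → 𝓞 K, ∀ i,
      x i = ((xn (finProdFinEquiv.symm i).1 (finProdFinEquiv.symm i).2 : ℕ) : 𝓞 K) :=
    ⟨_, fun _ => rfl⟩
  have hx0 : ∀ i, x i ≠ 0 := by
    intro i
    rw [hx]
    have := hxnpos (finProdFinEquiv.symm i).1 (finProdFinEquiv.symm i).2
    exact_mod_cast this.ne'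
  obtain ⟨AA, hAA⟩ : ∃ AA : Fin 3 → 𝓞 K,
      AA = ![(A : 𝓞 K) * (W 0 : ℕ), (B : 𝓞 K) * (W 1 : ℕ), -((C : 𝓞 K) * (W 2 : ℕ))] := ⟨_, rfl⟩
  have hW0 : ∀ σ, ((W σ : ℕ) : 𝓞 K) ≠ 0 := fun σ => by exact_mod_cast (hWpos σ).ne'
  have hA0 : (A : 𝓞 K) ≠ 0 := by exact_mod_cast hA.ne'
  have hB0 : (B : 𝓞 K) ≠ 0 := by exact_mod_cast hB.ne'
  have hC0 : (C : 𝓞 K) ≠ 0 := by exact_mod_cast hC.ne'
  have hAA0 : ∀ σ, AA σ ≠ 0 := by
    intro σ
    rw [hAA]
    fin_cases σ
    · exact mul_ne_zero hA0 (hW0 0)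
    · exact mul_ne_zero hB0 (hW0 1)
    · exact neg_ne_zero.2 (mul_ne_zero hC0 (hW0 2))
  have hsum : ∑ σ, AA σ = 0 := by
    rw [hAA, Fin.sum_univ_three]
    show (A : 𝓞 K) * (W 0 : ℕ) + (B : 𝓞 K) * (W 1 : ℕ) + -((C : 𝓞 K) * (W 2 : ℕ)) = 0
    have h1 : ((A * W 0 + B * W 1 : ℕ) : 𝓞 K) = ((C * W 2 : ℕ) : 𝓞 K) := by rw [hrel]
    push_cast at h1
    rw [h1]
    ring
  have hmain := finalS Pool.Agent.P8H88.EA.gctq Pool.Agent.P8H51.EA.Bm.masn K 3 (3 * (D + 1))
    (3 * k + 1) (D + 1) Mt le_rfl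
    (by nlinarith) u t ht hyp q hq0 (fun i => (finProdFinEquiv.symm i).1)
    (fun i => E (finProdFinEquiv.symm i).1 (finProdFinEquiv.symm i).2)
    (by
      intro σ
      rw [fib_sum (fun σ j => E σ j) σ, hE]
      have := hn'D σ
      omega)
    (fun i j => Sum.elim
      (fun y : Fin 3 × Fin k => if y.1 = (finProdFinEquiv.symm i).1 ∧
        ((finProdFinEquiv.symm i).2 : ℕ) ≤ s (finProdFinEquiv.symm i).1 then cd y.1 y.2 else 0)
      (fun _ => if ((finProdFinEquiv.symm i).2 : ℕ) ≤ s (finProdFinEquiv.symm i).1 then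
        ((((finProdFinEquiv.symm i).2 : Fin (D + 1)) : ℕ) : 𝓞 K) else 1) ((enc 3 k 1).symm j))
    (fun j => Sum.elim (fun y : Fin 3 × Fin k => ad y.1 y.2) (fun _ => 0) ((enc 3 k 1).symm j))
    (by
      intro i j φ
      rcases (enc 3 k 1).symm j with y | y
      · simp only [Sum.elim_inl]
        split_ifs
        · refine (hcd _ _ φ).trans ?_
          rw [hMt]
          linarith
        · simpa using by linarith
      · simp only [Sum.elim_inr]
        split_ifs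
        · have h1 : (((finProdFinEquiv.symm i).2 : Fin (D + 1)) : ℕ) ≤ D := by
            have := (finProdFinEquiv.symm i).2.2
            omega
          have h2 : ((((finProdFinEquiv.symm i).2 : Fin (D + 1)) : ℕ) : ℝ) ≤ D := by
            exact_mod_cast h1
          push_cast
          rw [map_natCast, Complex.norm_natCast, hMt]
          linarith
        · simpa using by linarith)
    x
    (by
      intro i
      rw [hx, ← Equiv.sum_comp (enc 3 k 1), Fintype.sum_sum_type, Fintype.sum_prod_type]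
      simp only [Equiv.symm_apply_apply, Sum.elim_inl, Sum.elim_inr, ite_mul, zero_mul, one_mul]
      rw [hxn]
      by_cases h : ((finProdFinEquiv.symm i).2 : ℕ) ≤ s (finProdFinEquiv.symm i).1
      · simp only [h, and_true, if_true]
        rw [Finset.sum_eq_single (finProdFinEquiv.symm i).1]
        · rw [Nat.cast_add, hbd]
          simp only [if_true, Finset.univ_unique, Finset.sum_const, Finset.card_singleton, one_smul,
            zpow_zero, Units.val_one, mul_one]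
        · intro τ _ hτ
          simp only [hτ, if_false, Finset.sum_const_zero]
        · intro h9
          exact absurd (Finset.mem_univ _) h9
      · simp only [h, and_false, if_false, Finset.sum_const_zero, zero_add, Finset.univ_unique,
          Finset.sum_const, Finset.card_singleton, one_smul, zpow_zero, Units.val_one,
          Nat.cast_one])
    hx0 ![(A : 𝓞 K), (B : 𝓞 K), -(C : 𝓞 K)] (fun _ => 0)
    (by
      intro σ φ
      fin_cases σ
      · show ‖φ (((A : 𝓞 K)) : K)‖ ≤ Mt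
        push_cast
        rw [map_natCast, Complex.norm_natCast, hMt]
        linarith
      · show ‖φ (((B : 𝓞 K)) : K)‖ ≤ Mt
        push_cast
        rw [map_natCast, Complex.norm_natCast, hMt]
        linarith
      · show ‖φ (((-(C : 𝓞 K) : 𝓞 K)) : K)‖ ≤ Mt
        push_cast
        rw [map_neg, norm_neg, map_natCast, Complex.norm_natCast, hMt]
        linarith)
    ![(A : 𝓞 K), (B : 𝓞 K), -(C : 𝓞 K)] (fun σ => by simp) AA
    (by
      intro σ
      have h1 : ∏ i : Fin (3 * (D + 1)) with (finProdFinEquiv.symm i).1 = σ,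
          x i ^ E (finProdFinEquiv.symm i).1 (finProdFinEquiv.symm i).2 = ((W σ : ℕ) : 𝓞 K) := by
        simp only [hx]
        rw [fib_prod (fun σ j => ((xn σ j : ℕ) : 𝓞 K) ^ E σ j) σ, hWx]
        push_cast
        rfl
      rw [h1, hAA]
      fin_cases σ
      · rfl
      · rfl
      · show -((C : 𝓞 K) * (W 2 : ℕ)) = -(C : 𝓞 K) * (W 2 : ℕ)
        ring)
    hsum (sub3 AA hAA0 hsum)
    (by
      have h1 : (Nat.gcd (A * W 0) (B * W 1) : 𝓞 K) ∈ Ideal.span (Set.range AA) := by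
        rw [Ideal.mem_span_range_iff_exists_fun]
        refine ⟨![((Nat.gcdA (A * W 0) (B * W 1) : ℤ) : 𝓞 K),
          ((Nat.gcdB (A * W 0) (B * W 1) : ℤ) : 𝓞 K), 0], ?_⟩
        rw [hAA, Fin.sum_univ_three]
        show ((Nat.gcdA (A * W 0) (B * W 1) : ℤ) : 𝓞 K) * ((A : 𝓞 K) * (W 0 : ℕ)) +
          ((Nat.gcdB (A * W 0) (B * W 1) : ℤ) : 𝓞 K) * ((B : 𝓞 K) * (W 1 : ℕ)) + 0 * _ = _
        have h2 := Nat.gcd_eq_gcd_ab (A * W 0) (B * W 1)
        have h3 : ((Nat.gcd (A * W 0) (B * W 1) : ℤ) : 𝓞 K) =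
          ((((A * W 0 : ℕ) : ℤ) * Nat.gcdA (A * W 0) (B * W 1) +
            ((B * W 1 : ℕ) : ℤ) * Nat.gcdB (A * W 0) (B * W 1) : ℤ) : 𝓞 K) := by rw [← h2]
        push_cast at h3
        rw [h3]
        ring
      have h2 : Nat.gcd (A * W 0) (B * W 1) ∣ q := by
        rw [hq]
        have h3 : Nat.gcd (A * W 0) (B * W 1) ∣ A * B * W 0 :=
          (Nat.gcd_dvd_left _ _).trans ⟨B, by ring⟩
        have h4 : Nat.gcd (A * W 0) (B * W 1) ∣ A * B * W 1 :=
          (Nat.gcd_dvd_right _ _).trans ⟨A, by ring⟩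
        rw [← Nat.gcd_mul_left]
        exact Nat.dvd_gcd h3 h4
      obtain ⟨y, hy⟩ := h2
      rw [hy]
      push_cast
      exact Ideal.mul_mem_right _ _ h1)
  -- the heights
  obtain ⟨G, hG⟩ : ∃ G : ℝ, G = ((C * W 2 : ℕ) : ℝ) := ⟨_, rfl⟩
  have hG1 : 1 ≤ G := by
    rw [hG]
    exact_mod_cast Nat.mul_pos hC (hWpos 2)
  have hlG : 0 ≤ Real.log G := Real.log_nonneg hG1
  have hWG : ∀ σ, Real.log (W σ) ≤ Real.log G := by
    intro σ
    have h1 : W σ ≤ C * W 2 := by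
      fin_cases σ
      · show W 0 ≤ C * W 2
        nlinarith [hWpos 0, hWpos 1]
      · show W 1 ≤ C * W 2
        nlinarith [hWpos 0, hWpos 1]
      · show W 2 ≤ C * W 2
        exact Nat.le_mul_of_pos_left _ hC
    rw [hG]
    exact Real.log_le_log (by exact_mod_cast hWpos σ) (by exact_mod_cast h1)
  have hleft : n * Real.log G ≤ Real.log (∏ φ : K →+* ℂ, (⨆ σ, ‖em φ (AA σ)‖)) := by
    have h1 : G ^ n ≤ ∏ φ : K →+* ℂ, (⨆ σ, ‖em φ (AA σ)‖) := by
      have h2 : ∏ _φ : K →+* ℂ, G = G ^ n := by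
        rw [Finset.prod_const, Finset.card_univ, hn, NumberField.Embeddings.card K ℂ]
      rw [← h2]
      refine Finset.prod_le_prod (fun φ _ => by linarith) fun φ _ => ?_
      refine le_trans (le_of_eq ?_)
        (le_ciSup (f := fun σ => ‖em φ (AA σ)‖) (Set.finite_range _).bddAbove 2)
      show G = ‖em φ (AA 2)‖
      rw [hAA]
      show G = ‖em φ (-((C : 𝓞 K) * (W 2 : ℕ)))‖
      rw [map_neg, norm_neg, map_mul, map_natCast, map_natCast, norm_mul, Complex.norm_natCast,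
        Complex.norm_natCast, hG]
      push_cast
      ring
    have h2 := Real.log_le_log (by positivity) h1
    rwa [Real.log_pow] at h2
  have hlogx : Real.log |(Algebra.norm ℤ (∏ i, x i) : ℝ)| =
      n * ∑ σ, ∑ j, Real.log (xn σ j) := by
    have h1 : ∀ i, |(Algebra.norm ℤ (x i) : ℝ)| =
        (xn (finProdFinEquiv.symm i).1 (finProdFinEquiv.symm i).2 : ℝ) ^ n := by
      intro i
      rw [Pool.Agent.P8H71.EA.absnorm_prod, hx]
      simp only [map_natCast, Complex.norm_natCast]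
      rw [Finset.prod_const, Finset.card_univ, hn, NumberField.Embeddings.card K ℂ]
    rw [map_prod]
    push_cast
    rw [Finset.abs_prod]
    simp only [h1]
    rw [Real.log_prod (fun i _ => by
      have := hxnpos (finProdFinEquiv.symm i).1 (finProdFinEquiv.symm i).2
      positivity)]
    simp only [Real.log_pow]
    rw [← Finset.mul_sum, ← Equiv.sum_comp finProdFinEquiv, Fintype.sum_prod_type]
    simp only [Equiv.symm_apply_apply]
  have hκ : ((3 - 1) * (3 - 2) / 2 * max 1 (3 - 3) : ℕ) = 1 := by decide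
  rw [hκ, Nat.cast_one, one_mul, hlogx, ← hn] at hmain
  have hfac : ∑ σ, ∑ j, Real.log (xn σ j) ≤ F * Real.log G + 3 * ((D : ℝ) * D) := by
    have h1 : ∀ σ, ∑ j, Real.log (xn σ j) ≤
        (1 + (s σ : ℝ)) / n' σ * Real.log G + (D : ℝ) * D := by
      intro σ
      have h2 := log_factors (hb σ) (E σ) (hE σ) (hW σ) (hn' σ) (hs σ)
      simp only [hxn]
      refine h2.trans ?_
      have h3 : (1 + (s σ : ℝ)) / n' σ * Real.log (W σ) ≤
          (1 + (s σ : ℝ)) / n' σ * Real.log G :=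
        mul_le_mul_of_nonneg_left (hWG σ) (by positivity)
      linarith
    calc ∑ σ, ∑ j, Real.log (xn σ j) ≤
          ∑ σ : Fin 3, ((1 + (s σ : ℝ)) / n' σ * Real.log G + (D : ℝ) * D) :=
          Finset.sum_le_sum fun σ _ => h1 σ
      _ = (∑ σ, (1 + (s σ : ℝ)) / n' σ) * Real.log G + 3 * ((D : ℝ) * D) := by
          rw [Finset.sum_add_distrib, ← Finset.sum_mul, Finset.sum_const, Finset.card_univ,
            Fintype.card_fin, nsmul_eq_mul]
          norm_num
      _ ≤ F * Real.log G + 3 * ((D : ℝ) * D) := by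
          have := mul_le_mul_of_nonneg_right hF hlG
          linarith
  obtain ⟨Y, hY⟩ : ∃ Y : ℝ, Y = ((D + 1 : ℕ) : ℝ) * n * ((3 * k + 1 + 3 : ℕ) : ℝ) *
      (1 + Real.log (q * Mt)) := ⟨_, rfl⟩
  obtain ⟨e, he⟩ : ∃ e : ℕ, e = 2 * (3 * k + 4) ^ 3 := ⟨_, rfl⟩
  have he2 : 2 ≤ e := by
    rw [he]
    have : 1 ≤ (3 * k + 4) ^ 3 := Nat.one_le_pow _ _ (by omega)
    omega
  have hmain2 : Real.log (∏ φ : K →+* ℂ, (⨆ σ, ‖em φ (AA σ)‖)) ≤
      n * ∑ σ, ∑ j, Real.log (xn σ j) + (96 * Y) ^ e := by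
    rw [hY, he]
    exact hmain
  have hYD : (D : ℝ) * n ≤ Y := by
    rw [hY]
    have h1 : (1 : ℝ) ≤ ((3 * k + 1 + 3 : ℕ) : ℝ) * (1 + Real.log (q * Mt)) := by
      refine one_le_mul_of_one_le_of_one_le ?_ (by linarith)
      push_cast
      linarith
    have h2 : (D : ℝ) * n ≤ ((D + 1 : ℕ) : ℝ) * n := by
      push_cast
      nlinarith
    calc (D : ℝ) * n ≤ ((D + 1 : ℕ) : ℝ) * n := h2
      _ ≤ (((D + 1 : ℕ) : ℝ) * n) * (((3 * k + 1 + 3 : ℕ) : ℝ) * (1 + Real.log (q * Mt))) :=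
          le_mul_of_one_le_right (by positivity) h1
      _ = _ := by ring
  have hY1 : 1 ≤ Y := le_trans (one_le_mul_of_one_le_of_one_le hDR hnR) hYD
  have h3D : n * (3 * ((D : ℝ) * D)) ≤ (96 * Y) ^ e := by
    calc n * (3 * ((D : ℝ) * D)) ≤ 3 * ((D * n) * (D * n)) := by
          have h1 : (n : ℝ) ≤ n * n := le_mul_of_one_le_right (by positivity) hnR
          have h2 : (0 : ℝ) ≤ D * D := by positivity
          nlinarith
      _ ≤ (96 * Y) ^ 2 := by
          have h1 : ((D : ℝ) * n) * (D * n) ≤ Y * Y :=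
            mul_le_mul hYD hYD (by positivity) (by linarith)
          nlinarith
      _ ≤ (96 * Y) ^ e := pow_le_pow_right₀ (by linarith) he2
  have hfin : (1 - F) * Real.log G ≤ 2 * (96 * Y) ^ e := by
    have h1 : n * ((1 - F) * Real.log G) ≤ n * (3 * ((D : ℝ) * D)) + (96 * Y) ^ e := by
      have h2 := mul_le_mul_of_nonneg_left hfac (by positivity : (0 : ℝ) ≤ n)
      nlinarith
    have h2 : (0 : ℝ) ≤ (96 * Y) ^ e := by positivity
    rcases le_or_gt ((1 - F) * Real.log G) 0 with h3 | h3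
    · linarith
    · have h4 : (1 - F) * Real.log G ≤ n * ((1 - F) * Real.log G) :=
        le_mul_of_one_le_left h3.le hnR
      linarith
  rw [← hG, ← hU, ← hn, ← he]
  refine hfin.trans ?_
  have h1 : 2 * (96 * Y) ^ e ≤ (192 * Y) ^ e := by
    have h2 : (192 * Y) ^ e = 2 ^ e * (96 * Y) ^ e := by
      rw [← mul_pow]
      congr 1
      ring
    rw [h2]
    refine mul_le_mul_of_nonneg_right ?_ (by positivity)
    exact le_self_pow₀ (by norm_num) (by omega)
  refine h1.trans (pow_le_pow_left₀ (by positivity) ?_ _)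
  have h2 : Y ≤ ((2 * D) * n * (7 * k)) * (5 * Real.log U) := by
    rw [hY]
    refine mul_le_mul ?_ hlogq (by linarith) (by positivity)
    refine mul_le_mul ?_ ?_ (by positivity) (by positivity)
    · refine mul_le_mul_of_nonneg_right ?_ (by positivity)
      push_cast
      linarith
    · push_cast
      linarith
  calc 192 * Y ≤ 192 * (((2 * D) * n * (7 * k)) * (5 * Real.log U)) := by linarith
    _ = _ := by ring

end Pool.Agent.P8H51.EA.Luc
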